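import Pool.Agent.Helper34.BIC.Blocks

open Set

namespace BIC

variable {α π : Type*}

lemma ncard_le_one_of_sub {s : Set α} (hs : s.Subsingleton) : s.ncard ≤ 1 := by
  rcases hs.eq_empty_or_singleton with h | ⟨a, h⟩
  · simp [h]
  · simp [h]

/-- natural-number rank -/
noncomputable def rk (M : Matroid α) (X : Set α) : ℕ := (M.eRk X).toNat

section rk

variable (M : Matroid α) [M.Finite]

lemma cast_rk (X : Set α) : (rk M X : ℕ∞) = M.eRk X := by
  unfold rk
  exact ENat.natCast_toNat (by
    have := M.eRk_le_eRank X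
    have h2 : M.eRank < ⊤ := Matroid.eRank_lt_top_iff.2 inferInstance
    exact (lt_of_le_of_lt this h2).ne)

lemma rk_submod (X Y : Set α) : rk M (X ∩ Y) + rk M (X ∪ Y) ≤ rk M X + rk M Y := by
  have := M.eRk_inter_add_eRk_union_le X Y
  rw [← cast_rk, ← cast_rk, ← cast_rk, ← cast_rk] at this
  exact_mod_cast this

lemma rk_mono {X Y : Set α} (h : X ⊆ Y) : rk M X ≤ rk M Y := by
  have := M.eRk_mono h
  rw [← cast_rk, ← cast_rk] at this
  exact_mod_cast this

lemma rk_union_le {X Y : Set α} (hY : Y.Finite) : rk M (X ∪ Y) ≤ rk M X + Y.ncard := by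
  have := M.eRk_union_le_eRk_add_encard X Y
  rw [← cast_rk, ← cast_rk, ← hY.cast_ncard_eq] at this
  exact_mod_cast this

lemma rk_le_ncard {X : Set α} (hX : X.Finite) : rk M X ≤ X.ncard := by
  have := M.eRk_le_encard X
  rw [← cast_rk, ← hX.cast_ncard_eq] at this
  exact_mod_cast this

variable {M}

lemma rk_indep {I : Set α} (h : M.Indep I) : rk M I = I.ncard := by
  have := h.eRk_eq_encard
  rw [← cast_rk, ← (M.ground_finite.subset h.subset_ground).cast_ncard_eq] at this
  exact_mod_cast this

omit [M.Finite] in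
lemma rk_closure (X : Set α) : rk M (M.closure X) = rk M X := by
  unfold rk; rw [M.eRk_closure_eq]

lemma rk_le_base {B : Set α} (h : M.IsBase B) (X : Set α) : rk M X ≤ B.ncard := by
  rw [← rk_indep h.indep]
  have := M.eRk_le_eRank X
  rw [← h.eRk_eq_eRank, ← cast_rk, ← cast_rk] at this
  exact_mod_cast this

lemma rk_superset_base {B X : Set α} (h : M.IsBase B) (hX : B ⊆ X) : rk M X = B.ncard := by
  refine le_antisymm (rk_le_base h X) ?_
  rw [← rk_indep h.indep]
  exact rk_mono M hX

lemma rk_spanning {B X : Set α} (h : M.IsBase B) (hX : M.Spanning X) : rk M X = B.ncard := by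
  obtain ⟨B', hB', hBX⟩ := hX.exists_isBase_subset
  rw [rk_superset_base hB' hBX]
  exact hB'.ncard_eq_ncard_of_isBase h

end rk

/-- The local connection of `X ⊆ G` and `Y` relative to the base `G`. -/
noncomputable def rho (M : Matroid α) (G X Y : Set α) : ℕ := rk M ((G \ X) ∪ Y) - (G \ X).ncard

section rho

variable {M : Matroid α} [M.Finite] {G : Set α}

lemma rho_add (hG : M.IsBase G) (X Y : Set α) :
    rho M G X Y + (G \ X).ncard = rk M ((G \ X) ∪ Y) := by
  unfold rho
  have h1 : (G \ X).ncard ≤ rk M ((G \ X) ∪ Y) := by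
    rw [← rk_indep (hG.indep.subset sdiff_subset)]
    exact rk_mono M subset_union_left
  omega

lemma rho_X_empty (hG : M.IsBase G) (Y : Set α) : rho M G ∅ Y = 0 := by
  have h1 := rho_add hG ∅ Y
  rw [sdiff_empty, rk_superset_base hG subset_union_left] at h1
  omega

lemma rho_Y_empty (hG : M.IsBase G) (X : Set α) : rho M G X ∅ = 0 := by
  have h1 := rho_add hG X ∅
  rw [union_empty, rk_indep (hG.indep.subset sdiff_subset)] at h1
  omega

lemma base_fin (hG : M.IsBase G) : G.Finite := M.ground_finite.subset hG.subset_ground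

lemma rho_X_step (hG : M.IsBase G) {X X' Y : Set α} (h : X ⊆ X') (hs : (X' \ X).Subsingleton) :
    rho M G X' Y ≤ rho M G X Y + 1 := by
  have h1 := rho_add hG X Y
  have h2 := rho_add hG X' Y
  have h3 : rk M ((G \ X') ∪ Y) ≤ rk M ((G \ X) ∪ Y) :=
    rk_mono M (union_subset_union_left _ (sdiff_subset_sdiff_right h))
  have h4 : (G \ X).ncard ≤ (G \ X').ncard + 1 := by
    have hsub : G \ X ⊆ (G \ X') ∪ (X' \ X) := by
      intro e he
      by_cases h5 : e ∈ X'
      · exact Or.inr ⟨h5, he.2⟩
      · exact Or.inl ⟨he.1, h5⟩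
    have hf1 : (G \ X').Finite := (base_fin hG).subset sdiff_subset
    have hf2 : (X' \ X).Finite := hs.finite
    calc (G \ X).ncard ≤ ((G \ X') ∪ (X' \ X)).ncard := ncard_le_ncard hsub (hf1.union hf2)
      _ ≤ (G \ X').ncard + (X' \ X).ncard := ncard_union_le _ _
      _ ≤ (G \ X').ncard + 1 := by
          have := ncard_le_one_of_sub hs
          omega
  omega

lemma rho_Y_step (hG : M.IsBase G) {X Y Y' : Set α} (hs : (Y' \ Y).Subsingleton) :
    rho M G X Y' ≤ rho M G X Y + 1 := by
  have h1 := rho_add hG X Y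
  have h2 := rho_add hG X Y'
  have h3 : rk M ((G \ X) ∪ Y') ≤ rk M ((G \ X) ∪ Y) + 1 := by
    calc rk M ((G \ X) ∪ Y') ≤ rk M (((G \ X) ∪ Y) ∪ (Y' \ Y)) := by
          refine rk_mono M ?_
          intro e he
          rcases he with he | he
          · exact Or.inl (Or.inl he)
          · by_cases h5 : e ∈ Y
            · exact Or.inl (Or.inr h5)
            · exact Or.inr ⟨he, h5⟩
      _ ≤ rk M ((G \ X) ∪ Y) + (Y' \ Y).ncard := rk_union_le M hs.finite
      _ ≤ rk M ((G \ X) ∪ Y) + 1 := by
          have := ncard_le_one_of_sub hs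
          omega
  omega

lemma rho_X_sub (hG : M.IsBase G) {X₁ X₂ Y : Set α} (h₁ : X₁ ⊆ G) (h₂ : X₂ ⊆ G)
    (hd : Disjoint X₁ X₂) : rho M G (X₁ ∪ X₂) Y ≤ rho M G X₁ Y + rho M G X₂ Y := by
  have e1 := rho_add hG X₁ Y
  have e2 := rho_add hG X₂ Y
  have e3 := rho_add hG (X₁ ∪ X₂) Y
  have h3 := rk_submod M ((G \ X₁) ∪ Y) ((G \ X₂) ∪ Y)
  have h4 : rk M (((G \ X₁) ∪ Y) ∪ ((G \ X₂) ∪ Y)) = G.ncard := by
    refine rk_superset_base hG ?_
    intro e he
    by_cases h5 : e ∈ X₁
    · exact Or.inr (Or.inl ⟨he, fun h => Set.disjoint_left.1 hd h5 h⟩)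
    · exact Or.inl (Or.inl ⟨he, h5⟩)
  have h5 : rk M ((G \ (X₁ ∪ X₂)) ∪ Y) ≤ rk M (((G \ X₁) ∪ Y) ∩ ((G \ X₂) ∪ Y)) := by
    refine rk_mono M ?_
    intro e he
    rcases he with he | he
    · exact ⟨Or.inl ⟨he.1, fun h => he.2 (Or.inl h)⟩, Or.inl ⟨he.1, fun h => he.2 (Or.inr h)⟩⟩
    · exact ⟨Or.inr he, Or.inr he⟩
  have hGf := base_fin hG
  have c1 := Set.ncard_sdiff_add_ncard_of_subset h₁ hGf
  have c2 := Set.ncard_sdiff_add_ncard_of_subset h₂ hGf
  have c3 := Set.ncard_sdiff_add_ncard_of_subset (union_subset h₁ h₂) hGf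
  have c4 := Set.ncard_union_eq hd (hGf.subset h₁) (hGf.subset h₂)
  omega

lemma rho_Y_sub (hG : M.IsBase G) {X Y₁ Y₂ : Set α} :
    rho M G X (Y₁ ∪ Y₂) ≤ rho M G X Y₁ + rho M G X Y₂ := by
  have e1 := rho_add hG X Y₁
  have e2 := rho_add hG X Y₂
  have e3 := rho_add hG X (Y₁ ∪ Y₂)
  have h3 := rk_submod M ((G \ X) ∪ Y₁) ((G \ X) ∪ Y₂)
  have h4 : rk M ((G \ X) ∪ (Y₁ ∪ Y₂)) ≤ rk M (((G \ X) ∪ Y₁) ∪ ((G \ X) ∪ Y₂)) := by
    refine rk_mono M ?_
    rintro e (he | he | he)
    · exact Or.inl (Or.inl he)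
    · exact Or.inl (Or.inr he)
    · exact Or.inr (Or.inr he)
  have h5 : (G \ X).ncard ≤ rk M (((G \ X) ∪ Y₁) ∩ ((G \ X) ∪ Y₂)) := by
    rw [← rk_indep (hG.indep.subset (sdiff_subset (t := X)))]
    exact rk_mono M (fun e he => ⟨Or.inl he, Or.inl he⟩)
  omega

/-- Monotone chains of block pairs of large connection. -/
lemma rho_blocks (hG : M.IsBase G) {X Y : Set α} (hX : X ⊆ G) {lx ly : α → ℕ} {N : ℕ}
    (hlx : InjOn lx X) (hly : InjOn ly Y) (hlxN : ∀ x ∈ X, lx x < N) (hlyN : ∀ y ∈ Y, ly y < N)
    {θ m : ℕ} (h : 4 ^ (2 * m) * θ ≤ rho M G X Y) :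
    ∃ BX BY : ℕ → Set α, (∀ i < m, BX i ⊆ X ∧ BY i ⊆ Y ∧ θ ≤ rho M G (BX i) (BY i)) ∧
      (∀ i j, i < j → j < m → ∀ x ∈ BX i, ∀ x' ∈ BX j, lx x < lx x') ∧
      ((∀ i j, i < j → j < m → ∀ y ∈ BY i, ∀ y' ∈ BY j, ly y < ly y') ∨
       (∀ i j, i < j → j < m → ∀ y ∈ BY i, ∀ y' ∈ BY j, ly y' < ly y)) := by
  set IX : ℕ → ℕ → Set α := fun a b => {x | x ∈ X ∧ a ≤ lx x ∧ lx x < b} with hIX
  set IY : ℕ → ℕ → Set α := fun a b => {y | y ∈ Y ∧ a ≤ ly y ∧ ly y < b} with hIY
  have hIXs : ∀ a b, IX a b ⊆ X := fun a b x hx => hx.1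
  have hIYs : ∀ a b, IY a b ⊆ Y := fun a b x hx => hx.1
  obtain ⟨B, h1, h2, h3⟩ := blocks (fun a b c e => rho M G (IX a b) (IY c e))
    (by
      intro a c e
      have : IX a a = ∅ := by
        ext x
        simp only [hIX, mem_ofPred_eq, mem_empty_iff_false, iff_false]
        omega
      simp only [this]
      exact rho_X_empty hG _)
    (by
      intro a b c
      have : IY c c = ∅ := by
        ext x
        simp only [hIY, mem_ofPred_eq, mem_empty_iff_false, iff_false]
        omega
      simp only [this]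
      exact rho_Y_empty hG _)
    (by
      intro a t c e hat
      refine rho_X_step hG ?_ ?_
      · intro x hx
        exact ⟨hx.1, hx.2.1, by have := hx.2.2; omega⟩
      · intro x hx y hy
        have q1 : lx x = t := by
          by_contra hcon
          exact hx.2 ⟨hx.1.1, hx.1.2.1, by have := hx.1.2.2; omega⟩
        have q2 : lx y = t := by
          by_contra hcon
          exact hy.2 ⟨hy.1.1, hy.1.2.1, by have := hy.1.2.2; omega⟩
        exact hlx hx.1.1 hy.1.1 (q1.trans q2.symm))
    (by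
      intro a b c t hct
      refine rho_Y_step hG ?_
      intro x hx y hy
      have q1 : ly x = t := by
        by_contra hcon
        exact hx.2 ⟨hx.1.1, hx.1.2.1, by have := hx.1.2.2; omega⟩
      have q2 : ly y = t := by
        by_contra hcon
        exact hy.2 ⟨hy.1.1, hy.1.2.1, by have := hy.1.2.2; omega⟩
      exact hly hx.1.1 hy.1.1 (q1.trans q2.symm))
    (by
      intro a t b c e hat htb
      have : IX a b = IX a t ∪ IX t b := by
        ext x
        simp only [hIX, mem_ofPred_eq, mem_union]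
        constructor
        · rintro ⟨p1, p2, p3⟩
          rcases Nat.lt_or_ge (lx x) t with p4 | p4
          · exact Or.inl ⟨p1, p2, p4⟩
          · exact Or.inr ⟨p1, p4, p3⟩
        · rintro (⟨p1, p2, p3⟩ | ⟨p1, p2, p3⟩)
          · exact ⟨p1, p2, by omega⟩
          · exact ⟨p1, by omega, p3⟩
      simp only [this]
      refine rho_X_sub hG ((hIXs _ _).trans hX) ((hIXs _ _).trans hX) ?_
      rw [Set.disjoint_left]
      intro x hx hx'
      have := hx.2.2
      have := hx'.2.1
      omega)
    (by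
      intro a b c t e hct hte
      have : IY c e = IY c t ∪ IY t e := by
        ext x
        simp only [hIY, mem_ofPred_eq, mem_union]
        constructor
        · rintro ⟨p1, p2, p3⟩
          rcases Nat.lt_or_ge (ly x) t with p4 | p4
          · exact Or.inl ⟨p1, p2, p4⟩
          · exact Or.inr ⟨p1, p4, p3⟩
        · rintro (⟨p1, p2, p3⟩ | ⟨p1, p2, p3⟩)
          · exact ⟨p1, p2, by omega⟩
          · exact ⟨p1, by omega, p3⟩
      simp only [this]
      exact rho_Y_sub hG)
    θ m N (by
      have e1 : IX 0 N = X := by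
        ext x
        simp only [hIX, mem_ofPred_eq]
        exact ⟨fun h => h.1, fun h => ⟨h, Nat.zero_le _, hlxN x h⟩⟩
      have e2 : IY 0 N = Y := by
        ext x
        simp only [hIY, mem_ofPred_eq]
        exact ⟨fun h => h.1, fun h => ⟨h, Nat.zero_le _, hlyN x h⟩⟩
      simp only [e1, e2]
      exact h)
  refine ⟨fun i => IX (B i).a (B i).b, fun i => IY (B i).c (B i).e, ?_, ?_, ?_⟩
  · intro i hi
    exact ⟨hIXs _ _, hIYs _ _, h1 i hi⟩
  · intro i j hij hj x hx x' hx'
    have := h2 i j hij hj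
    have := hx.2.2
    have := hx'.2.1
    omega
  · rcases h3 with h3 | h3
    · left
      intro i j hij hj x hx x' hx'
      have := h3 i j hij hj
      have := hx.2.2
      have := hx'.2.1
      omega
    · right
      intro i j hij hj x hx x' hx'
      have := h3 i j hij hj
      have := hx.2.1
      have := hx'.2.2
      omega

/-- Greedy choice of port pairs. -/
lemma greedy (hG : M.IsBase G) (BX BY : π → Set α) (μ : Finset π) (θ : ℕ) :
    μ.card ≤ θ → (∀ p ∈ μ, BX p ⊆ G ∧ BY p ⊆ M.E \ G ∧ θ ≤ rho M G (BX p) (BY p)) →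
    (∀ p ∈ μ, ∀ p' ∈ μ, p ≠ p' → Disjoint (BX p) (BX p')) →
    [Nonempty α] →
    ∃ x y : π → α, (∀ p ∈ μ, x p ∈ BX p ∧ y p ∈ BY p) ∧
      M.IsBase ((G \ x '' (μ : Set π)) ∪ y '' (μ : Set π)) := by
  classical
  induction μ using Finset.induction_on with
  | empty =>
    intro _ _ _ _
    obtain ⟨a⟩ := (inferInstance : Nonempty α)
    exact ⟨fun _ => a, fun _ => a, by simp, by simpa using hG⟩
  | insert p μ hp ih =>
    intro hcard hB hd _
    rw [Finset.card_insert_of_notMem hp] at hcard
    obtain ⟨x, y, h1, h2⟩ := ih (by omega) (fun q hq => hB q (Finset.mem_insert_of_mem hq))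
      (fun q hq q' hq' => hd q (Finset.mem_insert_of_mem hq) q' (Finset.mem_insert_of_mem hq'))
    obtain ⟨hBX, hBY, hρ⟩ := hB p (Finset.mem_insert_self _ _)
    set G' := (G \ x '' (μ : Set π)) ∪ y '' (μ : Set π) with hG'
    have hxd : ∀ e ∈ BX p, e ∉ x '' (μ : Set π) := by
      rintro e he ⟨q, hq, rfl⟩
      have hne : p ≠ q := fun h => hp (h ▸ hq)
      exact Set.disjoint_left.1 (hd p (Finset.mem_insert_self _ _) q
        (Finset.mem_insert_of_mem hq) hne) he (h1 q hq).1
    have hBXG' : BX p ⊆ G' := fun e he => Or.inl ⟨hBX he, hxd e he⟩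
    have hex : ∃ x₀ ∈ BX p, ∃ y₀ ∈ BY p, y₀ ∉ M.closure (G' \ {x₀}) := by
      by_contra hcon
      push Not at hcon
      have hne : (BX p).Nonempty := by
        by_contra hne
        rw [Set.not_nonempty_iff_eq_empty] at hne
        rw [hne, rho_X_empty hG] at hρ
        omega
      have hcl : BY p ⊆ M.closure (G' \ BX p) := by
        have h3 := h2.indep.closure_sInter_eq_biInter_closure_of_forall_subset
          (Js := (fun e => G' \ {e}) '' BX p) (hne.image _) (by
            rintro _ ⟨e, _, rfl⟩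
            exact sdiff_subset)
        have h4 : ⋂₀ ((fun e => G' \ {e}) '' BX p) = G' \ BX p := by
          ext z
          simp only [sInter_image, mem_iInter, mem_sdiff, mem_singleton_iff]
          constructor
          · intro hz
            obtain ⟨e, he⟩ := hne
            exact ⟨(hz e he).1, fun hzB => (hz z hzB).2 rfl⟩
          · rintro ⟨hz1, hz2⟩ e he
            exact ⟨hz1, fun h => hz2 (h ▸ he)⟩
        rw [h4] at h3
        rw [h3]
        intro z hz
        simp only [mem_image, iInter_exists, biInter_and', iInter_iInter_eq_right, mem_iInter]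
        intro e he
        exact hcon e he z hz
      have h5 : rk M ((G \ BX p) ∪ BY p) ≤ rk M (G' \ BX p) + μ.card := by
        have hfin : (x '' (μ : Set π)).Finite := (Finset.finite_toSet μ).image _
        calc rk M ((G \ BX p) ∪ BY p) ≤ rk M (M.closure (G' \ BX p) ∪ x '' (μ : Set π)) := by
              refine rk_mono M ?_
              rintro z (hz | hz)
              · by_cases hzx : z ∈ x '' (μ : Set π)
                · exact Or.inr hzx
                · left
                  refine M.subset_closure (G' \ BX p)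
                    (sdiff_subset.trans h2.subset_ground) ⟨Or.inl ⟨hz.1, hzx⟩, hz.2⟩
              · exact Or.inl (hcl hz)
          _ ≤ rk M (M.closure (G' \ BX p)) + (x '' (μ : Set π)).ncard := rk_union_le M hfin
          _ ≤ rk M (G' \ BX p) + μ.card := by
              rw [rk_closure]
              have h6 : (x '' (μ : Set π)).ncard ≤ (μ : Set π).ncard :=
                Set.ncard_image_le (Finset.finite_toSet μ)
              rw [Set.ncard_coe_finset] at h6
              omega
      have h7 : rk M (G' \ BX p) = (G' \ BX p).ncard := rk_indep (h2.indep.subset sdiff_subset)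
      have h8 := Set.ncard_sdiff_add_ncard_of_subset hBXG' (base_fin h2)
      have h9 := Set.ncard_sdiff_add_ncard_of_subset hBX (base_fin hG)
      have h10 : G'.ncard = G.ncard := h2.ncard_eq_ncard_of_isBase hG
      have h11 := rho_add hG (BX p) (BY p)
      omega
    obtain ⟨x₀, hx₀, y₀, hy₀, hcl⟩ := hex
    have hnew := h2.exchange_base_of_notMem_closure (hBXG' hx₀) hcl (hBY hy₀).1
    have hnx : ∀ q ∈ μ, Function.update x p x₀ q = x q := fun q hq =>
      Function.update_of_ne (by rintro rfl; exact hp hq) _ _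
    have hny : ∀ q ∈ μ, Function.update y p y₀ q = y q := fun q hq =>
      Function.update_of_ne (by rintro rfl; exact hp hq) _ _
    have ex : Function.update x p x₀ '' (μ : Set π) = x '' (μ : Set π) :=
      Set.image_congr (fun q hq => hnx q hq)
    have ey : Function.update y p y₀ '' (μ : Set π) = y '' (μ : Set π) :=
      Set.image_congr (fun q hq => hny q hq)
    refine ⟨Function.update x p x₀, Function.update y p y₀, ?_, ?_⟩
    · intro q hq
      rcases Finset.mem_insert.1 hq with rfl | hq
      · simp only [Function.update_self]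
        exact ⟨hx₀, hy₀⟩
      · rw [hnx q hq, hny q hq]
        exact h1 q hq
    · rw [Finset.coe_insert, image_insert_eq, image_insert_eq, ex, ey, Function.update_self,
        Function.update_self]
      by_cases hxy : x₀ ∈ y '' (μ : Set π)
      · exfalso
        obtain ⟨q, hq, hqx⟩ := hxy
        have := (hB q (Finset.mem_insert_of_mem hq)).2.1 (h1 q hq).2
        rw [hqx] at this
        exact this.2 (hBX hx₀)
      · have : G \ insert x₀ (x '' (μ : Set π)) ∪ insert y₀ (y '' (μ : Set π)) =
            insert y₀ (G' \ {x₀}) := by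
          ext z
          simp only [hG', mem_union, mem_sdiff, mem_insert_iff, mem_singleton_iff, not_or]
          constructor
          · rintro (⟨a, b, c⟩ | a | a)
            · right; exact ⟨Or.inl ⟨a, c⟩, b⟩
            · left; exact a
            · right; refine ⟨Or.inr a, ?_⟩; rintro rfl; exact hxy a
          · rintro (a | ⟨⟨a, b⟩ | a, c⟩)
            · right; left; exact a
            · left; exact ⟨a, c, b⟩
            · right; right; exact a
        rw [this]
        exact hnew

end rho

end BIC
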