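import Pool.Agent.Helper34.BIC.ThmA
import Pool.Agent.Helper11.ISO

/-!
# Theorem A in structural form (no `IsBicircular`), for plain grids of two sizes
-/

open Set
open scoped Matroid

namespace BIC

variable {α : Type*}

theorem side_data2 {ι : Type} [Fintype ι] {M : Matroid α} {S : Set α} (hS : S ⊆ M.E)
    {V : Type} [Finite V] {G : SimpleGraph V} {vt : ℕ → ℕ → V} {ap : V}
    {n h N : ℕ} (hG : GridLike n G vt ap) (hh : 1 ≤ h) (hn : n = 2 * h * N) (hN : 1 ≤ N)
    (hι : Fintype.card ι < 2 * h) {φ : Sym2 V → α} {ends : α → Sym2 V}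
    (hφ : ∀ x ∈ G.edgeSet, φ x ∈ S ∧ ends (φ x) = x) (hB : Bic M S ends) :
    SideData ι M S N (2 * h * (2 * h)) := by
  classical
  have hVne : Nonempty V := ⟨ap⟩
  set ψ : V → α := fun v => φ s(v, nxt vt h N v) with hψ
  have hedge : ∀ v, s(v, nxt vt h N v) ∈ G.edgeSet := fun v => adj_nxt hG hh hn v
  have hends : ∀ v, ψ v ∈ S ∧ ends (ψ v) = s(v, nxt vt h N v) := fun v => hφ _ (hedge v)
  have hpsi : ∀ v, ψ v ∈ S ∧ v ∈ ends (ψ v) := fun v =>
    ⟨(hends v).1, by rw [(hends v).2]; simp⟩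
  have hψi : Function.Injective ψ := by
    intro v v' hvv
    have h1 := congrArg ends hvv
    rw [(hends v).2, (hends v').2] at h1
    rcases Sym2.eq_iff.1 h1 with ⟨h2, _⟩ | ⟨h2, h3⟩
    · exact h2
    · exfalso
      apply nxt_nxt hG hh hn hN v'
      rw [← h2, h3]
  have hlad : ∀ y j, y < h * N → j < N → ∀ X : Set α, (X ∩ ψ '' Lad vt h y j).Subsingleton →
      Mg ι M S ends (Lad vt h y j) (ψ '' Lad vt h y j) (X ∩ ψ '' Lad vt h y j) := by
    intro y j hy hj X hX
    refine Mg.cycle (L := 4 * h) (by omega) (cyc vt h y j) (cyc_per h y j) ?_ rfl hψi.injOn ?_ hX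
    · intro s hs t ht hst
      have := (cyc_inj hG hh hn hy hj hy hj hst).2.2
      rwa [Nat.mod_eq_of_lt hs, Nat.mod_eq_of_lt ht] at this
    · intro t
      refine ⟨(hends _).1, ?_⟩
      rw [(hends _).2, nxt_cyc hG hh hn hy hj]
  have hcell : ∀ X : Set α, (∀ c : ℕ × ℕ, c.1 < N → c.2 < N → (X ∩ ψ '' Cell vt h c).Subsingleton) →
      ∀ c : ℕ × ℕ, c.1 < N → c.2 < N →
      Mg ι M S ends (Cell vt h c) (ψ '' Cell vt h c) (X ∩ ψ '' Cell vt h c) := by
    intro X hX c hc1 hc2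
    have hsub : ∀ t < h, Lad vt h (h * c.1 + t) c.2 ⊆ Cell vt h c := by
      intro t ht
      unfold Cell
      exact subset_biUnion_of_mem (u := fun t => Lad vt h (h * c.1 + t) c.2)
        (show t ∈ (Finset.range h : Set ℕ) from Finset.mem_coe.2 (Finset.mem_range.2 ht))
    have hl : ∀ t < h, Mg ι M S ends (Lad vt h (h * c.1 + t) c.2)
        (ψ '' Lad vt h (h * c.1 + t) c.2) (X ∩ ψ '' Lad vt h (h * c.1 + t) c.2) := by
      intro t ht
      refine hlad _ _ (hY_lt hc1 ht) hc2 X ((hX c hc1 hc2).anti ?_)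
      exact inter_subset_inter_right _ (image_mono (hsub t ht))
    have hPQ : ∀ T, 1 ≤ T → T ≤ h →
        PQ ι M S ends ψ X (fun t => Lad vt h (h * c.1 + t) c.2) (Finset.range T) := by
      intro T hT
      induction T, hT using Nat.le_induction with
      | base =>
        intro h1
        unfold PQ
        have : ⋃ t ∈ Finset.range 1, Lad vt h (h * c.1 + t) c.2 = Lad vt h (h * c.1 + 0) c.2 := by
          simp
        rw [this]
        exact hl 0 (by omega)
      | succ T hT ih =>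
        intro h1
        rw [Finset.range_add_one]
        refine PQ.add hB (fun c _ => Set.toFinite _) (ih (by omega)) (c := T) (c' := T - 1)
          (Set.toFinite _) (hl T (by omega)) (Finset.mem_range.2 (by omega)) ?_ ?_
        · intro b hb hbT
          have hb' := Finset.mem_range.1 hb
          refine Lad_disj hG hh hn (hY_lt hc1 (by omega)) hc2 (hY_lt hc1 (by omega)) hc2 ?_
          rintro ⟨e, _⟩
          omega
        · have e : h * c.1 + T = (h * c.1 + (T - 1)) + 1 := by omega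
          rw [e]
          set y := h * c.1 + (T - 1) with hy
          have hyN : y + 1 < h * N := by
            have := hY_lt (h := h) hc1 (show T < h by omega)
            omega
          have hr2 : 2 * (y + 1) + 1 < n := row_lt hn hyN
          refine rung_of hφ hι (fun s => vt (2 * y + 1) (2 * h * c.2 + s))
            (fun s => vt (2 * y + 1 + 1) (2 * h * c.2 + s)) ?_ ?_ ?_ ?_ ?_
          · intro s hs; exact vt_mem_Lad hh (Or.inr rfl) hs
          · intro s hs; exact vt_mem_Lad hh (Or.inl (by ring)) hs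
          · intro s hs; exact hG.adjv (by omega) (col_lt hn hc2 hs)
          · intro s hs s' hs' hss
            have := (hG.inj (by omega) (col_lt hn hc2 hs) (by omega) (col_lt hn hc2 hs') hss).2
            omega
          · intro s hs s' hs' hss
            have := (hG.inj (by omega) (col_lt hn hc2 hs) (by omega) (col_lt hn hc2 hs') hss).1
            omega
    exact hPQ h hh (le_refl _)
  have hrange : ∀ {Y a : ℕ}, Y < N → a < 2 * h → 2 * h * Y + a < n := fun hY ha =>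
    col_lt hn hY ha
  refine ⟨V, ends, ψ, Cell vt h, ap, ?_, ?_, ?_, ?_⟩
  · intro X hX
    refine ⟨hB, hpsi, fun c => Set.toFinite _, Cell_disj hG hh hn, hcell X hX, ?_, ?_⟩
    · intro l d hl hd
      have e1 : 2 * h * l + (2 * h - 1) + 1 = 2 * h * (l + 1) + 0 := by
        rw [Nat.mul_succ]; omega
      have hlt : 2 * h * (l + 1) + 0 < n := hrange hl (by omega)
      refine rung_of hφ hι (fun s => vt (2 * h * l + (2 * h - 1)) (2 * h * d + s))
        (fun s => vt (2 * h * l + (2 * h - 1) + 1) (2 * h * d + s)) ?_ ?_ ?_ ?_ ?_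
      · intro s hs; exact vt_mem_Cell hh (by omega) hs
      · intro s hs
        rw [e1]
        exact vt_mem_Cell hh (by omega) hs
      · intro s hs
        exact hG.adjv (by omega) (hrange hd hs)
      · intro s hs s' hs' hss
        have := (hG.inj (by omega) (hrange hd hs) (by omega) (hrange hd hs') hss).2
        omega
      · intro s hs s' hs' hss
        have := (hG.inj (by omega) (hrange hd hs) (by omega) (hrange hd hs') hss).1
        omega
    · intro l d hl hd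
      have e1 : 2 * h * d + (2 * h - 1) + 1 = 2 * h * (d + 1) + 0 := by
        rw [Nat.mul_succ]; omega
      have hlt : 2 * h * (d + 1) + 0 < n := hrange hd (by omega)
      refine rung_of hφ hι (fun s => vt (2 * h * l + s) (2 * h * d + (2 * h - 1)))
        (fun s => vt (2 * h * l + s) (2 * h * d + (2 * h - 1) + 1)) ?_ ?_ ?_ ?_ ?_
      · intro s hs; exact vt_mem_Cell hh hs (by omega)
      · intro s hs
        rw [e1]
        exact vt_mem_Cell hh hs (by omega)
      · intro s hs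
        exact hG.adjh (hrange hl hs) (by omega)
      · intro s hs s' hs' hss
        have := (hG.inj (hrange hl hs) (by omega) (hrange hl hs') (by omega) hss).1
        omega
      · intro s hs s' hs' hss
        have := (hG.inj (hrange hl hs) (by omega) (hrange hl hs') (by omega) hss).2
        omega
  · have hsubS : range ψ ⊆ S := by
      rintro _ ⟨v, rfl⟩
      exact (hpsi v).1
    have hfin : (range ψ).Finite := Set.finite_range ψ
    have hind : M.Indep (range ψ) := by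
      refine hB.ind (range ψ) (Function.invFun ψ) hsubS ?_ ?_
      · rintro _ ⟨v, rfl⟩ _ ⟨v', rfl⟩ hvv
        rw [Function.leftInverse_invFun hψi v, Function.leftInverse_invFun hψi v'] at hvv
        rw [hvv]
      · rintro _ ⟨v, rfl⟩
        rw [Function.leftInverse_invFun hψi v]
        exact (hpsi v).2
    refine hind.isBasis_of_eRk_ge hfin hsubS ?_ hS
    rw [hind.eRk_eq_encard]
    have h1 := hB.rk (univ : Set (V))
    have h2 : S ⊆ ins S ends univ := fun e he => ⟨he, fun v _ => mem_univ v⟩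
    have h3 : (range ψ).encard = (univ : Set (V)).encard := by
      rw [← image_univ, hψi.injOn.encard_image]
    rw [h3]
    exact (M.eRk_mono h2).trans h1
  · intro v
    rcases exists_cyc hG hh hn v with ⟨h0, _⟩ | ⟨y, j, i, hy, hj, hi, rfl⟩
    · exact Or.inl h0
    · right
      refine ⟨(y / h, j), ?_, hj, ?_⟩
      · simp only
        rw [Nat.div_lt_iff_lt_mul (by omega), mul_comm]
        exact hy
      · unfold Cell
        refine mem_iUnion₂.2 ⟨y % h, Finset.mem_range.2 (Nat.mod_lt _ (by omega)), ?_⟩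
        simp only
        rw [Nat.div_add_mod]
        exact mem_Lad_of_cyc hh
  · intro c
    have hsub : Cell vt h c ⊆ (fun p : ℕ × ℕ => vt (2 * h * c.1 + p.1) (2 * h * c.2 + p.2)) ''
        ((Finset.range (2 * h) ×ˢ Finset.range (2 * h) : Finset (ℕ × ℕ)) : Set (ℕ × ℕ)) := by
      intro v hv
      unfold Cell at hv
      obtain ⟨t, ht, hv⟩ := mem_iUnion₂.1 hv
      have ht' := Finset.mem_range.1 ht
      obtain ⟨i, hi, rfl⟩ := hv
      have e : 2 * (h * c.1 + t) = 2 * h * c.1 + 2 * t := by ring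
      rcases cyc_cases (vt := vt) hh (y := h * c.1 + t) (j := c.2) (i := i) with
        ⟨h1, h2⟩ | ⟨h1, h1', h2⟩
      · refine ⟨(2 * t, i % (4 * h)), ?_, ?_⟩
        · simp only [Finset.coe_product, mem_prod, Finset.mem_coe, Finset.mem_range]
          omega
        · rw [h2, e]
      · refine ⟨(2 * t + 1, 4 * h - 1 - i % (4 * h)), ?_, ?_⟩
        · simp only [Finset.coe_product, mem_prod, Finset.mem_coe, Finset.mem_range]
          omega
        · rw [h2, e]
          simp only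
          rw [add_assoc]
    calc (ψ '' Cell vt h c).ncard ≤ (Cell vt h c).ncard := Set.ncard_image_le (Set.toFinite _)
      _ ≤ _ := Set.ncard_le_ncard hsub ((Finset.finite_toSet _).image _)
      _ ≤ _ := Set.ncard_image_le (Finset.finite_toSet _)
      _ = 2 * h * (2 * h) := by
        rw [Set.ncard_coe_finset, Finset.card_product, Finset.card_range]


/-- Transport of a bicircular structure to another vertex set. -/
theorem Bic.mapV {V W : Type*} {M : Matroid α} {S : Set α} {ends : α → Sym2 V} (hB : Bic M S ends)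
    {U : Set V} (hU : ∀ e ∈ S, ∀ v ∈ ends e, v ∈ U) {g : V → W} (hg : InjOn g U) :
    Bic M S (fun e => Sym2.map g (ends e)) where
  sub := hB.sub
  ind := by
    intro F φ hF hφ hφe
    have h1 : ∀ e, ∃ v ∈ ends e, e ∈ F → g v = φ e := by
      intro e
      by_cases he : e ∈ F
      · have := hφe e he
        rw [Sym2.mem_map] at this
        obtain ⟨v, hv, hv'⟩ := this
        exact ⟨v, hv, fun _ => hv'⟩
      · obtain ⟨v, hv⟩ := exists_mem_ends ends e
        exact ⟨v, hv, fun h => absurd h he⟩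
    choose ψ hψ using h1
    refine hB.ind F ψ hF ?_ (fun e he => (hψ e).1)
    intro a ha b hb hab
    apply hφ ha hb
    rw [← (hψ a).2 ha, ← (hψ b).2 hb, hab]
  rk := by
    intro W'
    have h1 : ins S (fun e => Sym2.map g (ends e)) W' ⊆ ins S ends (U ∩ g ⁻¹' W') := by
      rintro e ⟨he, he'⟩
      exact ⟨he, fun v hv => ⟨hU e he v hv, he' _ (Sym2.mem_map.2 ⟨v, hv, rfl⟩)⟩⟩
    refine (M.eRk_mono h1).trans ((hB.rk _).trans ?_)
    rw [← (hg.mono inter_subset_left).encard_image]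
    apply Set.encard_le_encard
    rintro _ ⟨v, hv, rfl⟩
    exact hv.2

/-- A bicircular structure depends only on the restriction. -/
theorem Bic.of_restrict_eq {V : Type*} {M M' : Matroid α} {S : Set α} {ends : α → Sym2 V}
    (hB : Bic M S ends) (hS : S ⊆ M'.E) (h : M' ↾ S = M ↾ S) : Bic M' S ends where
  sub := hS
  ind := by
    intro F φ hF h1 h2
    have h3 : (M ↾ S).Indep F := Matroid.restrict_indep_iff.2 ⟨hB.ind F φ hF h1 h2, hF⟩
    rw [← h] at h3
    exact (Matroid.restrict_indep_iff.1 h3).1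
  rk := by
    intro W
    have h1 : ins S ends W ⊆ S := fun e he => he.1
    rw [← Matroid.restrict_eRk_eq M' h1, h, Matroid.restrict_eRk_eq M h1]
    exact hB.rk W

/-- `M|S` is bicircular on a graph with an `n × n` grid as in `GridLike`. -/
def BicGrid (M : Matroid α) (S : Set α) (n : ℕ) : Prop :=
  ∃ (V : Type) (_ : Finite V) (G : SimpleGraph V) (vt : ℕ → ℕ → V) (ap : V) (ends : α → Sym2 V)
    (φ : Sym2 V → α), GridLike n G vt ap ∧ Bic M S ends ∧
      ∀ x ∈ G.edgeSet, φ x ∈ S ∧ ends (φ x) = x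

theorem BicGrid.sub {M : Matroid α} {S : Set α} {n : ℕ} (hb : BicGrid M S n) : S ⊆ M.E := by
  obtain ⟨V, _, G, vt, ap, ends, φ, hG, hB, hφ⟩ := hb
  exact hB.sub

theorem BicGrid.side {ι : Type} [Fintype ι] {M : Matroid α} {S : Set α} {n h N : ℕ}
    (hb : BicGrid M S n) (hh : 1 ≤ h) (hn : n = 2 * h * N) (hN : 1 ≤ N)
    (hι : Fintype.card ι < 2 * h) : SideData ι M S N (2 * h * (2 * h)) := by
  obtain ⟨V, _, G, vt, ap, ends, φ, hG, hB, hφ⟩ := hb
  exact side_data2 hB.sub hG hh hn hN hι hφ hB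

theorem BicGrid.of_restrict_eq {M M' : Matroid α} {S : Set α} {n : ℕ} (hb : BicGrid M S n)
    (hS : S ⊆ M'.E) (h : M' ↾ S = M ↾ S) : BicGrid M' S n := by
  obtain ⟨V, i, G, vt, ap, ends, φ, hG, hB, hφ⟩ := hb
  exact ⟨V, i, G, vt, ap, ends, φ, hG, hB.of_restrict_eq hS h, hφ⟩

/-- From a coordinate system: `U` holds the ends of the elements of `S`, `g` are the coordinates. -/
theorem bicGrid_of_coord {V : Type*} {M : Matroid α} {S : Set α} {ends : α → Sym2 V} {n : ℕ}
    (hn : 2 ≤ n) (hB : Bic M S ends) {U : Set V} (hU : ∀ e ∈ S, ∀ v ∈ ends e, v ∈ U)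
    {g : V → Fin n × Fin n} (hg : InjOn g U)
    (hsurj : ∀ p q : Fin n × Fin n, gridAdj p q → ∃ e ∈ S, Sym2.map g (ends e) = s(p, q)) :
    BicGrid M S n := by
  classical
  have hn0 : 0 < n := by omega
  have h1 : ∀ x ∈ (Grid n).edgeSet, ∃ e ∈ S, Sym2.map g (ends e) = x := by
    intro x
    induction x using Sym2.ind with
    | _ p q => exact fun hx => hsurj p q hx
  have hα : Nonempty α := by
    obtain ⟨e, _, _⟩ := hsurj (⟨0, hn0⟩, ⟨0, hn0⟩) (⟨0, hn0⟩, ⟨1, hn⟩) (Or.inl ⟨rfl, Or.inl rfl⟩)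
    exact ⟨e⟩
  choose! φ hφ using h1
  exact ⟨_, inferInstance, Grid n, vtG hn0, (⟨0, hn0⟩, ⟨0, hn0⟩), _, φ, gridLike_Grid hn0,
    hB.mapV hU hg, hφ⟩

universe u

/-- Theorem A for `BicGrid`, sizes `2 · 4^k · N₁` and `2 · 4^k · N₂`. -/
theorem thmBG (k : ℕ) (hk : 1 ≤ k) : ∃ κ₀ N₀ : ℕ, ∀ {α : Type u} (M : Matroid α) [M.Finite]
    (S T : Set α), Disjoint S T → ∀ N₁ N₂ : ℕ, N₀ ≤ N₁ → N₀ ≤ N₂ →
    BicGrid M S (2 * 4 ^ k * N₁) → BicGrid M✶ T (2 * 4 ^ k * N₂) → KGe M S T κ₀ →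
    HasUniformMinor M k := by
  classical
  set h := 4 ^ k with hh
  set w := 2 * h * (2 * h) with hw
  set q₂ := 4 ^ (2 * (3 * k * k)) * (k * k + k) with hq₂
  set q₁ := (2 * q₂) ^ 2 with hq₁
  set q₀ := (2 * q₁) ^ 2 with hq₀
  have hh1 : 1 ≤ h := Nat.one_le_pow _ _ (by norm_num)
  refine ⟨w * (w * q₀ + 1) + 2, 2 * k + 2, ?_⟩
  intro α M _ S T hST N₁ N₂ hN₁ hN₂ hg₁ hg₂ hκ
  have hS : S ⊆ M.E := hg₁.sub
  have hT : T ⊆ M.E := hg₂.sub
  obtain ⟨M', h1, h2, h3, h4, h5⟩ := tutte hST _ M hS hT rfl hκ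
  have hfin' : M'.Finite := ⟨M.ground_finite.subset h1.subset⟩
  have hS' : S ⊆ M'.E := by rw [h2]; exact subset_union_left
  have hT' : T ⊆ M'.E := by rw [h2]; exact subset_union_right
  have hcard : Fintype.card (Cond k) < 2 * h := by
    have := card_Cond k
    omega
  have dS : SideData (Cond k) M' S N₁ w := (hg₁.of_restrict_eq hS' h3).side hh1 rfl (by omega) hcard
  have dT : SideData (Cond k) M'✶ T N₂ w := (hg₂.of_restrict_eq (M' := M'✶)
    (by rw [Matroid.dual_ground]; exact hT') h4).side hh1 rfl (by omega) hcard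
  have hE : M'.E \ S = T := by
    rw [h2]
    ext e
    simp only [mem_sdiff, mem_union]
    constructor
    · rintro ⟨a | a, b⟩
      · exact absurd a b
      · exact a
    · intro a
      exact ⟨Or.inr a, fun b => Set.disjoint_left.1 hST b a⟩
  have hκ' := h5 S (subset_refl _) (fun s hs => ⟨hS' hs, Set.disjoint_left.1 hST hs⟩)
  rw [hE] at hκ'
  obtain ⟨N', a, b, c⟩ := core hk hST h2 dS dT hκ' (by omega) (by omega) (le_refl q₂) (le_refl q₁)
    (le_refl q₀) (by omega)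
  exact ⟨N', a.trans h1, b, c⟩

/-- helper11's `IsGrid` gives `BicGrid`. -/
theorem bicGrid_of_isGrid {V : Type*} {M : Matroid α} {S : Set α} {ends : α → Sym2 V} {n : ℕ}
    {p : ℕ → ℕ → V} {hE vE : ℕ → ℕ → α} (hn : 2 ≤ n) (hB : Bic M S ends)
    (hG : IsGrid S ends n p hE vE) : BicGrid M S n := by
  classical
  have hn0 : 0 < n := by omega
  set U : Set V := {v | ∃ i j, i < n ∧ j < n ∧ v = p i j} with hU
  have hg0 : ∀ v, ∃ q : Fin n × Fin n, v ∈ U → p q.1 q.2 = v := by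
    intro v
    by_cases hv : v ∈ U
    · obtain ⟨i, j, hi, hj, rfl⟩ := hv
      exact ⟨(⟨i, hi⟩, ⟨j, hj⟩), fun _ => rfl⟩
    · exact ⟨(⟨0, hn0⟩, ⟨0, hn0⟩), fun h => absurd h hv⟩
  choose g hg using hg0
  have hgp : ∀ {i j : ℕ} (hi : i < n) (hj : j < n), g (p i j) = (⟨i, hi⟩, ⟨j, hj⟩) := by
    intro i j hi hj
    have h1 := hg (p i j) ⟨i, j, hi, hj, rfl⟩
    obtain ⟨h2, h3⟩ := hG.inj (g (p i j)).1.2 (g (p i j)).2.2 hi hj h1
    exact Prod.ext (Fin.ext h2) (Fin.ext h3)
  refine bicGrid_of_coord (U := U) (g := g) hn hB ?_ ?_ ?_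
  · intro e he v hv
    rcases hG.cover e he with ⟨i, j, hi, hj, rfl⟩ | ⟨i, j, hi, hj, rfl⟩
    · rw [(hG.hmem hi hj).2] at hv
      rcases Sym2.mem_iff.1 hv with rfl | rfl
      · exact ⟨i, j, hi, by omega, rfl⟩
      · exact ⟨i, j + 1, hi, hj, rfl⟩
    · rw [(hG.vmem hi hj).2] at hv
      rcases Sym2.mem_iff.1 hv with rfl | rfl
      · exact ⟨i, j, by omega, hj, rfl⟩
      · exact ⟨i + 1, j, hi, hj, rfl⟩
  · intro v hv v' hv' h
    rw [← hg v hv, ← hg v' hv', h]
  · have hh : ∀ {i j : ℕ} (hi : i < n) (hj : j + 1 < n), ∃ e ∈ S, Sym2.map g (ends e) =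
        s((⟨i, hi⟩, ⟨j, by omega⟩), (⟨i, hi⟩, ⟨j + 1, hj⟩)) := by
      intro i j hi hj
      refine ⟨hE i j, (hG.hmem hi hj).1, ?_⟩
      rw [(hG.hmem hi hj).2, Sym2.map_mk, hgp hi (show j < n by omega), hgp hi hj]
    have hv : ∀ {i j : ℕ} (hi : i + 1 < n) (hj : j < n), ∃ e ∈ S, Sym2.map g (ends e) =
        s((⟨i, by omega⟩, ⟨j, hj⟩), (⟨i + 1, hi⟩, ⟨j, hj⟩)) := by
      intro i j hi hj
      refine ⟨vE i j, (hG.vmem hi hj).1, ?_⟩
      rw [(hG.vmem hi hj).2, Sym2.map_mk, hgp (show i < n by omega) hj, hgp hi hj]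
    rintro ⟨⟨i, hi⟩, ⟨j, hj⟩⟩ ⟨⟨i', hi'⟩, ⟨j', hj'⟩⟩ h
    rcases h with ⟨h1, h2 | h2⟩ | ⟨h1, h2 | h2⟩
    · simp only at h1 h2
      cases h1; subst h2
      exact hh hi (by omega)
    · simp only at h1 h2
      cases h1; subst h2
      rw [Sym2.eq_swap]
      exact hh hi (by omega)
    · simp only at h1 h2
      cases h1; subst h2
      exact hv (by omega) hj
    · simp only at h1 h2
      cases h1; subst h2
      rw [Sym2.eq_swap]
      exact hv (by omega) hj

/-- Theorem A for helper11's `IsGrid`. -/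
theorem thmGridB (k : ℕ) (hk : 1 ≤ k) : ∃ κ₀ N₀ : ℕ, 1 ≤ N₀ ∧
    ∀ {α : Type u} (M : Matroid α) [M.Finite] (S T : Set α), Disjoint S T →
    ∀ N₁ N₂ : ℕ, N₀ ≤ N₁ → N₀ ≤ N₂ →
    ∀ {V₁ V₂ : Type*} {e₁ : α → Sym2 V₁} {e₂ : α → Sym2 V₂} {p₁ : ℕ → ℕ → V₁} {p₂ : ℕ → ℕ → V₂}
      {hE₁ vE₁ hE₂ vE₂ : ℕ → ℕ → α}, Bic M S e₁ → IsGrid S e₁ (2 * 4 ^ k * N₁) p₁ hE₁ vE₁ →
    Bic M✶ T e₂ → IsGrid T e₂ (2 * 4 ^ k * N₂) p₂ hE₂ vE₂ → KGe M S T κ₀ →
    HasUniformMinor M k := by
  obtain ⟨κ₀, N₀, hmain⟩ := thmBG.{u} k hk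
  refine ⟨κ₀, N₀ + 1, by omega, ?_⟩
  intro α M _ S T hST N₁ N₂ hN₁ hN₂ V₁ V₂ e₁ e₂ p₁ p₂ hE₁ vE₁ hE₂ vE₂ hB₁ hG₁ hB₂ hG₂ hκ
  have h1 : 1 ≤ 4 ^ k := Nat.one_le_pow _ _ (by norm_num)
  have h2 : ∀ N, N₀ + 1 ≤ N → 2 ≤ 2 * 4 ^ k * N := by
    intro N hN
    calc 2 = 2 * 1 * 1 := by norm_num
      _ ≤ 2 * 4 ^ k * N := Nat.mul_le_mul (Nat.mul_le_mul_left _ h1) (by omega)
  exact hmain M S T hST N₁ N₂ (by omega) (by omega) (bicGrid_of_isGrid (h2 _ hN₁) hB₁ hG₁)
    (bicGrid_of_isGrid (h2 _ hN₂) hB₂ hG₂) hκ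

end BIC
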