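import Mathlib

open Set

namespace BIC

variable {α V ι : Type*}

/-- Elements of `S` both of whose ends lie in `W`. -/
def ins (S : Set α) (ends : α → Sym2 V) (W : Set V) : Set α :=
  {e | e ∈ S ∧ ∀ v ∈ ends e, v ∈ W}

/-- Abstract bicircular structure of `M` on `S`. -/
structure Bic (M : Matroid α) (S : Set α) (ends : α → Sym2 V) : Prop where
  sub : S ⊆ M.E
  ind : ∀ (F : Set α) (φ : α → V), F ⊆ S → InjOn φ F → (∀ e ∈ F, φ e ∈ ends e) → M.Indep F
  rk : ∀ W : Set V, M.eRk (ins S ends W) ≤ W.encard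

/-- `τ` is a spanning tree of `W`, in the form: for every root there is an orientation. -/
def Arb (S : Set α) (ends : α → Sym2 V) (W : Set V) (τ : Set α) : Prop :=
  τ ⊆ ins S ends W ∧ W.Nonempty ∧
    ∀ v ∈ W, ∃ φ : α → V, BijOn φ τ (W \ {v}) ∧ ∀ e ∈ τ, φ e ∈ ends e

lemma ins_mono {S : Set α} {ends : α → Sym2 V} {W W' : Set V} (h : W ⊆ W') :
    ins S ends W ⊆ ins S ends W' := fun _ he => ⟨he.1, fun v hv => h (he.2 v hv)⟩

lemma exists_mem_ends (ends : α → Sym2 V) (e : α) : ∃ v, v ∈ ends e := by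
  induction h : ends e with
  | _ a b => exact ⟨a, by simp⟩

lemma ins_disj {S : Set α} {ends : α → Sym2 V} {W W' : Set V} (h : Disjoint W W') :
    Disjoint (ins S ends W) (ins S ends W') := by
  rw [Set.disjoint_left]
  intro e he he'
  obtain ⟨v, hv⟩ := exists_mem_ends ends e
  exact Set.disjoint_left.1 h (he.2 v hv) (he'.2 v hv)

lemma Arb.indep_insert {M : Matroid α} {S : Set α} {ends : α → Sym2 V} (hB : Bic M S ends)
    {W : Set V} {τ : Set α} (hτ : Arb S ends W τ) {g : α} (hg : g ∈ ins S ends W) (hgτ : g ∉ τ) :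
    M.Indep (insert g τ) ∧ (insert g τ).encard = W.encard := by
  classical
  obtain ⟨v, hv⟩ := exists_mem_ends ends g
  obtain ⟨φ, hφ, hφe⟩ := hτ.2.2 v (hg.2 v hv)
  constructor
  · refine hB.ind _ (Function.update φ g v) ?_ ?_ ?_
    · exact insert_subset hg.1 (fun e he => (hτ.1 he).1)
    · intro a ha b hb hab
      rcases ha with rfl | ha <;> rcases hb with rfl | hb
      · rfl
      · have hne : b ≠ a := fun h => hgτ (h ▸ hb)
        rw [Function.update_self, Function.update_of_ne hne] at hab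
        exact absurd (hab ▸ hφ.mapsTo hb : v ∈ W \ {v}) (by simp)
      · have hne : a ≠ b := fun h => hgτ (h ▸ ha)
        rw [Function.update_self, Function.update_of_ne hne] at hab
        exact absurd (hab ▸ hφ.mapsTo ha : v ∈ W \ {v}) (by simp)
      · have hne : a ≠ g := fun h => hgτ (h ▸ ha)
        have hne' : b ≠ g := fun h => hgτ (h ▸ hb)
        rw [Function.update_of_ne hne, Function.update_of_ne hne'] at hab
        exact hφ.injOn ha hb hab
    · intro e he
      rcases he with rfl | he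
      · rw [Function.update_self]; exact hv
      · have hne : e ≠ g := fun h => hgτ (h ▸ he)
        rw [Function.update_of_ne hne]; exact hφe e he
  · rw [Set.encard_insert_of_notMem hgτ]
    have h1 : τ.encard = (W \ {v}).encard := by
      rw [← hφ.image_eq, hφ.injOn.encard_image]
    rw [h1, Set.encard_sdiff_singleton_add_one (hg.2 v hv)]

lemma Arb.subset_closure {M : Matroid α} {S : Set α} {ends : α → Sym2 V} (hB : Bic M S ends)
    {W : Set V} (hW : W.Finite) {τ : Set α} (hτ : Arb S ends W τ) {g : α}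
    (hg : g ∈ ins S ends W) (hgτ : g ∉ τ) :
    ins S ends W ⊆ M.closure (insert g τ) := by
  obtain ⟨h1, h2⟩ := hτ.indep_insert hB hg hgτ
  have hfin : (insert g τ).Finite := by
    rw [← Set.encard_lt_top_iff, h2]; exact hW.encard_lt_top
  have hb : M.IsBasis (insert g τ) (ins S ends W) := by
    refine h1.isBasis_of_eRk_ge hfin (insert_subset hg hτ.1) ?_ (fun e he => hB.sub he.1)
    rw [h1.eRk_eq_encard, h2]
    exact hB.rk W
  exact hb.subset_closure

lemma Arb.join_aux {S : Set α} {ends : α → Sym2 V} {W₁ W₂ : Set V} {τ₁ τ₂ : Set α}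
    (hd : Disjoint W₁ W₂) (h₁ : Arb S ends W₁ τ₁) (h₂ : Arb S ends W₂ τ₂) {f : α} {a b : V}
    (hf : ends f = s(a, b)) (ha : a ∈ W₁) (hb : b ∈ W₂) :
    ∀ v ∈ W₁, ∃ φ : α → V, BijOn φ (insert f (τ₁ ∪ τ₂)) ((W₁ ∪ W₂) \ {v}) ∧
      ∀ e ∈ insert f (τ₁ ∪ τ₂), φ e ∈ ends e := by
  classical
  intro v hv
  have hdi := ins_disj (S := S) (ends := ends) hd
  have hf1 : f ∉ τ₁ := fun h => by
    have := (h₁.1 h).2 b (by rw [hf]; simp)
    exact Set.disjoint_left.1 hd this hb
  have hf2 : f ∉ τ₂ := fun h => by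
    have := (h₂.1 h).2 a (by rw [hf]; simp)
    exact Set.disjoint_left.1 hd ha this
  have h12 : ∀ e, e ∈ τ₂ → e ∉ τ₁ := fun e h h' => Set.disjoint_left.1 hdi (h₁.1 h') (h₂.1 h)
  obtain ⟨φ₁, hφ₁, hφe₁⟩ := h₁.2.2 v hv
  obtain ⟨φ₂, hφ₂, hφe₂⟩ := h₂.2.2 b hb
  refine ⟨fun e => if e = f then b else if e ∈ τ₁ then φ₁ e else φ₂ e, ⟨?_, ?_, ?_⟩, ?_⟩
  · intro e he
    rcases he with rfl | he | he
    · simp only [if_true]
      refine ⟨Or.inr hb, fun h => Set.disjoint_left.1 hd hv (h ▸ hb)⟩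
    · have hne : e ≠ f := fun h => hf1 (h ▸ he)
      simp only [hne, he, if_true, if_false]
      have := hφ₁.mapsTo he
      exact ⟨Or.inl this.1, this.2⟩
    · have hne : e ≠ f := fun h => hf2 (h ▸ he)
      simp only [hne, h12 e he, if_false]
      have := hφ₂.mapsTo he
      exact ⟨Or.inr this.1, fun h => Set.disjoint_left.1 hd hv (h ▸ this.1)⟩
  · intro x hx y hy hxy
    have key : ∀ e, e ∈ insert f (τ₁ ∪ τ₂) →
        (e = f ∧ (if e = f then b else if e ∈ τ₁ then φ₁ e else φ₂ e) = b) ∨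
        (e ∈ τ₁ ∧ (if e = f then b else if e ∈ τ₁ then φ₁ e else φ₂ e) = φ₁ e) ∨
        (e ∈ τ₂ ∧ (if e = f then b else if e ∈ τ₁ then φ₁ e else φ₂ e) = φ₂ e) := by
      intro e he
      rcases he with rfl | he | he
      · left; simp
      · have hne : e ≠ f := fun h => hf1 (h ▸ he)
        right; left; simp [hne, he]
      · have hne : e ≠ f := fun h => hf2 (h ▸ he)
        right; right; simp [hne, h12 e he, he]
    simp only at hxy
    rcases key x hx with ⟨hx1, hx2⟩ | ⟨hx1, hx2⟩ | ⟨hx1, hx2⟩ <;>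
      rcases key y hy with ⟨hy1, hy2⟩ | ⟨hy1, hy2⟩ | ⟨hy1, hy2⟩ <;>
      rw [hx2, hy2] at hxy
    · rw [hx1, hy1]
    · exact absurd hb (fun h => Set.disjoint_left.1 hd (hφ₁.mapsTo hy1).1 (hxy ▸ h))
    · exact absurd (hxy ▸ hφ₂.mapsTo hy1 : b ∈ W₂ \ {b}) (by simp)
    · exact absurd hb (fun h => Set.disjoint_left.1 hd (hφ₁.mapsTo hx1).1 (hxy ▸ h))
    · exact hφ₁.injOn hx1 hy1 hxy
    · exact absurd (hφ₁.mapsTo hx1).1
        (fun h => Set.disjoint_left.1 hd h (hxy ▸ (hφ₂.mapsTo hy1).1))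
    · exact absurd (hxy ▸ hφ₂.mapsTo hx1 : b ∈ W₂ \ {b}) (by simp)
    · exact absurd (hφ₁.mapsTo hy1).1
        (fun h => Set.disjoint_left.1 hd h (hxy ▸ (hφ₂.mapsTo hx1).1))
    · exact hφ₂.injOn hx1 hy1 hxy
  · intro w hw
    rcases hw.1 with hw1 | hw1
    · obtain ⟨e, he, rfl⟩ := hφ₁.surjOn ⟨hw1, hw.2⟩
      have hne : e ≠ f := fun h => hf1 (h ▸ he)
      exact ⟨e, Or.inr (Or.inl he), by simp [hne, he]⟩
    · by_cases hwb : w = b
      · exact ⟨f, Or.inl rfl, by simp [hwb]⟩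
      · obtain ⟨e, he, rfl⟩ := hφ₂.surjOn ⟨hw1, hwb⟩
        have hne : e ≠ f := fun h => hf2 (h ▸ he)
        exact ⟨e, Or.inr (Or.inr he), by simp [hne, h12 e he]⟩
  · intro e he
    rcases he with rfl | he | he
    · simp [hf]
    · have hne : e ≠ f := fun h => hf1 (h ▸ he)
      simp only [hne, he, if_true, if_false]
      exact hφe₁ e he
    · have hne : e ≠ f := fun h => hf2 (h ▸ he)
      simp only [hne, h12 e he, if_false]
      exact hφe₂ e he

lemma Arb.join {S : Set α} {ends : α → Sym2 V} {W₁ W₂ : Set V} {τ₁ τ₂ : Set α}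
    (hd : Disjoint W₁ W₂) (h₁ : Arb S ends W₁ τ₁) (h₂ : Arb S ends W₂ τ₂) {f : α} (hfS : f ∈ S)
    {a b : V} (hf : ends f = s(a, b)) (ha : a ∈ W₁) (hb : b ∈ W₂) :
    Arb S ends (W₁ ∪ W₂) (insert f (τ₁ ∪ τ₂)) := by
  refine ⟨?_, h₁.2.1.mono subset_union_left, ?_⟩
  · refine insert_subset ⟨hfS, ?_⟩ (union_subset ?_ ?_)
    · intro v hv
      rw [hf] at hv
      rcases Sym2.mem_iff.1 hv with rfl | rfl
      · exact Or.inl ha
      · exact Or.inr hb
    · exact h₁.1.trans (ins_mono subset_union_left)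
    · exact h₂.1.trans (ins_mono subset_union_right)
  · intro v hv
    rcases hv with hv | hv
    · exact Arb.join_aux hd h₁ h₂ hf ha hb v hv
    · have := Arb.join_aux hd.symm h₂ h₁ (f := f) (a := b) (b := a)
        (by rw [hf, Sym2.eq_swap]) hb ha v hv
      rwa [union_comm τ₂ τ₁, union_comm W₂ W₁] at this

/-- Mergeability of the cluster `W` with basis `F` and possible uncovered elements `P`. -/
def Mg (ι : Type*) (M : Matroid α) (S : Set α) (ends : α → Sym2 V) (W : Set V) (F P : Set α) :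
    Prop :=
  F ⊆ ins S ends W ∧ P ⊆ F ∧
  ∀ (R U : ι → Set α), (∀ i, Disjoint (R i) (ins S ends W)) → (∀ i, U i ⊆ P) →
    (∀ i, (U i).Subsingleton) → (∀ i, M.IsBase (R i ∪ (F \ U i))) →
    ∃ (τ : Set α) (ℓ : α), Arb S ends W τ ∧ ℓ ∈ ins S ends W ∧ ℓ ∉ τ ∧
      (∀ i, (U i).Nonempty → M.IsBase (R i ∪ τ)) ∧
      (∀ i, ¬ (U i).Nonempty → M.IsBase (R i ∪ insert ℓ τ))

lemma Mg.base {M : Matroid α} {S : Set α} {ends : α → Sym2 V} {W : Set V} {F : Set α} {e : α}
    (hF : F ⊆ ins S ends W) (he : e ∈ F) (hA : Arb S ends W (F \ {e})) :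
    Mg ι M S ends W F {e} := by
  refine ⟨hF, by simpa using he, ?_⟩
  intro R U _ hUP _ hbase
  refine ⟨F \ {e}, e, hA, hF he, by simp, ?_, ?_⟩
  · intro i hi
    have : U i = {e} := by
      rcases Set.subset_singleton_iff_eq.1 (hUP i) with h | h
      · rw [h] at hi; simp at hi
      · exact h
    have h2 := hbase i
    rwa [this] at h2
  · intro i hi
    have : U i = ∅ := Set.not_nonempty_iff_eq_empty.1 hi
    have h2 := hbase i
    rw [this, sdiff_empty] at h2
    rwa [Set.insert_sdiff_singleton, Set.insert_eq_of_mem he]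

lemma Mg.mono {M : Matroid α} {S : Set α} {ends : α → Sym2 V} {W : Set V} {F P P' : Set α}
    (h : Mg ι M S ends W F P) (hP : P' ⊆ P) : Mg ι M S ends W F P' :=
  ⟨h.1, hP.trans h.2.1, fun R U h1 h2 h3 h4 => h.2.2 R U h1 (fun i => (h2 i).trans hP) h3 h4⟩

lemma Mg.join [Fintype ι] {M : Matroid α} {S : Set α} {ends : α → Sym2 V} (hB : Bic M S ends)
    {W₁ W₂ : Set V} {F₁ F₂ P₁ P₂ : Set α} (hW₁ : W₁.Finite) (hW₂ : W₂.Finite)
    (hd : Disjoint W₁ W₂)
    (h₁ : Mg ι M S ends W₁ F₁ P₁) (h₂ : Mg ι M S ends W₂ F₂ P₂) (Rg : Finset α)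
    (hRg : Fintype.card ι < Rg.card)
    (hR : ∀ f ∈ Rg, f ∈ S ∧ ∃ a ∈ W₁, ∃ b ∈ W₂, ends f = s(a, b)) :
    Mg ι M S ends (W₁ ∪ W₂) (F₁ ∪ F₂) (P₁ ∪ P₂) := by
  classical
  have hdi := ins_disj (S := S) (ends := ends) hd
  refine ⟨union_subset (h₁.1.trans (ins_mono subset_union_left))
    (h₂.1.trans (ins_mono subset_union_right)), union_subset_union h₁.2.1 h₂.2.1, ?_⟩
  intro R U hRd hUP hUs hbase
  have hF12 : Disjoint F₁ F₂ := hdi.mono h₁.1 h₂.1
  have hRd1 : ∀ i, Disjoint (R i) (ins S ends W₁) := fun i =>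
    (hRd i).mono_right (ins_mono subset_union_left)
  have hRd2 : ∀ i, Disjoint (R i) (ins S ends W₂) := fun i =>
    (hRd i).mono_right (ins_mono subset_union_right)
  obtain ⟨τ₁, ℓ₁, hA₁, hℓ₁, hℓτ₁, hu₁, hc₁⟩ := h₁.2.2 (fun i => R i ∪ (F₂ \ U i))
    (fun i => U i ∩ F₁) (by
      intro i
      refine Disjoint.union_left (hRd1 i) ?_
      exact (hdi.symm.mono_left (sdiff_subset.trans h₂.1))) (by
      intro i e he
      rcases hUP i he.1 with h | h
      · exact h
      · exact absurd (h₂.2.1 h) (Set.disjoint_left.1 hF12 he.2))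
    (fun i => (hUs i).anti inter_subset_left) (by
      intro i
      have : R i ∪ (F₂ \ U i) ∪ (F₁ \ (U i ∩ F₁)) = R i ∪ ((F₁ ∪ F₂) \ U i) := by
        ext e
        simp only [mem_union, mem_sdiff, mem_inter_iff]
        tauto
      rw [this]; exact hbase i)
  set T₁ : ι → Set α := fun i => if (U i ∩ F₁).Nonempty then τ₁ else insert ℓ₁ τ₁ with hT₁
  have hT₁s : ∀ i, T₁ i ⊆ ins S ends W₁ := by
    intro i
    simp only [hT₁]
    split_ifs
    · exact hA₁.1
    · exact insert_subset hℓ₁ hA₁.1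
  have hT₁b : ∀ i, M.IsBase (R i ∪ (F₂ \ U i) ∪ T₁ i) := by
    intro i
    simp only [hT₁]
    split_ifs with h
    · exact hu₁ i h
    · exact hc₁ i h
  obtain ⟨τ₂, ℓ₂, hA₂, hℓ₂, hℓτ₂, hu₂, hc₂⟩ := h₂.2.2 (fun i => R i ∪ T₁ i)
    (fun i => U i ∩ F₂) (by
      intro i
      refine Disjoint.union_left (hRd2 i) ?_
      exact (hdi.mono_left (hT₁s i))) (by
      intro i e he
      rcases hUP i he.1 with h | h
      · exact absurd he.2 (Set.disjoint_left.1 hF12 (h₁.2.1 h))
      · exact h)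
    (fun i => (hUs i).anti inter_subset_left) (by
      intro i
      have : R i ∪ T₁ i ∪ (F₂ \ (U i ∩ F₂)) = R i ∪ (F₂ \ U i) ∪ T₁ i := by
        ext e
        simp only [mem_union, mem_sdiff, mem_inter_iff]
        tauto
      rw [this]; exact hT₁b i)
  set T₂ : ι → Set α := fun i => if (U i ∩ F₂).Nonempty then τ₂ else insert ℓ₂ τ₂ with hT₂
  have hT₂s : ∀ i, T₂ i ⊆ ins S ends W₂ := by
    intro i
    simp only [hT₂]
    split_ifs
    · exact hA₂.1
    · exact insert_subset hℓ₂ hA₂.1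
  have hT₂b : ∀ i, M.IsBase (R i ∪ T₁ i ∪ T₂ i) := by
    intro i
    simp only [hT₂]
    split_ifs with h
    · exact hu₂ i h
    · exact hc₂ i h
  -- at most one of the two is uncovered
  have hone : ∀ i, (U i ∩ F₂).Nonempty → ¬ (U i ∩ F₁).Nonempty := by
    rintro i ⟨e, he⟩ ⟨e', he'⟩
    have := hUs i he.1 he'.1
    subst this
    exact Set.disjoint_left.1 hF12 he'.2 he.2
  set d : ι → α := fun i => if (U i ∩ F₂).Nonempty then ℓ₁ else ℓ₂ with hd'
  have hdmem : ∀ i, d i ∈ R i ∪ T₁ i ∪ T₂ i := by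
    intro i
    simp only [hd']
    split_ifs with h
    · left; right; simp only [hT₁, if_neg (hone i h)]; exact mem_insert _ _
    · right; simp only [hT₂, if_neg h]; exact mem_insert _ _
  have hdins : ∀ i, d i ∈ ins S ends (W₁ ∪ W₂) := by
    intro i
    simp only [hd']
    split_ifs with h
    · exact ins_mono subset_union_left hℓ₁
    · exact ins_mono subset_union_right hℓ₂
  have hdR : ∀ i, d i ∉ R i := fun i h => Set.disjoint_left.1 (hRd i) h (hdins i)
  have hℓ₁τ₂ : ℓ₁ ∉ τ₂ := fun h => Set.disjoint_left.1 hdi hℓ₁ (hA₂.1 h)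
  have hℓ₂τ₁ : ℓ₂ ∉ τ₁ := fun h => Set.disjoint_left.1 hdi (hA₁.1 h) hℓ₂
  have hℓ₁₂ : ℓ₁ ≠ ℓ₂ := fun h => Set.disjoint_left.1 hdi hℓ₁ (h ▸ hℓ₂)
  have hτd : ∀ i, τ₁ ∪ τ₂ ⊆ (R i ∪ T₁ i ∪ T₂ i) \ {d i} := by
    intro i e he
    refine ⟨?_, ?_⟩
    · rcases he with he | he
      · left; right; simp only [hT₁]; split_ifs
        · exact he
        · exact Or.inr he
      · right; simp only [hT₂]; split_ifs
        · exact he
        · exact Or.inr he
    · simp only [hd', mem_singleton_iff]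
      split_ifs
      · rintro rfl
        rcases he with he | he
        · exact hℓτ₁ he
        · exact hℓ₁τ₂ he
      · rintro rfl
        rcases he with he | he
        · exact hℓ₂τ₁ he
        · exact hℓτ₂ he
  have hgood : ∃ f ∈ Rg, ∀ i, f ∉ M.closure ((R i ∪ T₁ i ∪ T₂ i) \ {d i}) := by
    by_contra hcon
    push Not at hcon
    have hne : Nonempty ι := by
      obtain ⟨f, hf⟩ := Finset.card_pos.1 (lt_of_le_of_lt (Nat.zero_le _) hRg)
      exact ⟨(hcon f hf).choose⟩
    choose! j hj using hcon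
    have : ∃ x ∈ Rg, ∃ y ∈ Rg, x ≠ y ∧ j x = j y :=
      Finset.exists_ne_map_eq_of_card_lt_of_maps_to (t := Finset.univ)
        (by rwa [Finset.card_univ]) (fun x _ => Finset.mem_univ _)
    obtain ⟨x, hx, y, hy, hxy, hjxy⟩ := this
    obtain ⟨hxS, a, ha, b, hb, hxe⟩ := hR x hx
    have hjoin := Arb.join hd hA₁ hA₂ hxS hxe ha hb
    obtain ⟨hyS, a', ha', b', hb', hye⟩ := hR y hy
    have hyins : y ∈ ins S ends (W₁ ∪ W₂) := by
      refine ⟨hyS, ?_⟩
      intro v hv
      rw [hye] at hv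
      rcases Sym2.mem_iff.1 hv with rfl | rfl
      · exact Or.inl ha'
      · exact Or.inr hb'
    have hyτ : y ∉ insert x (τ₁ ∪ τ₂) := by
      intro h
      rcases h with h | h | h
      · exact hxy h.symm
      · exact Set.disjoint_left.1 hd ((hA₁.1 h).2 b' (by rw [hye]; simp)) hb'
      · exact Set.disjoint_left.1 hd ha' ((hA₂.1 h).2 a' (by rw [hye]; simp))
    have hcl := hjoin.subset_closure hB (hW₁.union hW₂) hyins hyτ
    set i := j x with hi
    have hxi := hj x hx
    have hyi := hj y hy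
    rw [← hi] at hxi
    rw [← hjxy] at hyi
    have hbi := hT₂b i
    have hsub : insert y (insert x (τ₁ ∪ τ₂)) ⊆ M.closure ((R i ∪ T₁ i ∪ T₂ i) \ {d i}) := by
      refine insert_subset hyi (insert_subset hxi ?_)
      exact (hτd i).trans (M.subset_closure _ (sdiff_subset.trans hbi.subset_ground))
    have := M.closure_subset_closure_of_subset_closure hsub
    exact hbi.indep.notMem_closure_sdiff_of_mem (hdmem i) (this (hcl (hdins i)))
  obtain ⟨f, hfR, hf⟩ := hgood
  obtain ⟨hfS, a, ha, b, hb, hfe⟩ := hR f hfR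
  have hf1 : f ∉ ins S ends W₁ := fun h =>
    Set.disjoint_left.1 hd (h.2 b (by rw [hfe]; simp)) hb
  have hf2 : f ∉ ins S ends W₂ := fun h =>
    Set.disjoint_left.1 hd ha (h.2 a (by rw [hfe]; simp))
  have hnew : ∀ i, M.IsBase (insert f ((R i ∪ T₁ i ∪ T₂ i) \ {d i})) := fun i =>
    (hT₂b i).exchange_base_of_notMem_closure (hdmem i) (hf i) (hB.sub hfS)
  refine ⟨insert f (τ₁ ∪ τ₂), ℓ₁, Arb.join hd hA₁ hA₂ hfS hfe ha hb,
    ins_mono subset_union_left hℓ₁, ?_, ?_, ?_⟩
  · rintro (h | h | h)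
    · exact hf1 (h ▸ hℓ₁)
    · exact hℓτ₁ h
    · exact hℓ₁τ₂ h
  · intro i hi
    have hn := hnew i
    have hRℓ₁ : ℓ₁ ∉ R i := fun h =>
      Set.disjoint_left.1 (hRd i) h (ins_mono subset_union_left hℓ₁)
    have hRℓ₂ : ℓ₂ ∉ R i := fun h =>
      Set.disjoint_left.1 (hRd i) h (ins_mono subset_union_right hℓ₂)
    by_cases h2 : (U i ∩ F₂).Nonempty
    · have h1 := hone i h2
      simp only [hT₁, hT₂, hd', if_pos h2, if_neg h1] at hn
      have : insert f ((R i ∪ insert ℓ₁ τ₁ ∪ τ₂) \ {ℓ₁}) = R i ∪ insert f (τ₁ ∪ τ₂) := by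
        ext e
        simp only [mem_insert_iff, mem_sdiff, mem_union, mem_singleton_iff]
        constructor
        · rintro (h | ⟨((h | h | h) | h), h'⟩) <;> tauto
        · rintro (h | h | h | h)
          · right; refine ⟨Or.inl (Or.inl h), ?_⟩; rintro rfl; exact hRℓ₁ h
          · left; exact h
          · right; refine ⟨Or.inl (Or.inr (Or.inr h)), ?_⟩; rintro rfl; exact hℓτ₁ h
          · right; refine ⟨Or.inr h, ?_⟩; rintro rfl; exact hℓ₁τ₂ h
      rwa [this] at hn
    · have h1 : (U i ∩ F₁).Nonempty := by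
        obtain ⟨e, he⟩ := hi
        rcases (union_subset_union h₁.2.1 h₂.2.1) (hUP i he) with h | h
        · exact ⟨e, he, h⟩
        · exact absurd ⟨e, he, h⟩ h2
      simp only [hT₁, hT₂, hd', if_neg h2, if_pos h1] at hn
      have : insert f ((R i ∪ τ₁ ∪ insert ℓ₂ τ₂) \ {ℓ₂}) = R i ∪ insert f (τ₁ ∪ τ₂) := by
        ext e
        simp only [mem_insert_iff, mem_sdiff, mem_union, mem_singleton_iff]
        constructor
        · rintro (h | ⟨((h | h) | h | h), h'⟩) <;> tauto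
        · rintro (h | h | h | h)
          · right; refine ⟨Or.inl (Or.inl h), ?_⟩; rintro rfl; exact hRℓ₂ h
          · left; exact h
          · right; refine ⟨Or.inl (Or.inr h), ?_⟩; rintro rfl; exact hℓ₂τ₁ h
          · right; refine ⟨Or.inr (Or.inr h), ?_⟩; rintro rfl; exact hℓτ₂ h
      rwa [this] at hn
  · intro i hi
    have hn := hnew i
    have hRℓ₂ : ℓ₂ ∉ R i := fun h =>
      Set.disjoint_left.1 (hRd i) h (ins_mono subset_union_right hℓ₂)
    have h1 : ¬ (U i ∩ F₁).Nonempty := fun h => hi (h.mono inter_subset_left)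
    have h2 : ¬ (U i ∩ F₂).Nonempty := fun h => hi (h.mono inter_subset_left)
    simp only [hT₁, hT₂, hd', if_neg h2, if_neg h1] at hn
    have : insert f ((R i ∪ insert ℓ₁ τ₁ ∪ insert ℓ₂ τ₂) \ {ℓ₂}) =
        R i ∪ insert ℓ₁ (insert f (τ₁ ∪ τ₂)) := by
      ext e
      simp only [mem_insert_iff, mem_sdiff, mem_union, mem_singleton_iff]
      constructor
      · rintro (h | ⟨((h | h | h) | h | h), h'⟩) <;> tauto
      · rintro (h | h | h | h | h)
        · right; refine ⟨Or.inl (Or.inl h), ?_⟩; rintro rfl; exact hRℓ₂ h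
        · right; refine ⟨Or.inl (Or.inr (Or.inl h)), ?_⟩; rw [h]; exact hℓ₁₂
        · left; exact h
        · right; refine ⟨Or.inl (Or.inr (Or.inr h)), ?_⟩; rintro rfl; exact hℓ₂τ₁ h
        · right; refine ⟨Or.inr (Or.inr h), ?_⟩; rintro rfl; exact hℓτ₂ h
    rwa [this] at hn

/-- Merging all the clusters of a disjoint family. -/
lemma merge_all {κ : Type*} [Nonempty α] {M : Matroid α} {S : Set α} {ends : α → Sym2 V}
    (W : κ → Set V) (F P : κ → Set α) (U : ι → κ → Set α) (𝒰 : Finset κ) :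
    (∀ u ∈ 𝒰, Mg ι M S ends (W u) (F u) (P u)) →
    (∀ u ∈ 𝒰, ∀ u' ∈ 𝒰, u ≠ u' → Disjoint (W u) (W u')) →
    (∀ i, ∀ u ∈ 𝒰, U i u ⊆ P u) → (∀ i, ∀ u ∈ 𝒰, (U i u).Subsingleton) →
    ∀ R : ι → Set α, (∀ i, ∀ u ∈ 𝒰, Disjoint (R i) (ins S ends (W u))) →
    (∀ i, M.IsBase (R i ∪ ⋃ u ∈ 𝒰, (F u \ U i u))) →
    ∃ (τ : κ → Set α) (ℓ : κ → α), (∀ u ∈ 𝒰, τ u ⊆ ins S ends (W u) ∧
      ℓ u ∈ ins S ends (W u) ∧ ℓ u ∉ τ u) ∧
      ∀ T : ι → κ → Set α, (∀ i, ∀ u ∈ 𝒰, ((U i u).Nonempty → T i u = τ u) ∧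
        (¬ (U i u).Nonempty → T i u = insert (ℓ u) (τ u))) →
      ∀ i, M.IsBase (R i ∪ ⋃ u ∈ 𝒰, T i u) := by
  classical
  induction 𝒰 using Finset.induction_on with
  | empty =>
    intro _ _ _ _ R _ hb
    obtain ⟨a⟩ := (inferInstance : Nonempty α)
    refine ⟨fun _ => ∅, fun _ => a, by simp, ?_⟩
    intro T _ i
    simpa using hb i
  | insert u 𝒰 hu ih =>
    intro hMg hdis hUP hUs R hR hb
    obtain ⟨τ, ℓ, h1, h2⟩ := ih (fun v hv => hMg v (Finset.mem_insert_of_mem hv))
      (fun v hv v' hv' => hdis v (Finset.mem_insert_of_mem hv) v' (Finset.mem_insert_of_mem hv'))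
      (fun i v hv => hUP i v (Finset.mem_insert_of_mem hv))
      (fun i v hv => hUs i v (Finset.mem_insert_of_mem hv))
      (fun i => R i ∪ (F u \ U i u)) (by
        intro i v hv
        refine Disjoint.union_left (hR i v (Finset.mem_insert_of_mem hv)) ?_
        have hne : u ≠ v := fun h => hu (h ▸ hv)
        have := ins_disj (S := S) (ends := ends)
          (hdis u (Finset.mem_insert_self _ _) v (Finset.mem_insert_of_mem hv) hne)
        exact this.mono_left (sdiff_subset.trans (hMg u (Finset.mem_insert_self _ _)).1)) (by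
        intro i
        have := hb i
        rw [Finset.set_biUnion_insert, ← union_assoc] at this
        exact this)
    set T : ι → κ → Set α := fun i v => if (U i v).Nonempty then τ v else insert (ℓ v) (τ v)
      with hT
    have hTi : ∀ i, ∀ v ∈ 𝒰, T i v ⊆ ins S ends (W v) := by
      intro i v hv
      simp only [hT]
      split_ifs
      · exact (h1 v hv).1
      · exact insert_subset (h1 v hv).2.1 (h1 v hv).1
    have h3 := h2 T (by
      intro i v hv
      refine ⟨fun h => by simp only [hT, if_pos h], fun h => by simp only [hT, if_neg h]⟩)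
    obtain ⟨τu, ℓu, hA, hℓ, hℓτ, hun, hco⟩ := (hMg u (Finset.mem_insert_self _ _)).2.2
      (fun i => R i ∪ ⋃ v ∈ 𝒰, T i v) (fun i => U i u) (by
        intro i
        refine Disjoint.union_left (hR i u (Finset.mem_insert_self _ _)) ?_
        rw [Set.disjoint_iUnion₂_left]
        intro v hv
        have hne : v ≠ u := fun h => hu (h ▸ hv)
        have := ins_disj (S := S) (ends := ends)
          (hdis v (Finset.mem_insert_of_mem hv) u (Finset.mem_insert_self _ _) hne)
        exact this.mono_left (hTi i v hv))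
      (fun i => hUP i u (Finset.mem_insert_self _ _))
      (fun i => hUs i u (Finset.mem_insert_self _ _)) (by
        intro i
        have := h3 i
        rw [union_right_comm] at this
        exact this)
    refine ⟨Function.update τ u τu, Function.update ℓ u ℓu, ?_, ?_⟩
    · intro v hv
      rcases Finset.mem_insert.1 hv with rfl | hv
      · simp only [Function.update_self]
        exact ⟨hA.1, hℓ, hℓτ⟩
      · have hne : v ≠ u := fun h => hu (h ▸ hv)
        simp only [Function.update_of_ne hne]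
        exact h1 v hv
    · intro T' hT' i
      rw [Finset.set_biUnion_insert]
      have e1 : ⋃ v ∈ 𝒰, T' i v = ⋃ v ∈ 𝒰, T i v := by
        refine iUnion₂_congr ?_
        intro v hv
        have hne : v ≠ u := fun h => hu (h ▸ hv)
        have h4 := hT' i v (Finset.mem_insert_of_mem hv)
        simp only [Function.update_of_ne hne] at h4
        simp only [hT]
        split_ifs with h
        · exact h4.1 h
        · exact h4.2 h
      rw [e1]
      have h4 := hT' i u (Finset.mem_insert_self _ _)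
      simp only [Function.update_self] at h4
      by_cases h : (U i u).Nonempty
      · have h5 := hun i h
        rw [h4.1 h]
        rwa [union_right_comm, union_assoc] at h5
      · have h5 := hco i h
        rw [h4.2 h]
        rwa [union_right_comm, union_assoc] at h5

end BIC
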