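import Pool.Agent.Helper34.BIC.Cyc
import Pool.Agent.Helper34.BIC.Merge

open Set
open scoped Matroid

namespace BIC

variable {α V : Type*}

lemma BicIndep.ncard_le [Finite V] {F : Set (Sym2 V)} (hF' : BicIndep F)
    (hnd : ∀ e ∈ F, ¬ e.IsDiag) {W : Set V} (hW : ∀ e ∈ F, ∀ v ∈ e, v ∈ W) :
    F.ncard ≤ W.ncard := by
  classical
  have hF := hF'.cnt hnd
  have := Fintype.ofFinite V
  have := Fintype.ofFinite (SimpleGraph.fromEdgeSet F).ConnectedComponent
  have hFf : F.Finite := Set.toFinite _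
  have hWf : W.Finite := Set.toFinite _
  set H := SimpleGraph.fromEdgeSet F with hH
  set comp : Sym2 V → H.ConnectedComponent := fun e => H.connectedComponentMk e.out.1 with hcomp
  have hadj : ∀ a b, s(a, b) ∈ F → H.Adj a b := by
    intro a b hab
    rw [hH, SimpleGraph.fromEdgeSet_adj]
    refine ⟨hab, ?_⟩
    rintro rfl
    exact hnd _ hab (by simp)
  have hsupp : ∀ e ∈ F, ∀ v ∈ e, v ∈ (comp e).supp := by
    intro e he v hv
    rw [SimpleGraph.ConnectedComponent.mem_supp_iff, hcomp]
    rw [SimpleGraph.ConnectedComponent.eq]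
    have h1 : s(e.out.1, e.out.2) = e := Quot.out_eq e
    rw [← h1] at hv
    rcases Sym2.mem_iff.1 hv with h2 | h2
    · rw [h2]
    · rw [h2]
      exact (hadj _ _ (by rw [h1]; exact he)).symm.reachable
  have e1 : F.ncard = ∑ c : H.ConnectedComponent, (hFf.toFinset.filter (fun e => comp e = c)).card := by
    rw [Set.ncard_eq_toFinset_card _ hFf]
    exact Finset.card_eq_sum_card_fiberwise (fun x _ => Finset.mem_coe.2 (Finset.mem_univ _))
  have e2 : W.ncard = ∑ c : H.ConnectedComponent,
      (hWf.toFinset.filter (fun v => H.connectedComponentMk v = c)).card := by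
    rw [Set.ncard_eq_toFinset_card _ hWf]
    exact Finset.card_eq_sum_card_fiberwise (fun x _ => Finset.mem_coe.2 (Finset.mem_univ _))
  rw [e1, e2]
  refine Finset.sum_le_sum ?_
  intro c _
  rcases (hFf.toFinset.filter (fun e => comp e = c)).eq_empty_or_nonempty with h0 | ⟨e, he⟩
  · rw [h0]; simp
  · have he1 := (Finset.mem_filter.1 he)
    have heF : e ∈ F := (Set.Finite.mem_toFinset _).1 he1.1
    have hsub : c.supp ⊆ W := by
      intro v hv
      rw [SimpleGraph.ConnectedComponent.mem_supp_iff] at hv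
      have h2 : e.out.1 ∈ e := by
        have h1 : s(e.out.1, e.out.2) = e := Quot.out_eq e
        have h2 : e.out.1 ∈ s(e.out.1, e.out.2) := by simp
        rwa [h1] at h2
      by_cases hve : v = e.out.1
      · rw [hve]; exact hW e heF _ h2
      · have hr : H.Reachable v e.out.1 := by
          rw [← SimpleGraph.ConnectedComponent.eq, hv, ← he1.2]
        obtain ⟨w⟩ := hr
        cases w with
        | nil => exact absurd rfl hve
        | cons hvw _ =>
          rw [hH, SimpleGraph.fromEdgeSet_adj] at hvw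
          exact hW _ hvw.1 v (by simp)
    have h3 : ((hFf.toFinset.filter (fun e => comp e = c) : Finset (Sym2 V)) : Set (Sym2 V)) ⊆
        {e | e ∈ F ∧ ∀ v ∈ e, v ∈ c.supp} := by
      intro x hx
      have hx1 := Finset.mem_filter.1 (Finset.mem_coe.1 hx)
      have hxF : x ∈ F := (Set.Finite.mem_toFinset _).1 hx1.1
      refine ⟨hxF, fun v hv => ?_⟩
      rw [← hx1.2]
      exact hsupp x hxF v hv
    have h4 : c.supp ⊆ ((hWf.toFinset.filter (fun v => H.connectedComponentMk v = c) : Finset V) :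
        Set V) := by
      intro v hv
      refine Finset.mem_coe.2 (Finset.mem_filter.2 ⟨(Set.Finite.mem_toFinset _).2 (hsub hv), ?_⟩)
      exact (SimpleGraph.ConnectedComponent.mem_supp_iff _ _).1 hv
    have h5 := Set.ncard_le_ncard h3 (Set.toFinite _)
    have h6 := Set.ncard_le_ncard h4 (Finset.finite_toSet _)
    rw [Set.ncard_coe_finset] at h5 h6
    exact h5.trans ((hF c).trans h6)

/-- From a concrete bicircular restriction to the abstract structure. -/
lemma exists_bic [Finite V] [Nonempty V] {M : Matroid α} {S : Set α} {G : SimpleGraph V} (hS : S ⊆ M.E)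
    (h : IsBicircular (M ↾ S) G) : ∃ (φ : Sym2 V → α) (ends : α → Sym2 V),
      (∀ x ∈ G.edgeSet, φ x ∈ S ∧ ends (φ x) = x) ∧ Bic M S ends := by
  classical
  obtain ⟨φ, hφ, hE, hI⟩ := h
  rw [Matroid.restrict_ground_eq] at hE
  obtain ⟨v₀⟩ := (inferInstance : Nonempty V)
  set ends : α → Sym2 V := fun a => if h : ∃ x ∈ G.edgeSet, φ x = a then h.choose else s(v₀, v₀)
    with hends
  have hee : ∀ x ∈ G.edgeSet, ends (φ x) = x := by
    intro x hx
    have hx' : ∃ y ∈ G.edgeSet, φ y = φ x := ⟨x, hx, rfl⟩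
    simp only [hends, dif_pos hx']
    exact hφ hx'.choose_spec.1 hx hx'.choose_spec.2
  have hS' : ∀ a ∈ S, ends a ∈ G.edgeSet ∧ φ (ends a) = a := by
    intro a ha
    rw [hE] at ha
    obtain ⟨x, hx, rfl⟩ := ha
    rw [hee x hx]
    exact ⟨hx, rfl⟩
  have himg : ∀ F ⊆ S, φ '' (ends '' F) = F := by
    intro F hF
    rw [image_image]
    ext a
    constructor
    · rintro ⟨b, hb, rfl⟩
      simp only
      rw [(hS' b (hF hb)).2]; exact hb
    · intro ha
      exact ⟨a, ha, (hS' a (hF ha)).2⟩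
  have hsub : ∀ F ⊆ S, ends '' F ⊆ G.edgeSet := by
    rintro F hF _ ⟨a, ha, rfl⟩
    exact (hS' a (hF ha)).1
  refine ⟨φ, ends, fun x hx => ⟨by rw [hE]; exact ⟨x, hx, rfl⟩, hee x hx⟩, hS, ?_, ?_⟩
  · intro F ψ hFS hψ hψe
    have h1 : BicIndep (ends '' F) := by
      refine BicIndep.of_inj (fun x => ψ (φ x)) ?_ ?_
      · rintro _ ⟨a, ha, rfl⟩ _ ⟨b, hb, rfl⟩ hab
        simp only at hab
        rw [(hS' a (hFS ha)).2, (hS' b (hFS hb)).2] at hab
        rw [hψ ha hb hab]
      · rintro _ ⟨a, ha, rfl⟩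
        rw [(hS' a (hFS ha)).2]
        exact hψe a ha
    have h2 := (hI _ (hsub F hFS)).2 h1
    rw [himg F hFS] at h2
    exact h2.of_restrict
  · intro W
    rw [Matroid.eRk_le_iff]
    intro I hIW hI'
    have hIS : I ⊆ S := fun a ha => (hIW ha).1
    have h1 : (M ↾ S).Indep (φ '' (ends '' I)) := by
      rw [himg I hIS, Matroid.restrict_indep_iff]
      exact ⟨hI', hIS⟩
    have h2 := (hI _ (hsub I hIS)).1 h1
    have h3 := h2.ncard_le (W := W) (by
      intro e he hd
      exact G.not_isDiag_of_mem_edgeSet (hsub I hIS he) hd) (by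
      rintro _ ⟨a, ha, rfl⟩ v hv
      exact (hIW ha).2 v hv)
    have hinj : InjOn ends I := by
      intro a ha b hb hab
      rw [← (hS' a (hIS ha)).2, ← (hS' b (hIS hb)).2, hab]
    have hIf : I.Finite := Set.Finite.of_finite_image (Set.toFinite (ends '' I)) hinj
    rw [hinj.ncard_image] at h3
    rw [← hIf.cast_ncard_eq, ← (Set.toFinite W).cast_ncard_eq]
    exact_mod_cast h3

end BIC
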