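import Pool.Agent.Helper34.BIC.Link

open Set
open scoped Matroid

namespace BIC

variable {α : Type*}

/-- `M` has a `U_{k,2k}`-minor. -/
def HasUniformMinor (M : Matroid α) (k : ℕ) : Prop :=
  ∃ N : Matroid α, N ≤m M ∧ N.E.ncard = 2 * k ∧ ∀ B, N.IsBase B ↔ B ⊆ N.E ∧ B.ncard = k

lemma uniform_minor {M : Matroid α} [M.Finite] (k : ℕ) (C : Set α) (a b : ℕ → α)
    (ha : InjOn a {i | i < k}) (hb : InjOn b {i | i < k})
    (hab : ∀ i < k, ∀ j < k, a i ≠ b j) (haC : ∀ i < k, a i ∉ C) (hbC : ∀ i < k, b i ∉ C)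
    (hbase : ∀ I B : Finset ℕ, (∀ i ∈ I, i < k) → (∀ i ∈ B, i < k) → I.card + B.card = k →
      M.IsBase (C ∪ (a '' (I : Set ℕ) ∪ b '' (B : Set ℕ)))) : HasUniformMinor M k := by
  classical
  set K : Set ℕ := {i | i < k} with hK
  have hKc : K.ncard = k := by
    have : K = (Finset.range k : Set ℕ) := by
      ext i; simp [hK]
    rw [this, Set.ncard_coe_finset, Finset.card_range]
  have hKf : K.Finite := Set.finite_lt_nat k
  set Z : Set α := a '' K ∪ b '' K with hZ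
  have hZf : Z.Finite := (hKf.image _).union (hKf.image _)
  have hab' : Disjoint (a '' K) (b '' K) := by
    rw [Set.disjoint_left]
    rintro _ ⟨i, hi, rfl⟩ ⟨j, hj, hij⟩
    exact hab i hi j hj hij.symm
  have hZc : Z.ncard = 2 * k := by
    rw [hZ, Set.ncard_union_eq hab' (hKf.image _) (hKf.image _), ha.ncard_image,
      hb.ncard_image, hKc]
    omega
  have hZC : Disjoint Z C := by
    rw [Set.disjoint_left]
    rintro _ (⟨i, hi, rfl⟩ | ⟨i, hi, rfl⟩)
    · exact haC i hi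
    · exact hbC i hi
  -- every k-subset is a base
  have hsub : ∀ B : Set α, B ⊆ Z → B.ncard = k → M.IsBase (B ∪ C) := by
    intro B hBZ hBc
    have hI : {i | i ∈ K ∧ a i ∈ B}.Finite := hKf.subset fun i hi => hi.1
    have hJ : {i | i ∈ K ∧ b i ∈ B}.Finite := hKf.subset fun i hi => hi.1
    have hBeq : B = a '' {i | i ∈ K ∧ a i ∈ B} ∪ b '' {i | i ∈ K ∧ b i ∈ B} := by
      apply Subset.antisymm
      · intro z hz
        rcases hBZ hz with ⟨i, hi, rfl⟩ | ⟨i, hi, rfl⟩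
        · exact Or.inl ⟨i, ⟨hi, hz⟩, rfl⟩
        · exact Or.inr ⟨i, ⟨hi, hz⟩, rfl⟩
      · rintro _ (⟨i, hi, rfl⟩ | ⟨i, hi, rfl⟩)
        · exact hi.2
        · exact hi.2
    have hcard : {i | i ∈ K ∧ a i ∈ B}.ncard + {i | i ∈ K ∧ b i ∈ B}.ncard = k := by
      have h1 : B.ncard = (a '' {i | i ∈ K ∧ a i ∈ B} ∪ b '' {i | i ∈ K ∧ b i ∈ B}).ncard :=
        congrArg Set.ncard hBeq
      rw [Set.ncard_union_eq (hab'.mono (image_mono fun i hi => hi.1)
        (image_mono fun i hi => hi.1)) (hI.image _) (hJ.image _),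
        (ha.mono fun i hi => hi.1).ncard_image, (hb.mono fun i hi => hi.1).ncard_image, hBc] at h1
      exact h1.symm
    have := hbase hI.toFinset hJ.toFinset (fun i hi => ((Set.Finite.mem_toFinset hI).1 hi).1)
      (fun i hi => ((Set.Finite.mem_toFinset hJ).1 hi).1) (by
        rw [← Set.ncard_eq_toFinset_card _ hI, ← Set.ncard_eq_toFinset_card _ hJ]
        exact hcard)
    rw [Set.Finite.coe_toFinset, Set.Finite.coe_toFinset, ← hBeq, union_comm] at this
    exact this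
  -- one base
  obtain ⟨B₀, hB₀Z, hB₀c⟩ : ∃ B ⊆ Z, B.ncard = k := by
    refine ⟨a '' K, subset_union_left, ?_⟩
    rw [ha.ncard_image, hKc]
  have hb0 := hsub B₀ hB₀Z hB₀c
  have hCi : M.Indep C := hb0.indep.subset subset_union_right
  have hbaseC : ∀ B, (M ／ C).IsBase B ↔ M.IsBase (B ∪ C) ∧ Disjoint B C := fun B =>
    hCi.contract_isBase_iff
  have hbC0 : (M ／ C).IsBase B₀ := (hbaseC _).2 ⟨hb0, hZC.mono_left hB₀Z⟩
  have hZE : Z ⊆ (M ／ C).E := by
    rw [Matroid.contract_ground]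
    refine subset_sdiff.2 ⟨?_, hZC⟩
    rintro _ (⟨i, hi, rfl⟩ | ⟨i, hi, rfl⟩)
    · have h2 := hsub (a '' K) subset_union_left (by rw [ha.ncard_image, hKc])
      exact h2.subset_ground (Or.inl ⟨i, hi, rfl⟩)
    · have h2 := hsub (b '' K) subset_union_right (by rw [hb.ncard_image, hKc])
      exact h2.subset_ground (Or.inl ⟨i, hi, rfl⟩)
  have hspan : (M ／ C).Spanning Z := hbC0.spanning_of_superset hB₀Z hZE
  refine ⟨(M ／ C) ↾ Z, ?_, hZc, ?_⟩
  · rw [← Matroid.delete_compl hZE]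
    exact Matroid.contract_delete_isMinor _ _ _
  · intro B
    rw [hspan.isBase_restrict_iff, hbaseC]
    constructor
    · rintro ⟨⟨h1, h2⟩, h3⟩
      refine ⟨h3, ?_⟩
      have h4 := h1.ncard_eq_ncard_of_isBase hb0
      have hCf : C.Finite := M.ground_finite.subset hCi.subset_ground
      rw [Set.ncard_union_eq h2 (hZf.subset h3) hCf,
        Set.ncard_union_eq (hZC.mono_left hB₀Z) (hZf.subset hB₀Z) hCf] at h4
      omega
    · rintro ⟨h1, h2⟩
      exact ⟨⟨hsub B h1 h2, hZC.mono_left h1⟩, h1⟩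

end BIC
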