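import Pool.Agent.Helper34.BIC.Link

open Set
open scoped Matroid

namespace BIC

variable {α : Type*}

/-- `κ_M(S,T) ≥ n`. -/
def KGe (M : Matroid α) (S T : Set α) (n : ℕ) : Prop :=
  ∀ X : Set α, S ⊆ X → X ⊆ M.E \ T → n + rk M M.E ≤ rk M X + rk M (M.E \ X)

lemma contract_restrict {M : Matroid α} {T : Set α} {e : α} (he : e ∈ M.E)
    (heT : e ∉ M.closure T) (hT : T ⊆ M.E) : (M ／ {e}) ↾ T = M ↾ T := by
  have hne : M.IsNonloop e := by
    refine ⟨?_, he⟩
    intro hl
    exact heT (M.closure_subset_closure (empty_subset T) (show e ∈ M.closure ∅ from hl))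
  have heT' : e ∉ T := fun h => heT (M.subset_closure T hT h)
  refine Matroid.ext_indep rfl ?_
  intro I hI
  have hIT : I ⊆ T := hI
  rw [Matroid.restrict_indep_iff, Matroid.restrict_indep_iff, hne.contractElem_indep_iff]
  constructor
  · rintro ⟨⟨_, h1⟩, h2⟩
    exact ⟨h1.subset (subset_insert _ _), h2⟩
  · rintro ⟨h1, h2⟩
    refine ⟨⟨fun h => heT' (h2 h), ?_⟩, h2⟩
    have heI : e ∉ M.closure I := fun h => heT (M.closure_subset_closure h2 h)
    exact (h1.notMem_closure_iff he).1 heI |>.1

lemma delete_restrict {M : Matroid α} {S : Set α} {e : α} (heS : e ∉ S) (hS : S ⊆ M.E) :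
    (M ＼ {e}) ↾ S = M ↾ S := by
  rw [Matroid.delete_eq_restrict, Matroid.restrict_restrict_eq]
  intro x hx
  exact ⟨hS hx, fun h => heS (h ▸ hx)⟩

lemma rk_delete {M : Matroid α} {X D : Set α} (hX : X ⊆ M.E \ D) : rk (M ＼ D) X = rk M X := by
  unfold rk
  rw [Matroid.delete_eq_restrict, Matroid.restrict_eRk_eq M hX]

lemma rk_contract {M : Matroid α} [M.Finite] {X : Set α} {e : α} (he : M.IsNonloop e)
    (hX : X ⊆ M.E \ {e}) : rk (M ／ {e}) X + 1 = rk M (insert e X) := by
  obtain ⟨J, hJ⟩ := (M ／ {e}).exists_isBasis X hX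
  have h1 := he.indep.union_isBasis_union_of_contract_isBasis hJ
  have h2 : rk (M ／ {e}) X = J.ncard := by
    unfold rk
    rw [← hJ.encard_eq_eRk]
    rfl
  have h3 : rk M (insert e X) = (J ∪ {e}).ncard := by
    unfold rk
    rw [show insert e X = X ∪ {e} by rw [union_comm]; rfl, ← h1.encard_eq_eRk]
    rfl
  have heJ : e ∉ J := fun h => (hX (hJ.subset h)).2 rfl
  have hJf : J.Finite := M.ground_finite.subset (hJ.subset.trans (hX.trans sdiff_subset))
  rw [h2, h3, union_comm, singleton_union, Set.ncard_insert_of_notMem heJ hJf]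

lemma rk_dual {M : Matroid α} [M.Finite] {X : Set α} (hX : X ⊆ M.E) :
    rk M✶ X + rk M M.E = rk M (M.E \ X) + X.ncard := by
  have h := M.eRk_dual_add_eRank X hX
  rw [← M.eRk_ground, ← cast_rk, ← cast_rk, ← cast_rk,
    ← (M.ground_finite.subset hX).cast_ncard_eq] at h
  exact_mod_cast h

lemma KGe.dual {M : Matroid α} [M.Finite] {S T : Set α} {n : ℕ} (h : KGe M S T n)
    (hS : S ⊆ M.E) : KGe M✶ T S n := by
  intro X hTX hXS
  rw [Matroid.dual_ground] at hXS ⊢
  have hXE : X ⊆ M.E := hXS.trans sdiff_subset
  have h1 := rk_dual hXE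
  have h2 := rk_dual (M := M) (X := M.E \ X) sdiff_subset
  have h3 := rk_dual (M := M) (X := M.E) (subset_refl _)
  have h4 := h (M.E \ X) (by
    intro s hs
    exact ⟨hS hs, fun hx => (hXS hx).2 hs⟩) (by
    intro s hs
    exact ⟨hs.1, fun ht => hs.2 (hTX ht)⟩)
  have h5 := Set.ncard_sdiff_add_ncard_of_subset hXE M.ground_finite
  rw [sdiff_sdiff_cancel_left hXE] at h2 h4
  have h6 : rk M (M.E \ M.E) = 0 := by
    rw [sdiff_self]
    have : rk M (∅ : Set α) ≤ (∅ : Set α).ncard := rk_le_ncard M finite_empty
    simpa using this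
  omega

theorem tutte {S T : Set α} (hST : Disjoint S T) {n : ℕ} :
    ∀ (d : ℕ) (M : Matroid α) [M.Finite], S ⊆ M.E → T ⊆ M.E → (M.E \ (S ∪ T)).ncard = d →
    KGe M S T n → ∃ M' : Matroid α, M' ≤m M ∧ M'.E = S ∪ T ∧ M' ↾ S = M ↾ S ∧
      M'✶ ↾ T = M✶ ↾ T ∧ KGe M' S T n := by
  intro d
  induction d with
  | zero =>
    intro M _ hS hT hd hK
    refine ⟨M, Matroid.IsMinor.refl, ?_, rfl, rfl, hK⟩
    have hf : (M.E \ (S ∪ T)).Finite := M.ground_finite.subset sdiff_subset
    rw [Set.ncard_eq_zero hf, sdiff_eq_empty] at hd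
    exact Subset.antisymm hd (union_subset hS hT)
  | succ d ih =>
    intro M _ hS hT hd hK
    have hne : (M.E \ (S ∪ T)).Nonempty := by
      rw [← Set.ncard_pos (M.ground_finite.subset sdiff_subset)]
      omega
    obtain ⟨e, heE, heST⟩ := hne
    have heS : e ∉ S := fun h => heST (Or.inl h)
    have heT : e ∉ T := fun h => heST (Or.inr h)
    have hS' : S ⊆ M.E \ {e} := fun s hs => ⟨hS hs, fun h => heS (h ▸ hs)⟩
    have hT' : T ⊆ M.E \ {e} := fun s hs => ⟨hT hs, fun h => heT (h ▸ hs)⟩
    have hcount : ((M.E \ {e}) \ (S ∪ T)).ncard = d := by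
      have : (M.E \ {e}) \ (S ∪ T) = (M.E \ (S ∪ T)) \ {e} := by
        ext x; simp only [mem_sdiff]; tauto
      rw [this, Set.ncard_sdiff_singleton_of_mem (show e ∈ M.E \ (S ∪ T) from ⟨heE, heST⟩), hd]
      omega
    -- deletion step
    have hdel : e ∉ M✶.closure T → KGe (M ＼ {e}) S T n → ∃ M' : Matroid α, M' ≤m M ∧
        M'.E = S ∪ T ∧ M' ↾ S = M ↾ S ∧ M'✶ ↾ T = M✶ ↾ T ∧ KGe M' S T n := by
      intro hcl hK'
      have : (M ＼ {e}).Finite := ⟨M.ground_finite.subset sdiff_subset⟩
      obtain ⟨M', h1, h2, h3, h4, h5⟩ := ih (M ＼ {e}) hS' hT' hcount hK'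
      refine ⟨M', h1.trans ?_, h2, h3.trans (delete_restrict heS hS), h4.trans ?_, h5⟩
      · have := Matroid.contract_delete_isMinor M ∅ {e}
        rwa [Matroid.contract_empty] at this
      · rw [Matroid.dual_delete]
        exact contract_restrict heE hcl hT
    have hcon : e ∉ M.closure S → KGe (M ／ {e}) S T n → ∃ M' : Matroid α, M' ≤m M ∧
        M'.E = S ∪ T ∧ M' ↾ S = M ↾ S ∧ M'✶ ↾ T = M✶ ↾ T ∧ KGe M' S T n := by
      intro hcl hK'
      have : (M ／ {e}).Finite := ⟨M.ground_finite.subset sdiff_subset⟩
      obtain ⟨M', h1, h2, h3, h4, h5⟩ := ih (M ／ {e}) hS' hT' hcount hK'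
      refine ⟨M', h1.trans ?_, h2, h3.trans (contract_restrict heE hcl hS), h4.trans ?_, h5⟩
      · have := Matroid.contract_delete_isMinor M {e} ∅
        rwa [Matroid.delete_empty] at this
      · rw [Matroid.dual_contract]
        exact delete_restrict heT hT
    -- generic fact: e ∈ cl(S) then deletion keeps κ
    have key : ∀ (M : Matroid α) [M.Finite] (S T : Set α), S ⊆ M.E → e ∈ M.E → e ∉ T →
        e ∈ M.closure S → KGe M S T n → KGe (M ＼ {e}) S T n := by
      intro M _ S T hS heE heT hcl hK X hSX hXT
      rw [Matroid.delete_ground] at hXT ⊢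
      have hXE : X ⊆ M.E \ {e} := hXT.trans sdiff_subset
      rw [rk_delete (subset_refl _), rk_delete hXE, rk_delete sdiff_subset]
      have h1 := hK (insert e X) (hSX.trans (subset_insert _ _)) (by
        refine insert_subset ⟨heE, heT⟩ ?_
        intro x hx
        exact ⟨(hXE hx).1, (hXT hx).2⟩)
      have h2 : rk M (insert e X) = rk M X := by
        have : e ∈ M.closure X := M.closure_subset_closure hSX hcl
        rw [← rk_closure, Matroid.closure_insert_eq_of_mem_closure this, rk_closure]
      have h3 : M.E \ insert e X = (M.E \ {e}) \ X := by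
        ext x; simp only [mem_sdiff, mem_insert_iff, mem_singleton_iff]; tauto
      rw [h2, h3] at h1
      have h4 := rk_mono M (show M.E \ {e} ⊆ M.E from sdiff_subset)
      omega
    by_cases c1 : e ∈ M.closure S
    · -- delete
      have hcl : e ∉ M✶.closure T := by
        intro hcl
        have hTi : T ⊆ M✶.E := hT
        -- e ∈ cl*(T) means e not in cl(E \ T \ e)
        have h1 : rk M✶ (insert e T) = rk M✶ T := by
          rw [← rk_closure, Matroid.closure_insert_eq_of_mem_closure hcl, rk_closure]
        have h2 := rk_dual (M := M) (X := insert e T) (insert_subset heE hT)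
        have h3 := rk_dual (M := M) (X := T) hT
        have h4 : (insert e T).ncard = T.ncard + 1 :=
          Set.ncard_insert_of_notMem heT (M.ground_finite.subset hT)
        have h5 : rk M (M.E \ T) = rk M (M.E \ insert e T) := by
          have e1 : M.E \ T = insert e (M.E \ insert e T) := by
            ext x
            simp only [mem_sdiff, mem_insert_iff]
            constructor
            · rintro ⟨a, b⟩
              by_cases hx : x = e
              · exact Or.inl hx
              · exact Or.inr ⟨a, by tauto⟩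
            · rintro (rfl | ⟨a, b⟩)
              · exact ⟨heE, heT⟩
              · exact ⟨a, by tauto⟩
          have e2 : e ∈ M.closure (M.E \ insert e T) := by
            refine M.closure_subset_closure ?_ c1
            intro s hs
            refine ⟨hS hs, ?_⟩
            rintro (rfl | h)
            · exact heS hs
            · exact Set.disjoint_left.1 hST hs h
          rw [e1, ← rk_closure, Matroid.closure_insert_eq_of_mem_closure e2, rk_closure]
        omega
      exact hdel hcl (key M S T hS heE heT c1 hK)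
    · by_cases c2 : e ∈ M✶.closure T
      · have h1 := key M✶ T S hT heE heS c2 (hK.dual hS)
        have h2 : M✶ ＼ {e} = (M ／ {e})✶ := (Matroid.dual_contract M {e}).symm
        rw [h2] at h1
        have : (M ／ {e}).Finite := ⟨M.ground_finite.subset sdiff_subset⟩
        have h3 := KGe.dual (M := (M ／ {e})✶) h1 hT'
        rw [Matroid.dual_dual] at h3
        exact hcon c1 h3
      · by_contra hno
        have hKd : ¬ KGe (M ＼ {e}) S T n := fun h => hno (hdel c2 h)
        have hKc : ¬ KGe (M ／ {e}) S T n := fun h => hno (hcon c1 h)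
        unfold KGe at hKd hKc
        push Not at hKd hKc
        obtain ⟨X, hSX, hXT, hX⟩ := hKd
        obtain ⟨Y, hSY, hYT, hY⟩ := hKc
        rw [Matroid.delete_ground] at hXT hX
        rw [Matroid.contract_ground] at hYT hY
        have hXE : X ⊆ M.E \ {e} := hXT.trans sdiff_subset
        have hYE : Y ⊆ M.E \ {e} := hYT.trans sdiff_subset
        rw [rk_delete (subset_refl _), rk_delete hXE, rk_delete sdiff_subset] at hX
        have hnl : M.IsNonloop e := by
          refine ⟨?_, heE⟩
          intro hl
          exact c1 (M.closure_subset_closure (empty_subset S) (show e ∈ M.closure ∅ from hl))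
        have y1 := rk_contract hnl (subset_refl (M.E \ {e}))
        have y2 := rk_contract hnl hYE
        have y3 := rk_contract hnl (show (M.E \ {e}) \ Y ⊆ M.E \ {e} from sdiff_subset)
        have z1 : insert e (M.E \ {e}) = M.E := by
          rw [insert_sdiff_singleton, insert_eq_of_mem heE]
        have z2 : insert e ((M.E \ {e}) \ Y) = M.E \ Y := by
          ext x
          simp only [mem_insert_iff, mem_sdiff, mem_singleton_iff]
          constructor
          · rintro (rfl | ⟨⟨a, b⟩, c⟩)
            · exact ⟨heE, fun h => (hYE h).2 rfl⟩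
            · exact ⟨a, c⟩
          · rintro ⟨a, b⟩
            by_cases hx : x = e
            · exact Or.inl hx
            · exact Or.inr ⟨⟨a, hx⟩, b⟩
        rw [z1] at y1
        rw [z2] at y3
        have s1 := rk_submod M X (insert e Y)
        have s2 := rk_submod M ((M.E \ {e}) \ X) (M.E \ Y)
        have t1 : X ∩ insert e Y = X ∩ Y := by
          ext x
          simp only [mem_inter_iff, mem_insert_iff]
          constructor
          · rintro ⟨a, rfl | b⟩
            · exact absurd rfl (hXE a).2
            · exact ⟨a, b⟩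
          · rintro ⟨a, b⟩
            exact ⟨a, Or.inr b⟩
        have t2 : ((M.E \ {e}) \ X) ∩ (M.E \ Y) = M.E \ (X ∪ insert e Y) := by
          ext x
          simp only [mem_inter_iff, mem_insert_iff, mem_sdiff, mem_union, mem_singleton_iff]
          tauto
        have t3 : ((M.E \ {e}) \ X) ∪ (M.E \ Y) = M.E \ (X ∩ Y) := by
          ext x
          simp only [mem_inter_iff, mem_sdiff, mem_union, mem_singleton_iff]
          constructor
          · rintro (⟨⟨a, b⟩, c⟩ | ⟨a, b⟩)
            · exact ⟨a, fun h => c h.1⟩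
            · exact ⟨a, fun h => b h.2⟩
          · rintro ⟨a, b⟩
            by_cases hxY : x ∈ Y
            · left
              refine ⟨⟨a, fun h => ?_⟩, fun h => b ⟨h, hxY⟩⟩
              exact (hYE hxY).2 h
            · exact Or.inr ⟨a, hxY⟩
        rw [t1] at s1
        rw [t2, t3] at s2
        have k1 := hK (X ∩ Y) (subset_inter hSX hSY) (by
          intro x hx
          exact ⟨(hXE hx.1).1, (hXT hx.1).2⟩)
        have k2 := hK (X ∪ insert e Y) (hSX.trans subset_union_left) (by
          rintro x (hx | hx | hx)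
          · exact ⟨(hXE hx).1, (hXT hx).2⟩
          · rw [hx]; exact ⟨heE, heT⟩
          · exact ⟨(hYE hx).1, (hYT hx).2⟩)
        have m1 := rk_mono M (show M.E \ {e} ⊆ M.E from sdiff_subset)
        have m2 : rk M M.E ≤ rk M (M.E \ {e}) + 1 := by
          have := rk_union_le M (X := M.E \ {e}) (Y := {e}) (finite_singleton e)
          rw [Set.ncard_singleton, show (M.E \ {e}) ∪ {e} = M.E by
            rw [union_comm, singleton_union, z1]] at this
          exact this
        omega

end BIC
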