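import Pool.Agent.Helper34.BIC.Board

open Set

namespace BIC

variable {α V ι κ π : Type*}

namespace Board

variable [Fintype ι] {M : Matroid α} {S : Set α} {ends : α → Sym2 V} {ψ : V → α} {N : ℕ}
  {X : Set α} {W : ℕ × ℕ → Set V}

lemma trees [Fintype π] [DecidableEq κ] (h : Board ι M S ends ψ N X W)
    (row : π → κ) (key : π → ℕ) (dep : κ → ℕ) (hsurj : ∀ u, ∃ p, row p = u)
    (hkey : Function.Injective key)
    (hnest : ∀ p₁ p p₂, key p₁ ≤ key p → key p ≤ key p₂ → row p₁ = row p₂ → row p ≠ row p₁ →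
      dep (row p) < dep (row p₁))
    (Bl : π → Finset ℕ) (hne : ∀ p, (Bl p).Nonempty) (hN : ∀ p, ∀ l ∈ Bl p, l < N)
    (hinc : ∀ p p', key p < key p' → ∀ a ∈ Bl p, ∀ b ∈ Bl p', a < b)
    (pd : ℕ → ℕ) (H : ℕ) (hpd : ∀ p, ∀ l ∈ Bl p, pd l ≤ H) (hH : ∀ u, H + dep u < N) :
    ∃ Q : κ → Finset (ℕ × ℕ), (∀ u, PQ ι M S ends ψ X W (Q u)) ∧ (∀ u, Inb N (Q u)) ∧
      (∀ u u', u ≠ u' → Disjoint (Q u) (Q u')) ∧ ∀ p, ∀ l ∈ Bl p, (l, pd l) ∈ Q (row p) := by
  classical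
  obtain ⟨A, hmemA⟩ : ∃ A : κ → Finset ℕ, ∀ u l, l ∈ A u ↔ ∃ p, row p = u ∧ l ∈ Bl p := by
    refine ⟨fun u => (Finset.univ.filter fun p => row p = u).biUnion Bl, ?_⟩
    intro u l
    simp
  have hAne : ∀ u, (A u).Nonempty := by
    intro u
    obtain ⟨p, hp⟩ := hsurj u
    obtain ⟨l, hl⟩ := hne p
    exact ⟨l, (hmemA u l).2 ⟨p, hp, hl⟩⟩
  obtain ⟨l₁, hl₁m, hl₁le⟩ : ∃ l₁ : κ → ℕ, (∀ u, l₁ u ∈ A u) ∧ ∀ u, ∀ l ∈ A u, l₁ u ≤ l :=
    ⟨fun u => (A u).min' (hAne u), fun u => Finset.min'_mem _ _,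
      fun u l hl => Finset.min'_le _ _ hl⟩
  obtain ⟨l₂, hl₂m, hl₂le⟩ : ∃ l₂ : κ → ℕ, (∀ u, l₂ u ∈ A u) ∧ ∀ u, ∀ l ∈ A u, l ≤ l₂ u :=
    ⟨fun u => (A u).max' (hAne u), fun u => Finset.max'_mem _ _,
      fun u l hl => Finset.le_max' _ _ hl⟩
  have hbet : ∀ u u', u ≠ u' → ∀ l ∈ A u', l₁ u ≤ l → l ≤ l₂ u → dep u' < dep u := by
    intro u u' huu l hl h1 h2
    obtain ⟨p, hp, hlp⟩ := (hmemA _ _).1 hl
    obtain ⟨p₁, hp₁, hlp₁⟩ := (hmemA _ _).1 (hl₁m u)
    obtain ⟨p₂, hp₂, hlp₂⟩ := (hmemA _ _).1 (hl₂m u)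
    have h3 : key p₁ ≤ key p := by
      by_contra hcon
      have := hinc p p₁ (by omega) l hlp _ hlp₁
      omega
    have h4 : key p ≤ key p₂ := by
      by_contra hcon
      have := hinc p₂ p (by omega) _ hlp₂ l hlp
      omega
    have := hnest p₁ p p₂ h3 h4 (by rw [hp₁, hp₂]) (by rw [hp, hp₁]; exact huu.symm)
    rwa [hp, hp₁] at this
  have hprop : ∀ u, PQ ι M S ends ψ X W ((Finset.Icc (l₁ u) (l₂ u) ×ˢ {H + dep u}) ∪
      (A u).biUnion fun l => {l} ×ˢ Finset.Icc (pd l) (H + dep u)) ∧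
      Inb N ((Finset.Icc (l₁ u) (l₂ u) ×ˢ {H + dep u}) ∪
      (A u).biUnion fun l => {l} ×ˢ Finset.Icc (pd l) (H + dep u)) := fun u => h.comb (l₁ := l₁ u) (l₂ := l₂ u) (D := H + dep u)
    (hl₁le u _ (hl₂m u)) (by
      obtain ⟨p, _, hlp⟩ := (hmemA _ _).1 (hl₂m u)
      exact hN p _ hlp) (hH u) pd (A u) (by
      intro l hl
      refine ⟨hl₁le u l hl, hl₂le u l hl, ?_⟩
      obtain ⟨p, _, hlp⟩ := (hmemA _ _).1 hl
      have := hpd p l hlp
      omega)
  obtain ⟨Q, hQ⟩ : ∃ Q : κ → Finset (ℕ × ℕ), ∀ u, Q u = (Finset.Icc (l₁ u) (l₂ u) ×ˢ {H + dep u}) ∪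
      (A u).biUnion fun l => {l} ×ˢ Finset.Icc (pd l) (H + dep u) := ⟨_, fun u => rfl⟩
  refine ⟨Q, fun u => ?_, fun u => ?_, ?_, ?_⟩
  · rw [hQ]; exact (hprop u).1
  · rw [hQ]; exact (hprop u).2
  · intro u u' huu
    rw [Finset.disjoint_left]
    rintro ⟨l, d⟩ hc hc'
    rw [hQ] at hc hc'
    simp only [Finset.mem_union, Finset.mem_product, Finset.mem_Icc, Finset.mem_singleton,
      Finset.mem_biUnion] at hc hc'
    rcases hc with ⟨⟨h1, h2⟩, h3⟩ | ⟨a, ha, rfl, h1, h2⟩ <;>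
      rcases hc' with ⟨⟨h1', h2'⟩, h3'⟩ | ⟨a', ha', haa, h1', h2'⟩
    · rcases Nat.le_total (l₁ u) (l₁ u') with h4 | h4
      · have := hbet u u' huu _ (hl₁m u') h4 (by omega)
        omega
      · have := hbet u' u huu.symm _ (hl₁m u) h4 (by omega)
        omega
    · subst haa
      have := hbet u u' huu _ ha' h1 h2
      omega
    · have := hbet u' u huu.symm _ ha h1' h2'
      omega
    · subst haa
      obtain ⟨p, hp, hlp⟩ := (hmemA _ _).1 ha
      obtain ⟨p', hp', hlp'⟩ := (hmemA _ _).1 ha'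
      have hpp : p ≠ p' := by
        rintro rfl
        exact huu (hp.symm.trans hp')
      rcases Nat.lt_or_gt_of_ne (fun hh => hpp (hkey hh)) with h5 | h5
      · have := hinc p p' h5 _ hlp _ hlp'
        omega
      · have := hinc p' p h5 _ hlp' _ hlp
        omega
  · intro p l hl
    rw [hQ]
    simp only [Finset.mem_union, Finset.mem_biUnion, Finset.mem_product, Finset.mem_Icc,
      Finset.mem_singleton]
    right
    refine ⟨l, (hmemA _ _).2 ⟨p, rfl, hl⟩, rfl, le_refl _, ?_⟩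
    have := hpd p l hl
    omega

lemma side [Nonempty α] [Fintype κ] (h : Board ι M S ends ψ N X W)
    (row : π → κ) (Q : κ → Finset (ℕ × ℕ)) (hQ : ∀ u, PQ ι M S ends ψ X W (Q u))
    (hQN : ∀ u, Inb N (Q u)) (hQd : ∀ u u', u ≠ u' → Disjoint (Q u) (Q u'))
    (μ : ι → Set π) (xs : ι → π → α)
    (hxs : ∀ i, ∀ p ∈ μ i, xs i p ∈ X ∧ ∃ c ∈ Q (row p), xs i p ∈ ψ '' W c)
    (hμ : ∀ i, InjOn row (μ i)) (R : ι → Set α) (hR : ∀ i, Disjoint (R i) S)
    (hbase : ∀ i, M.IsBase (R i ∪ (range ψ \ (xs i '' μ i)))) :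
    ∃ (C : Set α) (ℓ : κ → α), C ⊆ S ∧ (∀ u, ℓ u ∈ S ∧ ℓ u ∉ C) ∧ Function.Injective ℓ ∧
      ∀ i, M.IsBase (R i ∪ (C ∪ ℓ '' {u | u ∉ row '' μ i})) := by
  classical
  set WU : κ → Set V := fun u => ⋃ c ∈ Q u, W c with hWU
  have hWd : ∀ u u', u ≠ u' → Disjoint (WU u) (WU u') := by
    intro u u' huu
    simp only [hWU, Set.disjoint_iUnion₂_left, Set.disjoint_iUnion₂_right]
    intro c hc c' hc'
    refine h.disj _ _ (hQN _ _ hc').1 (hQN _ _ hc').2 (hQN _ _ hc).1 (hQN _ _ hc).2 ?_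
    rintro rfl
    exact Finset.disjoint_left.1 (hQd u u' huu) hc' hc
  have hpsi : ∀ v u, ψ v ∈ ins S ends (WU u) → v ∈ WU u := by
    intro v u hv
    exact hv.2 v (h.psi v).2
  have hxU : ∀ i, ∀ p ∈ μ i, xs i p ∈ ψ '' WU (row p) := by
    intro i p hp
    obtain ⟨_, c, hc, hx⟩ := hxs i p hp
    exact image_mono (subset_biUnion_of_mem (u := W) (show c ∈ (Q (row p) : Set _) from hc)) hx
  have hFd : ∀ u u', u ≠ u' → ∀ x, x ∈ ψ '' WU u → x ∉ ψ '' WU u' := by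
    intro u u' huu x hx hx'
    exact Set.disjoint_left.1 (ins_disj (S := S) (ends := ends) (hWd u u' huu))
      ((hQ u).1 hx) ((hQ u').1 hx')
  set U : ι → κ → Set α := fun i u => {x | ∃ p ∈ μ i, row p = u ∧ x = xs i p} with hU
  obtain ⟨τ, ℓ, h1, h2⟩ := merge_all (ι := ι) (M := M) (S := S) (ends := ends) WU
    (fun u => ψ '' WU u) (fun u => X ∩ ψ '' WU u) U Finset.univ (fun u _ => hQ u)
    (fun u _ u' _ huu => hWd u u' huu) (by
      rintro i u _ x ⟨p, hp, rfl, rfl⟩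
      exact ⟨(hxs i p hp).1, hxU i p hp⟩) (by
      rintro i u _ x ⟨p, hp, hpu, rfl⟩ y ⟨q, hq, hqu, rfl⟩
      rw [hμ i hp hq (hpu.trans hqu.symm)])
    (fun i => R i ∪ (range ψ \ ⋃ u, ψ '' WU u)) (by
      intro i u _
      refine Disjoint.union_left ((hR i).mono_right (fun e he => he.1)) ?_
      rw [Set.disjoint_left]
      rintro _ ⟨⟨v, rfl⟩, hv⟩ hv'
      exact hv (mem_iUnion.2 ⟨u, v, hpsi v u hv', rfl⟩)) (by
      intro i
      have e : R i ∪ (range ψ \ ⋃ u, ψ '' WU u) ∪ ⋃ u ∈ (Finset.univ : Finset κ),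
          (ψ '' WU u \ U i u) = R i ∪ (range ψ \ (xs i '' μ i)) := by
        rw [union_assoc]
        congr 1
        ext x
        simp only [mem_union, mem_sdiff, mem_iUnion, Finset.mem_univ, exists_const,
          not_exists]
        constructor
        · rintro (⟨hx, hx'⟩ | ⟨u, hx, hx'⟩)
          · refine ⟨hx, ?_⟩
            rintro ⟨p, hp, rfl⟩
            exact hx' _ (hxU i p hp)
          · refine ⟨image_subset_range _ _ hx, ?_⟩
            rintro ⟨p, hp, rfl⟩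
            by_cases hpu : row p = u
            · exact hx' ⟨p, hp, hpu, rfl⟩
            · exact hFd _ _ hpu _ (hxU i p hp) hx
        · rintro ⟨hx, hx'⟩
          by_cases hxu : ∃ u, x ∈ ψ '' WU u
          · obtain ⟨u, hu⟩ := hxu
            right
            refine ⟨u, hu, ?_⟩
            rintro ⟨p, hp, _, rfl⟩
            exact hx' ⟨p, hp, rfl⟩
          · left
            exact ⟨hx, fun u hu => hxu ⟨u, hu⟩⟩
      rw [e]
      exact hbase i)
  refine ⟨(range ψ \ ⋃ u, ψ '' WU u) ∪ ⋃ u, τ u, ℓ, ?_, ?_, ?_, ?_⟩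
  · refine union_subset ?_ (iUnion_subset fun u => ?_)
    · rintro _ ⟨⟨v, rfl⟩, _⟩
      exact (h.psi v).1
    · exact (h1 u (Finset.mem_univ _)).1.trans (fun e he => he.1)
  · intro u
    refine ⟨(h1 u (Finset.mem_univ _)).2.1.1, ?_⟩
    rintro (⟨⟨v, hv⟩, h3⟩ | h3)
    · have h4 := (h1 u (Finset.mem_univ _)).2.1
      rw [← hv] at h4 h3
      exact h3 (mem_iUnion.2 ⟨u, v, hpsi v u h4, rfl⟩)
    · obtain ⟨u', hu'⟩ := mem_iUnion.1 h3
      by_cases huu : u = u'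
      · subst huu
        exact (h1 u (Finset.mem_univ _)).2.2 hu'
      · exact Set.disjoint_left.1 (ins_disj (S := S) (ends := ends) (hWd u u' huu))
          (h1 u (Finset.mem_univ _)).2.1 ((h1 u' (Finset.mem_univ _)).1 hu')
  · intro u u' huu
    by_contra hne
    have h3 := (h1 u (Finset.mem_univ _)).2.1
    rw [huu] at h3
    exact Set.disjoint_left.1 (ins_disj (S := S) (ends := ends) (hWd u u' hne))
      h3 (h1 u' (Finset.mem_univ _)).2.1
  · intro i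
    have h3 := h2 (fun i u => if (U i u).Nonempty then τ u else insert (ℓ u) (τ u)) (by
      intro i u _
      exact ⟨fun hh => if_pos hh, fun hh => if_neg hh⟩) i
    have e : R i ∪ (range ψ \ ⋃ u, ψ '' WU u) ∪ ⋃ u ∈ (Finset.univ : Finset κ),
        (if (U i u).Nonempty then τ u else insert (ℓ u) (τ u)) =
        R i ∪ (((range ψ \ ⋃ u, ψ '' WU u) ∪ ⋃ u, τ u) ∪ ℓ '' {u | u ∉ row '' μ i}) := by
      rw [union_assoc, union_assoc (range ψ \ _)]
      congr 2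
      ext x
      simp only [mem_union, mem_iUnion, Finset.mem_univ, exists_const, mem_image,
        mem_ofPred_eq, not_exists, not_and]
      constructor
      · rintro ⟨u, hu⟩
        split_ifs at hu with hne
        · left; exact ⟨u, hu⟩
        · rcases hu with rfl | hu
          · right
            refine ⟨u, ?_, rfl⟩
            intro p hp hpu
            exact hne ⟨xs i p, p, hp, hpu, rfl⟩
          · left; exact ⟨u, hu⟩
      · rintro (⟨u, hu⟩ | ⟨u, hu, rfl⟩)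
        · refine ⟨u, ?_⟩
          split_ifs
          · exact hu
          · exact Or.inr hu
        · refine ⟨u, ?_⟩
          rw [if_neg]
          · exact Or.inl rfl
          · rintro ⟨x, p, hp, hpu, rfl⟩
            exact hu p hp hpu
    rw [e] at h3
    exact h3

end Board

end BIC
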