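import Mathlib

open Set

namespace BIC

namespace Net

/-- Positions `(t, x, y)`: `t = 0` source, `1` stay, `2` right, `3` down. -/
def posF (k : ℕ) : Finset (ℕ × ℕ × ℕ) :=
  ((Finset.range 4) ×ˢ (Finset.range k) ×ˢ (Finset.range k)).filter
    (fun p => (p.1 = 0 → p.2.1 = 0) ∧ (p.1 = 2 → p.2.1 + 1 < k))

lemma mem_posF {k t x y : ℕ} : (t, x, y) ∈ posF k ↔
    t < 4 ∧ x < k ∧ y < k ∧ (t = 0 → x = 0) ∧ (t = 2 → x + 1 < k) := by
  simp [posF, and_assoc]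

def rowF (k : ℕ) : Finset (ℕ × ℕ) := (Finset.range (k + 1)) ×ˢ (Finset.range k)
def colF (k : ℕ) : Finset (ℕ × ℕ) := (Finset.range k) ×ˢ (Finset.range (k + 1))

lemma mem_rowF {k x y : ℕ} : (x, y) ∈ rowF k ↔ x ≤ k ∧ y < k := by
  simp [rowF]

lemma mem_colF {k x y : ℕ} : (x, y) ∈ colF k ↔ x < k ∧ y ≤ k := by
  simp [colF]

def rowN (p : ℕ × ℕ × ℕ) : ℕ × ℕ := if p.1 = 0 then (0, p.2.2) else (p.2.1 + 1, p.2.2)

def colN (p : ℕ × ℕ × ℕ) : ℕ × ℕ :=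
  if p.1 = 0 then (0, p.2.2) else if p.1 = 1 then (p.2.1, p.2.2) else
    if p.1 = 2 then (p.2.1 + 1, p.2.2) else (p.2.1, p.2.2 + 1)

def relN (k : ℕ) (p : ℕ × ℕ × ℕ) : ℕ :=
  if p.1 = 0 then 0 else if p.1 = 1 then 2 * p.2.1 + 1 else
    if p.1 = 2 then 2 * p.2.1 + 2 else 3 * k - 1 - p.2.1

def keyN (k : ℕ) (p : ℕ × ℕ × ℕ) : ℕ := 3 * k * p.2.2 + relN k p

def depR (k : ℕ) (u : ℕ × ℕ) : ℕ := if u.1 = 0 then 0 else k + 1 - u.1
def depC (k : ℕ) (u : ℕ × ℕ) : ℕ := if u.2 < k then u.1 + 1 else 0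

lemma depR_le (k : ℕ) (u : ℕ × ℕ) : depR k u ≤ k := by
  unfold depR; split_ifs <;> omega

lemma depC_le {k : ℕ} {u : ℕ × ℕ} (hu : u ∈ colF k) : depC k u ≤ k := by
  obtain ⟨x, y⟩ := u
  rw [mem_colF] at hu
  unfold depC; split_ifs <;> omega

lemma P_lt {k y y' : ℕ} (h : y < y') : 3 * k * y + 3 * k ≤ 3 * k * y' := by
  have : 3 * k * (y + 1) ≤ 3 * k * y' := Nat.mul_le_mul_left _ h
  rw [Nat.mul_succ] at this
  exact this

lemma rel_cases {k t x y : ℕ} (h : (t, x, y) ∈ posF k) :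
    (t = 0 ∧ x = 0 ∧ relN k (t, x, y) = 0 ∧ rowN (t, x, y) = (0, y) ∧ colN (t, x, y) = (0, y)) ∨
    (t = 1 ∧ relN k (t, x, y) = 2 * x + 1 ∧ rowN (t, x, y) = (x + 1, y) ∧
      colN (t, x, y) = (x, y)) ∨
    (t = 2 ∧ x + 1 < k ∧ relN k (t, x, y) = 2 * x + 2 ∧ rowN (t, x, y) = (x + 1, y) ∧
      colN (t, x, y) = (x + 1, y)) ∨
    (t = 3 ∧ relN k (t, x, y) = 3 * k - 1 - x ∧ rowN (t, x, y) = (x + 1, y) ∧
      colN (t, x, y) = (x, y + 1)) := by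
  rw [mem_posF] at h
  obtain ⟨h1, h2, h3, h4, h5⟩ := h
  have : t = 0 ∨ t = 1 ∨ t = 2 ∨ t = 3 := by omega
  rcases this with rfl | rfl | rfl | rfl
  · left; refine ⟨rfl, h4 rfl, ?_, ?_, ?_⟩ <;> simp [relN, rowN, colN]
  · right; left; refine ⟨rfl, ?_, ?_, ?_⟩ <;> simp [relN, rowN, colN]
  · right; right; left; refine ⟨rfl, h5 rfl, ?_, ?_, ?_⟩ <;> simp [relN, rowN, colN]
  · right; right; right; refine ⟨rfl, ?_, ?_, ?_⟩ <;> simp [relN, rowN, colN]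

lemma rel_lt {k t x y : ℕ} (h : (t, x, y) ∈ posF k) : relN k (t, x, y) < 3 * k := by
  have h' := mem_posF.1 h
  rcases rel_cases h with ⟨_, _, h1, _⟩ | ⟨_, h1, _⟩ | ⟨_, _, h1, _⟩ | ⟨_, h1, _⟩ <;> omega

lemma key_lt {k : ℕ} {p : ℕ × ℕ × ℕ} (h : p ∈ posF k) : keyN k p < 3 * k * k := by
  obtain ⟨t, x, y⟩ := p
  have h1 := rel_lt h
  have h2 := P_lt (k := k) (mem_posF.1 h).2.2.1
  unfold keyN
  simp only
  omega

/-- Comparison of the rows from the comparison of the keys. -/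
lemma y_le {k : ℕ} {t x y t' x' y' : ℕ} (h : (t, x, y) ∈ posF k)
    (hk : keyN k (t', x', y') ≤ keyN k (t, x, y)) : y' ≤ y := by
  by_contra hcon
  have h1 := P_lt (k := k) (show y < y' by omega)
  have h2 := rel_lt h
  unfold keyN at hk
  simp only at hk
  omega

lemma key_inj {k : ℕ} {p p' : ℕ × ℕ × ℕ} (h : p ∈ posF k) (h' : p' ∈ posF k)
    (hk : keyN k p = keyN k p') : p = p' := by
  obtain ⟨t, x, y⟩ := p
  obtain ⟨t', x', y'⟩ := p'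
  have h1 := y_le h hk.symm.le
  have h2 := y_le h' hk.le
  obtain rfl : y = y' := by omega
  unfold keyN at hk
  simp only at hk
  have h3 := mem_posF.1 h
  have h4 := mem_posF.1 h'
  rcases rel_cases h with ⟨a, b, c, _⟩ | ⟨a, c, _⟩ | ⟨a, b, c, _⟩ | ⟨a, c, _⟩ <;>
  rcases rel_cases h' with ⟨a', b', c', _⟩ | ⟨a', c', _⟩ | ⟨a', b', c', _⟩ | ⟨a', c', _⟩ <;>
  rw [c, c'] at hk <;> refine Prod.ext ?_ (Prod.ext ?_ rfl) <;> simp only <;> omega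

lemma nest_row {k : ℕ} {p₁ p p₂ : ℕ × ℕ × ℕ} (h₁ : p₁ ∈ posF k) (h : p ∈ posF k)
    (h₂ : p₂ ∈ posF k) (hk₁ : keyN k p₁ ≤ keyN k p) (hk₂ : keyN k p ≤ keyN k p₂)
    (hr : rowN p₁ = rowN p₂) (hne : rowN p ≠ rowN p₁) :
    depR k (rowN p) < depR k (rowN p₁) := by
  obtain ⟨t₁, x₁, y₁⟩ := p₁
  obtain ⟨t, x, y⟩ := p
  obtain ⟨t₂, x₂, y₂⟩ := p₂
  have e1 := y_le h hk₁
  have e2 := y_le h₂ hk₂
  have g := mem_posF.1 h
  have g₁ := mem_posF.1 h₁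
  have g₂ := mem_posF.1 h₂
  have e3 : y₁ = y₂ := by
    have : (rowN (t₁, x₁, y₁)).2 = (rowN (t₂, x₂, y₂)).2 := by rw [hr]
    unfold rowN at this
    split_ifs at this <;> exact this
  obtain rfl : y = y₁ := by omega
  obtain rfl : y = y₂ := by omega
  unfold keyN at hk₁ hk₂
  simp only at hk₁ hk₂
  rcases rel_cases h₁ with ⟨a₁, b₁, c₁, d₁, _⟩ | ⟨a₁, c₁, d₁, _⟩ | ⟨a₁, b₁, c₁, d₁, _⟩ |
      ⟨a₁, c₁, d₁, _⟩ <;>
  rcases rel_cases h with ⟨a, b, c, d, _⟩ | ⟨a, c, d, _⟩ | ⟨a, b, c, d, _⟩ |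
      ⟨a, c, d, _⟩ <;>
  rcases rel_cases h₂ with ⟨a₂, b₂, c₂, d₂, _⟩ | ⟨a₂, c₂, d₂, _⟩ | ⟨a₂, b₂, c₂, d₂, _⟩ |
      ⟨a₂, c₂, d₂, _⟩ <;>
  rw [d₁, d₂] at hr <;> rw [d, d₁] at hne ⊢ <;> rw [c₁, c] at hk₁ <;> rw [c, c₂] at hk₂ <;>
  simp only [Prod.mk.injEq, ne_eq, and_true, not_true, depR] at hr hne ⊢ <;>
  simp only [Nat.add_eq_zero_iff, one_ne_zero, and_false, if_false, if_true] <;> omega

lemma nest_col {k : ℕ} {p₁ p p₂ : ℕ × ℕ × ℕ} (h₁ : p₁ ∈ posF k) (h : p ∈ posF k)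
    (h₂ : p₂ ∈ posF k) (hk₁ : keyN k p₁ ≤ keyN k p) (hk₂ : keyN k p ≤ keyN k p₂)
    (hr : colN p₁ = colN p₂) (hne : colN p ≠ colN p₁) :
    depC k (colN p) < depC k (colN p₁) := by
  obtain ⟨t₁, x₁, y₁⟩ := p₁
  obtain ⟨t, x, y⟩ := p
  obtain ⟨t₂, x₂, y₂⟩ := p₂
  have e1 := y_le h hk₁
  have e2 := y_le h₂ hk₂
  have g := mem_posF.1 h
  have g₁ := mem_posF.1 h₁
  have g₂ := mem_posF.1 h₂
  have e3 : y₂ ≤ y₁ + 1 := by
    have : (colN (t₁, x₁, y₁)).2 = (colN (t₂, x₂, y₂)).2 := by rw [hr]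
    unfold colN at this
    split_ifs at this <;> simp only at this <;> omega
  have m1 : y = y₁ ∨ y = y₁ + 1 := by omega
  have m2 : y₂ = y ∨ y₂ = y + 1 := by omega
  have q1 : 3 * k * (y₁ + 1) = 3 * k * y₁ + 3 * k := by ring
  have q2 : 3 * k * (y + 1) = 3 * k * y + 3 * k := by ring
  unfold keyN at hk₁ hk₂
  simp only at hk₁ hk₂
  rcases m1 with m1 | m1 <;> rcases m2 with m2 | m2 <;>
  subst m2 <;> subst m1 <;>
  rcases rel_cases h₁ with ⟨a₁, b₁, c₁, _, d₁⟩ | ⟨a₁, c₁, _, d₁⟩ | ⟨a₁, b₁, c₁, _, d₁⟩ |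
      ⟨a₁, c₁, _, d₁⟩ <;>
  rcases rel_cases h with ⟨a, b, c, _, d⟩ | ⟨a, c, _, d⟩ | ⟨a, b, c, _, d⟩ |
      ⟨a, c, _, d⟩ <;>
  rcases rel_cases h₂ with ⟨a₂, b₂, c₂, _, d₂⟩ | ⟨a₂, c₂, _, d₂⟩ | ⟨a₂, b₂, c₂, _, d₂⟩ |
      ⟨a₂, c₂, _, d₂⟩ <;>
  rw [d₁, d₂] at hr <;> rw [d, d₁] at hne ⊢ <;> rw [c₁, c] at hk₁ <;> rw [c, c₂] at hk₂ <;>
  simp only [Prod.mk.injEq, ne_eq, depC, and_true, true_and, not_true] at hr hne ⊢ <;>
  split_ifs <;> omega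

lemma exists_anti : ∀ (n : ℕ) (A B : Finset ℕ), A.card = n → B.card = n →
    ∃ σ : ℕ → ℕ, (∀ y ∈ A, σ y ∈ B) ∧ (∀ x ∈ B, ∃ y ∈ A, σ y = x) ∧
      ∀ y ∈ A, ∀ y' ∈ A, y < y' → σ y' < σ y := by
  classical
  intro n
  induction n with
  | zero =>
    intro A B hA hB
    rw [Finset.card_eq_zero] at hA hB
    subst hA; subst hB
    exact ⟨fun y => y, by simp, by simp, by simp⟩
  | succ n ih =>
    intro A B hA hB
    have hAne : A.Nonempty := Finset.card_pos.1 (by omega)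
    have hBne : B.Nonempty := Finset.card_pos.1 (by omega)
    obtain ⟨y₀, hy₀, hy₀le⟩ : ∃ y₀ ∈ A, ∀ y ∈ A, y₀ ≤ y :=
      ⟨A.min' hAne, A.min'_mem _, fun y hy => A.min'_le _ hy⟩
    obtain ⟨x₀, hx₀, hx₀le⟩ : ∃ x₀ ∈ B, ∀ x ∈ B, x ≤ x₀ :=
      ⟨B.max' hBne, B.max'_mem _, fun y hy => B.le_max' _ hy⟩
    obtain ⟨σ, h1, h2, h3⟩ := ih (A.erase y₀) (B.erase x₀)
      (by rw [Finset.card_erase_of_mem hy₀]; omega) (by rw [Finset.card_erase_of_mem hx₀]; omega)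
    refine ⟨Function.update σ y₀ x₀, ?_, ?_, ?_⟩
    · intro y hy
      by_cases hyy : y = y₀
      · subst hyy; rw [Function.update_self]; exact hx₀
      · rw [Function.update_of_ne hyy]
        exact Finset.mem_of_mem_erase (h1 y (Finset.mem_erase.2 ⟨hyy, hy⟩))
    · intro x hx
      by_cases hxx : x = x₀
      · exact ⟨y₀, hy₀, by rw [Function.update_self, hxx]⟩
      · obtain ⟨y, hy, hyx⟩ := h2 x (Finset.mem_erase.2 ⟨hxx, hx⟩)
        have := Finset.mem_erase.1 hy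
        exact ⟨y, this.2, by rw [Function.update_of_ne this.1]; exact hyx⟩
    · intro y hy y' hy' hyy
      have hne' : y' ≠ y₀ := by
        rintro rfl
        have := hy₀le y hy
        omega
      rw [Function.update_of_ne hne']
      have h4 := h1 y' (Finset.mem_erase.2 ⟨hne', hy'⟩)
      by_cases hyy₀ : y = y₀
      · subst hyy₀
        rw [Function.update_self]
        have h5 := Finset.mem_erase.1 h4
        have := hx₀le _ h5.2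
        omega
      · rw [Function.update_of_ne hyy₀]
        exact h3 y (Finset.mem_erase.2 ⟨hyy₀, hy⟩) y' (Finset.mem_erase.2 ⟨hne', hy'⟩) hyy

/-- The routing: for `A`, `B` of the same size. -/
lemma exists_routing {k : ℕ} {A B : Finset ℕ} (hA : ∀ y ∈ A, y < k) (hB : ∀ x ∈ B, x < k)
    (hAB : A.card = B.card) :
    ∃ μ : Set (ℕ × ℕ × ℕ), μ ⊆ (posF k : Set (ℕ × ℕ × ℕ)) ∧ InjOn rowN μ ∧ InjOn colN μ ∧
      (∀ u ∈ rowF k, u ∈ rowN '' μ ↔ (u.1 = 0 → u.2 ∈ A)) ∧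
      (∀ u ∈ colF k, u ∈ colN '' μ ↔ (u.2 = k → u.1 ∈ B)) := by
  classical
  obtain ⟨σ, h1, h2, h3⟩ := exists_anti B.card A B hAB rfl
  have hσk : ∀ y ∈ A, σ y < k := fun y hy => hB _ (h1 y hy)
  -- the four kinds
  set μ : Set (ℕ × ℕ × ℕ) := {p | p ∈ posF k ∧
    (p.1 = 0 → p.2.2 ∈ A) ∧ (p.1 = 2 → p.2.2 ∈ A ∧ p.2.1 < σ p.2.2) ∧
    (p.1 = 3 → ∃ y' ∈ A, y' ≤ p.2.2 ∧ σ y' = p.2.1) ∧
    (p.1 = 1 → ¬ (p.2.2 ∈ A ∧ p.2.1 ≤ σ p.2.2) ∧ ∀ y' ∈ A, y' ≤ p.2.2 → σ y' ≠ p.2.1)}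
    with hμ
  have hmem : ∀ t x y, (t, x, y) ∈ μ ↔ (t, x, y) ∈ posF k ∧
    (t = 0 → y ∈ A) ∧ (t = 2 → y ∈ A ∧ x < σ y) ∧
    (t = 3 → ∃ y' ∈ A, y' ≤ y ∧ σ y' = x) ∧
    (t = 1 → ¬ (y ∈ A ∧ x ≤ σ y) ∧ ∀ y' ∈ A, y' ≤ y → σ y' ≠ x) := fun t x y => Iff.rfl
  -- key facts
  have f1 : ∀ x y y', y ∈ A → y' ∈ A → y' ≤ y → x < σ y → σ y' ≠ x := by
    intro x y y' hy hy' hyy hx hx'
    rcases Nat.lt_or_ge y' y with h | h
    · have := h3 y' hy' y hy h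
      omega
    · obtain rfl : y = y' := by omega
      omega
  refine ⟨μ, fun p hp => hp.1, ?_, ?_, ?_, ?_⟩
  · rintro ⟨t, x, y⟩ hp ⟨t', x', y'⟩ hp' he
    obtain ⟨g, a0, a2, a3, a1⟩ := (hmem _ _ _).1 hp
    obtain ⟨g', a0', a2', a3', a1'⟩ := (hmem _ _ _).1 hp'
    rcases rel_cases g with ⟨rfl, rfl, _, d, _⟩ | ⟨rfl, _, d, _⟩ | ⟨rfl, _, _, d, _⟩ |
      ⟨rfl, _, d, _⟩ <;>
    rcases rel_cases g' with ⟨rfl, rfl, _, d', _⟩ | ⟨rfl, _, d', _⟩ | ⟨rfl, _, _, d', _⟩ |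
      ⟨rfl, _, d', _⟩ <;>
    rw [d, d', Prod.mk.injEq] at he <;> obtain ⟨e1, e2⟩ := he <;> subst e2
    · rfl
    · omega
    · omega
    · omega
    · omega
    · rw [show x = x' by omega]
    · obtain rfl : x = x' := by omega
      exact absurd ⟨(a2' rfl).1, (a2' rfl).2.le⟩ (a1 rfl).1
    · obtain rfl : x = x' := by omega
      obtain ⟨z, hz, hzy, hzx⟩ := a3' rfl
      exact absurd hzx ((a1 rfl).2 z hz hzy)
    · omega
    · obtain rfl : x = x' := by omega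
      exact absurd ⟨(a2 rfl).1, (a2 rfl).2.le⟩ (a1' rfl).1
    · rw [show x = x' by omega]
    · obtain rfl : x = x' := by omega
      obtain ⟨z, hz, hzy, hzx⟩ := a3' rfl
      exact absurd hzx (f1 x y z (a2 rfl).1 hz hzy (a2 rfl).2)
    · omega
    · obtain rfl : x = x' := by omega
      obtain ⟨z, hz, hzy, hzx⟩ := a3 rfl
      exact absurd hzx ((a1' rfl).2 z hz hzy)
    · obtain rfl : x = x' := by omega
      obtain ⟨z, hz, hzy, hzx⟩ := a3 rfl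
      exact absurd hzx (f1 x y z (a2' rfl).1 hz hzy (a2' rfl).2)
    · rw [show x = x' by omega]
  · have g1 : ∀ x y y', y' ∈ A → y' ≤ y → σ y' = x → (y + 1) ∈ A → ¬ (x ≤ σ (y + 1)) := by
      intro x y y' hy' hyy hx hy hle
      have := h3 y' hy' (y + 1) hy (by omega)
      omega
    rintro ⟨t, x, y⟩ hp ⟨t', x', y'⟩ hp' he
    obtain ⟨g, a0, a2, a3, a1⟩ := (hmem _ _ _).1 hp
    obtain ⟨g', a0', a2', a3', a1'⟩ := (hmem _ _ _).1 hp'
    rcases rel_cases g with ⟨rfl, rfl, _, _, d⟩ | ⟨rfl, _, _, d⟩ | ⟨rfl, _, _, _, d⟩ |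
      ⟨rfl, _, _, d⟩ <;>
    rcases rel_cases g' with ⟨rfl, rfl, _, _, d'⟩ | ⟨rfl, _, _, d'⟩ | ⟨rfl, _, _, _, d'⟩ |
      ⟨rfl, _, _, d'⟩ <;>
    rw [d, d', Prod.mk.injEq] at he <;> obtain ⟨e1, e2⟩ := he
    · rw [e2]
    · subst e2; subst e1
      exact absurd ⟨a0 rfl, Nat.zero_le _⟩ (a1' rfl).1
    · omega
    · subst e2; subst e1
      obtain ⟨z, hz, hzy, hzx⟩ := a3' rfl
      exact absurd (Nat.zero_le _) (g1 _ _ z hz hzy hzx (a0 rfl))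
    · subst e2; subst e1
      exact absurd ⟨a0' rfl, Nat.zero_le _⟩ (a1 rfl).1
    · rw [e1, e2]
    · subst e2; subst e1
      exact absurd ⟨(a2' rfl).1, (a2' rfl).2⟩ (a1 rfl).1
    · subst e2; subst e1
      obtain ⟨z, hz, hzy, hzx⟩ := a3' rfl
      exact absurd hzx ((a1 rfl).2 z hz (by omega))
    · omega
    · subst e2; subst e1
      exact absurd ⟨(a2 rfl).1, (a2 rfl).2⟩ (a1' rfl).1
    · rw [e2, show x = x' by omega]
    · subst e2; subst e1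
      obtain ⟨z, hz, hzy, hzx⟩ := a3' rfl
      exact absurd (a2 rfl).2 (g1 _ _ z hz hzy hzx (a2 rfl).1)
    · subst e2; subst e1
      obtain ⟨z, hz, hzy, hzx⟩ := a3 rfl
      exact absurd (Nat.zero_le _) (g1 _ _ z hz hzy hzx (a0' rfl))
    · subst e2; subst e1
      obtain ⟨z, hz, hzy, hzx⟩ := a3 rfl
      exact absurd hzx ((a1' rfl).2 z hz (by omega))
    · subst e2; subst e1
      obtain ⟨z, hz, hzy, hzx⟩ := a3 rfl
      exact absurd (a2' rfl).2 (g1 _ _ z hz hzy hzx (a2' rfl).1)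
    · rw [e1, show y = y' by omega]
  · rintro ⟨a, y⟩ hu
    rw [mem_rowF] at hu
    constructor
    · rintro ⟨⟨t, x, y'⟩, hp, he⟩ ha
      simp only at ha ⊢
      obtain ⟨g, a0, _⟩ := (hmem _ _ _).1 hp
      rcases rel_cases g with ⟨rfl, _, _, d, _⟩ | ⟨_, _, d, _⟩ | ⟨_, _, _, d, _⟩ |
        ⟨_, _, d, _⟩ <;> rw [d, Prod.mk.injEq] at he
      · rw [← he.2]; exact a0 rfl
      · omega
      · omega
      · omega
    · intro h
      rcases Nat.eq_zero_or_pos a with ha | ha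
      · subst ha
        have hyA : y ∈ A := h rfl
        refine ⟨(0, 0, y), (hmem _ _ _).2 ⟨mem_posF.2 ⟨by omega, by omega, hu.2, by omega,
          by omega⟩, fun _ => hyA, by omega, by omega, by omega⟩, by simp [rowN]⟩
      · obtain ⟨x, rfl⟩ : ∃ x, a = x + 1 := ⟨a - 1, by omega⟩
        by_cases c1 : y ∈ A ∧ x < σ y
        · have := hσk y c1.1
          exact ⟨(2, x, y), (hmem _ _ _).2 ⟨mem_posF.2 ⟨by omega, by omega, hu.2, by omega,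
            by omega⟩, by omega, fun _ => c1, by omega, by omega⟩, by simp [rowN]⟩
        · by_cases c2 : ∃ y' ∈ A, y' ≤ y ∧ σ y' = x
          · exact ⟨(3, x, y), (hmem _ _ _).2 ⟨mem_posF.2 ⟨by omega, by omega, hu.2, by omega,
              by omega⟩, by omega, by omega, fun _ => c2, by omega⟩, by simp [rowN]⟩
          · refine ⟨(1, x, y), (hmem _ _ _).2 ⟨mem_posF.2 ⟨by omega, by omega, hu.2, by omega,
              by omega⟩, by omega, by omega, by omega, fun _ => ⟨?_, ?_⟩⟩, by simp [rowN]⟩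
            · rintro ⟨d1, d2⟩
              rcases Nat.lt_or_ge x (σ y) with d3 | d3
              · exact c1 ⟨d1, d3⟩
              · exact c2 ⟨y, d1, le_refl _, by omega⟩
            · intro y' hy' hyy hx
              exact c2 ⟨y', hy', hyy, hx⟩
  · rintro ⟨x, b⟩ hu
    rw [mem_colF] at hu
    constructor
    · rintro ⟨⟨t, x', y'⟩, hp, he⟩ hb
      simp only at hb ⊢
      obtain ⟨g, a0, a2, a3, a1⟩ := (hmem _ _ _).1 hp
      have g' := mem_posF.1 g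
      rcases rel_cases g with ⟨rfl, _, _, _, d⟩ | ⟨_, _, _, d⟩ | ⟨_, _, _, _, d⟩ |
        ⟨rfl, _, _, d⟩ <;> rw [d, Prod.mk.injEq] at he
      · omega
      · omega
      · omega
      · obtain ⟨z, hz, _, hzx⟩ := a3 rfl
        rw [← he.1, ← hzx]
        exact h1 z hz
    · intro h
      rcases Nat.lt_or_ge b k with hb | hb
      · by_cases c1 : b ∈ A ∧ x ≤ σ b
        · rcases Nat.eq_zero_or_pos x with hx | hx
          · subst hx
            exact ⟨(0, 0, b), (hmem _ _ _).2 ⟨mem_posF.2 ⟨by omega, by omega, hb, by omega,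
              by omega⟩, fun _ => c1.1, by omega, by omega, by omega⟩, by simp [colN]⟩
          · obtain ⟨x', rfl⟩ : ∃ x', x = x' + 1 := ⟨x - 1, by omega⟩
            exact ⟨(2, x', b), (hmem _ _ _).2 ⟨mem_posF.2 ⟨by omega, by omega, hb, by omega,
              by omega⟩, by omega, fun _ => ⟨c1.1, by omega⟩, by omega, by omega⟩,
              by simp [colN]⟩
        · by_cases c2 : ∃ y' ∈ A, y' ≤ b ∧ σ y' = x
          · obtain ⟨y', hy', hyb, hyx⟩ := c2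
            have hne : y' ≠ b := by
              rintro rfl
              exact c1 ⟨hy', by omega⟩
            obtain ⟨b', rfl⟩ : ∃ b', b = b' + 1 := ⟨b - 1, by omega⟩
            exact ⟨(3, x, b'), (hmem _ _ _).2 ⟨mem_posF.2 ⟨by omega, by omega, by omega, by omega,
              by omega⟩, by omega, by omega, fun _ => ⟨y', hy', by omega, hyx⟩, by omega⟩,
              by simp [colN]⟩
          · refine ⟨(1, x, b), (hmem _ _ _).2 ⟨mem_posF.2 ⟨by omega, by omega, hb, by omega,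
              by omega⟩, by omega, by omega, by omega, fun _ => ⟨c1, ?_⟩⟩, by simp [colN]⟩
            intro y' hy' hyy hx
            exact c2 ⟨y', hy', hyy, hx⟩
      · obtain rfl : b = k := by omega
        obtain ⟨y, hy, hyx⟩ := h2 x (h rfl)
        have hyk := hA y hy
        obtain ⟨b', rfl⟩ : ∃ b', b = b' + 1 := ⟨b - 1, by omega⟩
        exact ⟨(3, x, b'), (hmem _ _ _).2 ⟨mem_posF.2 ⟨by omega, by omega, by omega, by omega,
          by omega⟩, by omega, by omega, fun _ => ⟨y, hy, by omega, hyx⟩, by omega⟩,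
          by simp [colN]⟩

end Net

end BIC
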