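import Pool.Agent.Helper34.BIC.Core

open Set
open scoped Matroid

namespace BIC

variable {α : Type*}

open Net

/-- index set of the conditions: pairs of subsets of `range k` of equal size -/
abbrev condF (k : ℕ) : Finset (Finset ℕ × Finset ℕ) :=
  ((Finset.range k).powerset ×ˢ (Finset.range k).powerset).filter (fun AB => AB.1.card = AB.2.card)

abbrev Cond (k : ℕ) : Type := ↥(condF k)

lemma card_Cond (k : ℕ) : Fintype.card (Cond k) ≤ 4 ^ k := by
  rw [Fintype.card_coe]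
  refine (Finset.card_filter_le _ _).trans ?_
  rw [Finset.card_product, Finset.card_powerset, Finset.card_range]
  rw [show (4 : ℕ) = 2 * 2 from rfl, mul_pow]

/-- One side with ports chosen in increasing blocks. -/
structure PortSide (ι : Type) [Fintype ι] {V : Type} (M : Matroid α) (S : Set α)
    (ends : α → Sym2 V) (ψ : V → α) (N : ℕ) (X : Set α) (W : ℕ × ℕ → Set V) (f : α → ℕ × ℕ)
    (m : ℕ) (B : ℕ → Set α) : Prop where
  board : Board ι M S ends ψ N X W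
  hf : ∀ x ∈ X, (f x).1 < N ∧ (f x).2 ≤ N / 2 ∧ x ∈ ψ '' W (f x)
  inj : InjOn (fun x => (f x).1) X
  sub : ∀ i < m, B i ⊆ X
  inc : ∀ i j, i < j → j < m → ∀ x ∈ B i, ∀ x' ∈ B j, (f x).1 < (f x').1

lemma PortSide.reflect {ι : Type} [Fintype ι] {V : Type} {M : Matroid α} {S : Set α}
    {ends : α → Sym2 V} {ψ : V → α} {N : ℕ} {X : Set α} {W : ℕ × ℕ → Set V} {f : α → ℕ × ℕ}
    {m : ℕ} {B : ℕ → Set α} (board : Board ι M S ends ψ N X W)
    (hf : ∀ x ∈ X, (f x).1 < N ∧ (f x).2 ≤ N / 2 ∧ x ∈ ψ '' W (f x))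
    (inj : InjOn (fun x => (f x).1) X) (sub : ∀ i < m, B i ⊆ X)
    (dec : ∀ i j, i < j → j < m → ∀ x ∈ B i, ∀ x' ∈ B j, (f x').1 < (f x).1) :
    PortSide ι M S ends ψ N X (fun c => W (N - 1 - c.1, c.2))
      (fun x => (N - 1 - (f x).1, (f x).2)) m B where
  board := board.reflectLine
  hf := by
    intro x hx
    obtain ⟨h1, h2, h3⟩ := hf x hx
    refine ⟨by simp only; omega, h2, ?_⟩
    simp only
    rw [show N - 1 - (N - 1 - (f x).1) = (f x).1 by omega]
    exact h3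
  inj := by
    intro x hx y hy hxy
    have h1 := (hf x hx).1
    have h2 := (hf y hy).1
    simp only at hxy
    exact inj hx hy (by simp only; omega)
  sub := sub
  inc := by
    intro i j hij hj x hx x' hx'
    have h1 := dec i j hij hj x hx x' hx'
    have h2 := (hf x (sub i (by omega) hx)).1
    simp only
    omega

lemma PortSide.rows [Nonempty α] {k : ℕ} {V : Type} {M : Matroid α} {S : Set α}
    {ends : α → Sym2 V} {ψ : V → α} {N : ℕ} {X : Set α} {W : ℕ × ℕ → Set V} {f : α → ℕ × ℕ}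
    {B : ℕ → Set α} (h : PortSide (Cond k) M S ends ψ N X W f (3 * k * k) B) (hfin : X.Finite)
    (hkN : N / 2 + k < N) (hne : ∀ i < 3 * k * k, (B i).Nonempty)
    (μ : Cond k → Set (ℕ × ℕ × ℕ)) (hμP : ∀ i, μ i ⊆ (posF k : Set (ℕ × ℕ × ℕ)))
    (hμ : ∀ i, InjOn rowN (μ i)) (xs : Cond k → ℕ × ℕ × ℕ → α)
    (hxs : ∀ i, ∀ p ∈ μ i, xs i p ∈ B (keyN k p))
    (R : Cond k → Set α) (hR : ∀ i, Disjoint (R i) S)
    (hbase : ∀ i, M.IsBase (R i ∪ (range ψ \ (xs i '' μ i)))) :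
    ∃ (C : Set α) (ℓ : ℕ × ℕ → α), C ⊆ S ∧ (∀ u ∈ rowF k, ℓ u ∈ S ∧ ℓ u ∉ C) ∧
      InjOn ℓ (rowF k : Set (ℕ × ℕ)) ∧
      ∀ i, M.IsBase (R i ∪ (C ∪ ℓ '' {u | u ∈ rowF k ∧ u ∉ rowN '' μ i})) := by
  classical
  have hrow : ∀ p ∈ posF k, rowN p ∈ rowF k := by
    rintro ⟨t, x, y⟩ hp
    have hp' := mem_posF.1 hp
    rcases rel_cases hp with ⟨_, _, _, d, _⟩ | ⟨_, _, d, _⟩ | ⟨_, _, _, d, _⟩ | ⟨_, _, d, _⟩ <;>
      rw [d, mem_rowF] <;> omega
  obtain ⟨C, ℓ, h1, h2, h3, h4⟩ := h.board.sideFull (κ := ↥(rowF k)) (π := ↥(posF k)) hfin f h.hf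
    h.inj (fun p => ⟨rowN p.1, hrow p.1 p.2⟩) (fun p => keyN k p.1) (fun u => depR k u.1)
    (by
      rintro ⟨⟨x, y⟩, hu⟩
      have hu' := mem_rowF.1 hu
      rcases Nat.eq_zero_or_pos x with hx | hx
      · subst hx
        refine ⟨⟨(0, 0, y), mem_posF.2 ⟨by omega, by omega, hu'.2, by omega, by omega⟩⟩, ?_⟩
        simp [rowN]
      · refine ⟨⟨(1, x - 1, y), mem_posF.2 ⟨by omega, by omega, hu'.2, by omega, by omega⟩⟩, ?_⟩
        simp only [rowN, Subtype.mk.injEq]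
        rw [if_neg (by omega), show x - 1 + 1 = x by omega])
    (fun p p' hpp => Subtype.ext (key_inj p.2 p'.2 hpp))
    (by
      intro p₁ p p₂ hk₁ hk₂ hr hne'
      exact nest_row p₁.2 p.2 p₂.2 hk₁ hk₂ (Subtype.ext_iff.1 hr)
        (fun hh => hne' (Subtype.ext hh)))
    (by
      intro u
      have := depR_le k u.1
      omega)
    (fun p => B (keyN k p.1)) (fun p => h.sub _ (key_lt p.2)) (fun p => hne _ (key_lt p.2))
    (by
      intro p p' hpp
      exact h.inc _ _ hpp (key_lt p'.2))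
    (fun i => {p | p.1 ∈ μ i}) (fun i p => xs i p.1) (fun i p hp => hxs i p.1 hp)
    (by
      intro i p hp p' hp' hpp
      exact Subtype.ext (hμ i hp hp' (Subtype.ext_iff.1 hpp))) R hR
    (by
      intro i
      have : (fun p : ↥(posF k) => xs i p.1) '' {p | p.1 ∈ μ i} = xs i '' μ i := by
        ext z
        constructor
        · rintro ⟨p, hp, rfl⟩
          exact ⟨p.1, hp, rfl⟩
        · rintro ⟨p, hp, rfl⟩
          exact ⟨⟨p, hμP i hp⟩, hp, rfl⟩
      rw [this]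
      exact hbase i)
  obtain ⟨a⟩ := (inferInstance : Nonempty α)
  refine ⟨C, fun u => if hu : u ∈ rowF k then ℓ ⟨u, hu⟩ else a, h1, ?_, ?_, ?_⟩
  · intro u hu
    simp only [dif_pos hu]
    exact h2 _
  · intro u hu u' hu' huu
    have hu1 : u ∈ rowF k := hu
    have hu1' : u' ∈ rowF k := hu'
    simp only [dif_pos hu1, dif_pos hu1'] at huu
    exact Subtype.ext_iff.1 (h3 huu)
  · intro i
    have h5 := h4 i
    have e : ℓ '' {u | u ∉ (fun p : ↥(posF k) => (⟨rowN p.1, hrow p.1 p.2⟩ : ↥(rowF k))) ''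
        {p | p.1 ∈ μ i}} = (fun u => if hu : u ∈ rowF k then ℓ ⟨u, hu⟩ else a) ''
        {u | u ∈ rowF k ∧ u ∉ rowN '' μ i} := by
      ext z
      constructor
      · rintro ⟨u, hu, rfl⟩
        refine ⟨u.1, ⟨u.2, ?_⟩, by simp only [dif_pos u.2]⟩
        rintro ⟨p, hp, hpu⟩
        exact hu ⟨⟨p, hμP i hp⟩, hp, Subtype.ext hpu⟩
      · rintro ⟨u, ⟨hu, hu'⟩, rfl⟩
        refine ⟨⟨u, hu⟩, ?_, by simp only [dif_pos hu]⟩
        rintro ⟨p, hp, hpu⟩
        exact hu' ⟨p.1, hp, Subtype.ext_iff.1 hpu⟩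
    rw [e] at h5
    exact h5

lemma PortSide.cols [Nonempty α] {k : ℕ} {V : Type} {M : Matroid α} {S : Set α}
    {ends : α → Sym2 V} {ψ : V → α} {N : ℕ} {X : Set α} {W : ℕ × ℕ → Set V} {f : α → ℕ × ℕ}
    {B : ℕ → Set α} (h : PortSide (Cond k) M S ends ψ N X W f (3 * k * k) B) (hfin : X.Finite)
    (hkN : N / 2 + k < N) (hne : ∀ i < 3 * k * k, (B i).Nonempty)
    (μ : Cond k → Set (ℕ × ℕ × ℕ)) (hμP : ∀ i, μ i ⊆ (posF k : Set (ℕ × ℕ × ℕ)))
    (hμ : ∀ i, InjOn colN (μ i)) (xs : Cond k → ℕ × ℕ × ℕ → α)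
    (hxs : ∀ i, ∀ p ∈ μ i, xs i p ∈ B (keyN k p))
    (R : Cond k → Set α) (hR : ∀ i, Disjoint (R i) S)
    (hbase : ∀ i, M.IsBase (R i ∪ (range ψ \ (xs i '' μ i)))) :
    ∃ (C : Set α) (ℓ : ℕ × ℕ → α), C ⊆ S ∧ (∀ u ∈ colF k, ℓ u ∈ S ∧ ℓ u ∉ C) ∧
      InjOn ℓ (colF k : Set (ℕ × ℕ)) ∧
      ∀ i, M.IsBase (R i ∪ (C ∪ ℓ '' {u | u ∈ colF k ∧ u ∉ colN '' μ i})) := by
  classical
  have hcol : ∀ p ∈ posF k, colN p ∈ colF k := by
    rintro ⟨t, x, y⟩ hp
    have hp' := mem_posF.1 hp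
    rcases rel_cases hp with ⟨_, _, _, _, d⟩ | ⟨_, _, _, d⟩ | ⟨_, _, _, _, d⟩ | ⟨_, _, _, d⟩ <;>
      rw [d, mem_colF] <;> omega
  obtain ⟨C, ℓ, h1, h2, h3, h4⟩ := h.board.sideFull (κ := ↥(colF k)) (π := ↥(posF k)) hfin f h.hf
    h.inj (fun p => ⟨colN p.1, hcol p.1 p.2⟩) (fun p => keyN k p.1) (fun u => depC k u.1)
    (by
      rintro ⟨⟨x, y⟩, hu⟩
      have hu' := mem_colF.1 hu
      rcases Nat.lt_or_ge y k with hy | hy
      · refine ⟨⟨(1, x, y), mem_posF.2 ⟨by omega, by omega, hy, by omega, by omega⟩⟩, ?_⟩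
        simp [colN]
      · refine ⟨⟨(3, x, y - 1), mem_posF.2 ⟨by omega, by omega, by omega, by omega, by omega⟩⟩, ?_⟩
        simp only [colN, Subtype.mk.injEq]
        rw [if_neg (by omega), if_neg (by omega), if_neg (by omega), show y - 1 + 1 = y by omega])
    (fun p p' hpp => Subtype.ext (key_inj p.2 p'.2 hpp))
    (by
      intro p₁ p p₂ hk₁ hk₂ hr hne'
      exact nest_col p₁.2 p.2 p₂.2 hk₁ hk₂ (Subtype.ext_iff.1 hr)
        (fun hh => hne' (Subtype.ext hh)))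
    (by
      intro u
      have := depC_le u.2
      omega)
    (fun p => B (keyN k p.1)) (fun p => h.sub _ (key_lt p.2)) (fun p => hne _ (key_lt p.2))
    (by
      intro p p' hpp
      exact h.inc _ _ hpp (key_lt p'.2))
    (fun i => {p | p.1 ∈ μ i}) (fun i p => xs i p.1) (fun i p hp => hxs i p.1 hp)
    (by
      intro i p hp p' hp' hpp
      exact Subtype.ext (hμ i hp hp' (Subtype.ext_iff.1 hpp))) R hR
    (by
      intro i
      have : (fun p : ↥(posF k) => xs i p.1) '' {p | p.1 ∈ μ i} = xs i '' μ i := by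
        ext z
        constructor
        · rintro ⟨p, hp, rfl⟩
          exact ⟨p.1, hp, rfl⟩
        · rintro ⟨p, hp, rfl⟩
          exact ⟨⟨p, hμP i hp⟩, hp, rfl⟩
      rw [this]
      exact hbase i)
  obtain ⟨a⟩ := (inferInstance : Nonempty α)
  refine ⟨C, fun u => if hu : u ∈ colF k then ℓ ⟨u, hu⟩ else a, h1, ?_, ?_, ?_⟩
  · intro u hu
    simp only [dif_pos hu]
    exact h2 _
  · intro u hu u' hu' huu
    have hu1 : u ∈ colF k := hu
    have hu1' : u' ∈ colF k := hu'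
    simp only [dif_pos hu1, dif_pos hu1'] at huu
    exact Subtype.ext_iff.1 (h3 huu)
  · intro i
    have h5 := h4 i
    have e : ℓ '' {u | u ∉ (fun p : ↥(posF k) => (⟨colN p.1, hcol p.1 p.2⟩ : ↥(colF k))) ''
        {p | p.1 ∈ μ i}} = (fun u => if hu : u ∈ colF k then ℓ ⟨u, hu⟩ else a) ''
        {u | u ∈ colF k ∧ u ∉ colN '' μ i} := by
      ext z
      constructor
      · rintro ⟨u, hu, rfl⟩
        refine ⟨u.1, ⟨u.2, ?_⟩, by simp only [dif_pos u.2]⟩
        rintro ⟨p, hp, hpu⟩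
        exact hu ⟨⟨p, hμP i hp⟩, hp, Subtype.ext hpu⟩
      · rintro ⟨u, ⟨hu, hu'⟩, rfl⟩
        refine ⟨⟨u, hu⟩, ?_, by simp only [dif_pos hu]⟩
        rintro ⟨p, hp, hpu⟩
        exact hu' ⟨p.1, hp, Subtype.ext_iff.1 hpu⟩
    rw [e] at h5
    exact h5

/-- The core theorem: `E = S ⊔ T`. -/
theorem core {k : ℕ} (hk : 1 ≤ k) {M : Matroid α} [M.Finite] {S T : Set α} (hST : Disjoint S T)
    (hE : M.E = S ∪ T) {N N' w n q₂ q₁ q₀ : ℕ} (hS : SideData (Cond k) M S N w)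
    (hT : SideData (Cond k) M✶ T N' w) (hκ : n + rk M M.E ≤ rk M S + rk M T)
    (hkN : N / 2 + k < N) (hkN' : N' / 2 + k < N')
    (hq₂ : 4 ^ (2 * (3 * k * k)) * (k * k + k) ≤ q₂) (hq₁ : (2 * q₂) ^ 2 ≤ q₁)
    (hq₀ : (2 * q₁) ^ 2 ≤ q₀) (hn : w * (w * q₀ + 1) + 1 < n) : HasUniformMinor M k := by
  classical
  obtain ⟨V, ends, ψ, W, v₀, hbS, hF, hvS, hwS⟩ := hS
  obtain ⟨V', ends', ψ', W', v₀', hbT, hF', hvT, hwT⟩ := hT
  have hG := base_union hST hE hF hF'
  obtain ⟨F₀, hF₀F, hF₀n, hF₀s⟩ := exists_F0 hST hE hF hκ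
  have hfin := M.ground_finite
  have hFS : range ψ ⊆ S := hF.subset
  have hF'T : range ψ' ⊆ T := hF'.subset
  have hSfin : S.Finite := hfin.subset (by rw [hE]; exact subset_union_left)
  have hTfin : T.Finite := hfin.subset (by rw [hE]; exact subset_union_right)
  have hTE : T ⊆ M.E := by rw [hE]; exact subset_union_right
  have hFfin : (range ψ).Finite := hSfin.subset hFS
  have hF'fin : (range ψ').Finite := hTfin.subset hF'T
  -- X : one element per cell
  obtain ⟨X, f, hXF₀, hXn, hXs, hXf, hXi⟩ := one_per_cell (hbS ∅ (by simp)) hvS hwS hF₀F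
    (hFfin.subset hF₀F)
  have hXF : X ⊆ range ψ := hXF₀.trans hF₀F
  have hXfin : X.Finite := hFfin.subset hXF
  have hXn' : w * q₀ + 1 < X.ncard := by
    by_contra hcon
    push Not at hcon
    have := Nat.mul_le_mul_left w hcon
    omega
  set G : Set α := range ψ ∪ (T \ range ψ') with hGdef
  have hXG : X ⊆ G := hXF.trans subset_union_left
  have hGfin : G.Finite := base_fin hG
  have hF'G : Disjoint (range ψ') G := by
    rw [Set.disjoint_left]
    intro e he h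
    rcases h with h | h
    · exact Set.disjoint_left.1 hST (hFS h) (hF'T he)
    · exact h.2 he
  -- the base B₂
  have hsp : M.Spanning ((G \ X) ∪ T) := by
    refine hF₀s.superset ?_ ?_
    · refine union_subset_union_left _ ?_
      intro e he
      exact ⟨Or.inl he.1, fun h => he.2 (hXF₀ h)⟩
    · exact union_subset (sdiff_subset.trans hG.subset_ground) hTE
  obtain ⟨B₂, hB₂, hB₂1, hB₂2⟩ := (hG.indep.subset (sdiff_subset (t := X))).exists_isBase_subset_spanning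
    hsp subset_union_left
  set G₀ : Set α := B₂ \ (G \ X) with hG₀
  have hG₀F' : G₀ ⊆ range ψ' := by
    intro e he
    rcases hB₂2 he.1 with h | h
    · exact absurd h he.2
    · by_contra hcon
      refine he.2 ⟨Or.inr ⟨h, hcon⟩, fun hX => ?_⟩
      exact Set.disjoint_left.1 hST (hFS (hXF hX)) h
  have hG₀c : G₀.ncard = X.ncard := by
    have h1 := Set.ncard_sdiff_add_ncard_of_subset hB₂1 (base_fin hB₂)
    have h2 := Set.ncard_sdiff_add_ncard_of_subset hXG hGfin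
    have h3 := hB₂.ncard_eq_ncard_of_isBase hG
    rw [hG₀]
    omega
  -- Y
  obtain ⟨Y₀, g, hY₀G₀, hY₀n, hY₀s, hY₀f, hY₀i⟩ := one_per_cell (hbT ∅ (by simp)) hvT hwT hG₀F'
    (hF'fin.subset hG₀F')
  have hY₀n' : q₀ ≤ Y₀.ncard := by
    by_contra hcon
    push Not at hcon
    have := Nat.mul_le_mul_left w hcon.le
    omega
  have hY₀fin : Y₀.Finite := hF'fin.subset (hY₀G₀.trans hG₀F')
  obtain ⟨W'₁, Y₁, g₁, hY₁Y₀, hY₁n, hbT₁, hg₁, hg₁i⟩ := (hbT Y₀ hY₀s).good_view hY₀fin g hY₀f hY₀i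
    (hq₀.trans hY₀n')
  have hY₁F' : Y₁ ⊆ range ψ' := hY₁Y₀.trans (hY₀G₀.trans hG₀F')
  have hY₁fin : Y₁.Finite := hF'fin.subset hY₁F'
  -- B₃
  have hi3 : M.Indep ((G \ X) ∪ Y₁) := by
    refine hB₂.indep.subset (union_subset hB₂1 ?_)
    exact (hY₁Y₀.trans hY₀G₀).trans sdiff_subset
  have hGY : M.Spanning (G ∪ Y₁) := hG.spanning_of_superset subset_union_left
    (union_subset hG.subset_ground (hY₁F'.trans (hF'T.trans hTE)))
  obtain ⟨B₃, hB₃, hB₃1, hB₃2⟩ := hi3.exists_isBase_subset_spanning hGY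
    (union_subset_union_left _ sdiff_subset)
  set X₁ : Set α := X \ B₃ with hX₁
  have hB₃eq : B₃ = (G \ X₁) ∪ Y₁ := by
    apply Subset.antisymm
    · intro e he
      rcases hB₃2 he with h | h
      · exact Or.inl ⟨h, fun h' => h'.2 he⟩
      · exact Or.inr h
    · refine union_subset ?_ (subset_union_right.trans hB₃1)
      intro e he
      by_cases heX : e ∈ X
      · by_contra hcon
        exact he.2 ⟨heX, hcon⟩
      · exact hB₃1 (Or.inl ⟨he.1, heX⟩)
  have hX₁X : X₁ ⊆ X := sdiff_subset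
  have hX₁c : X₁.ncard = Y₁.ncard := by
    have h1 := hB₃.ncard_eq_ncard_of_isBase hG
    rw [hB₃eq, Set.ncard_union_eq ((hF'G.mono hY₁F' sdiff_subset).symm)
      (hGfin.subset sdiff_subset) hY₁fin] at h1
    have h2 := Set.ncard_sdiff_add_ncard_of_subset (hX₁X.trans hXG) hGfin
    omega
  obtain ⟨W₂, X₂, f₂, hX₂X₁, hX₂n, hbS₂, hf₂, hf₂i⟩ := ((hbS X hXs).mono hX₁X).good_view
    (hXfin.subset hX₁X) f (fun x hx => hXf x (hX₁X hx)) (hXi.mono hX₁X) (q := q₂)
    (by rw [hX₁c]; exact hq₁.trans hY₁n)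
  have hX₂X : X₂ ⊆ X := hX₂X₁.trans hX₁X
  have hX₂G : X₂ ⊆ G := hX₂X.trans hXG
  have hX₂fin : X₂.Finite := hXfin.subset hX₂X
  -- rho
  have hrho : 4 ^ (2 * (3 * k * k)) * (k * k + k) ≤ rho M G X₂ Y₁ := by
    have h1 := rho_add hG X₂ Y₁
    have h2 : rk M ((G \ X₂) ∪ Y₁) = G.ncard := by
      rw [rk_superset_base hB₃]
      · exact hB₃.ncard_eq_ncard_of_isBase hG
      · rw [hB₃eq]
        exact union_subset_union_left _ (sdiff_subset_sdiff_right hX₂X₁)
    have h3 := Set.ncard_sdiff_add_ncard_of_subset hX₂G hGfin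
    omega
  obtain ⟨BX, BY, hB1, hB2, hB3⟩ := rho_blocks (N := max N N') hG hX₂G hf₂i hg₁i
    (fun x hx => lt_of_lt_of_le (hf₂ x hx).1 (le_max_left _ _))
    (fun y hy => lt_of_lt_of_le (hg₁ y hy).1 (le_max_right _ _)) hrho
  have hPS : PortSide (Cond k) M S ends ψ N X₂ W₂ f₂ (3 * k * k) BX :=
    ⟨hbS₂, hf₂, hf₂i, fun i hi => (hB1 i hi).1, hB2⟩
  obtain ⟨W'₂, g₂, hPT⟩ : ∃ W'₂ g₂, PortSide (Cond k) M✶ T ends' ψ' N' Y₁ W'₂ g₂ (3 * k * k) BY := by
    rcases hB3 with h | h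
    · exact ⟨W'₁, g₁, hbT₁, hg₁, hg₁i, fun i hi => (hB1 i hi).2.1, h⟩
    · exact ⟨_, _, PortSide.reflect hbT₁ hg₁ hg₁i (fun i hi => (hB1 i hi).2.1) h⟩
  -- conditions
  have hcond : ∀ i : Cond k, (∀ y ∈ i.1.1, y < k) ∧ (∀ x ∈ i.1.2, x < k) ∧
      i.1.1.card = i.1.2.card := by
    rintro ⟨⟨A, B⟩, hi⟩
    have h1 := Finset.mem_filter.1 hi
    have h2 := Finset.mem_product.1 h1.1
    refine ⟨fun y hy => ?_, fun x hx => ?_, h1.2⟩
    · exact Finset.mem_range.1 (Finset.mem_powerset.1 h2.1 hy)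
    · exact Finset.mem_range.1 (Finset.mem_powerset.1 h2.2 hx)
  have hrout : ∀ i : Cond k, ∃ μ : Set (ℕ × ℕ × ℕ), μ ⊆ (posF k : Set (ℕ × ℕ × ℕ)) ∧
      InjOn rowN μ ∧ InjOn colN μ ∧ (∀ u ∈ rowF k, u ∈ rowN '' μ ↔ (u.1 = 0 → u.2 ∈ i.1.1)) ∧
      (∀ u ∈ colF k, u ∈ colN '' μ ↔ (u.2 = k → u.1 ∈ i.1.2)) := fun i =>
    exists_routing (hcond i).1 (hcond i).2.1 (hcond i).2.2
  choose μ hμP hμr hμc hμrow hμcol using hrout
  have hμfin : ∀ i, (μ i).Finite := fun i => (Finset.finite_toSet (posF k)).subset (hμP i)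
  have hrow : ∀ p ∈ posF k, rowN p ∈ rowF k := by
    rintro ⟨t, x, y⟩ hp
    have hp' := mem_posF.1 hp
    rcases rel_cases hp with ⟨_, _, _, d, _⟩ | ⟨_, _, d, _⟩ | ⟨_, _, _, d, _⟩ | ⟨_, _, d, _⟩ <;>
      rw [d, mem_rowF] <;> omega
  have hμcard : ∀ i, (hμfin i).toFinset.card ≤ k * k + k := by
    intro i
    have h1 : (hμfin i).toFinset.card ≤ (rowF k).card := by
      refine Finset.card_le_card_of_injOn rowN ?_ ?_
      · intro p hp
        exact hrow p (hμP i ((Set.Finite.mem_toFinset _).1 hp))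
      · intro p hp p' hp' hpp
        exact hμr i ((Set.Finite.mem_toFinset _).1 hp) ((Set.Finite.mem_toFinset _).1 hp') hpp
    have h2 : (rowF k).card = k * k + k := by
      unfold rowF
      rw [Finset.card_product, Finset.card_range, Finset.card_range]
      ring
    omega
  have hθ : 1 ≤ k * k + k := by
    have := Nat.le_add_left k (k * k)
    omega
  have hne : Nonempty α := by
    have : rho M G X₂ Y₁ ≠ 0 := by
      intro h0
      rw [h0] at hrho
      have : 0 < 4 ^ (2 * (3 * k * k)) * (k * k + k) := by positivity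
      omega
    by_contra hα
    have hXe : X₂ = ∅ := by
      ext x
      exact absurd ⟨x⟩ hα
    rw [hXe, rho_X_empty hG] at this
    exact this rfl
  have hkey : ∀ i, ∀ p ∈ μ i, keyN k p < 3 * k * k := fun i p hp => key_lt (hμP i hp)
  -- blocks are disjoint
  have hdisj : ∀ a b, a < 3 * k * k → b < 3 * k * k → a ≠ b → Disjoint (BX a) (BX b) := by
    intro a b ha hb hab
    rw [Set.disjoint_left]
    intro x hx hx'
    rcases Nat.lt_or_gt_of_ne hab with h | h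
    · have := hB2 a b h hb x hx x hx'
      omega
    · have := hB2 b a h ha x hx' x hx
      omega
  have hgr : ∀ i : Cond k, ∃ x y : ℕ × ℕ × ℕ → α, (∀ p ∈ (hμfin i).toFinset,
      x p ∈ BX (keyN k p) ∧ y p ∈ BY (keyN k p)) ∧
      M.IsBase ((G \ x '' ((hμfin i).toFinset : Set (ℕ × ℕ × ℕ))) ∪
        y '' ((hμfin i).toFinset : Set (ℕ × ℕ × ℕ))) := by
    intro i
    refine greedy hG (fun p => BX (keyN k p)) (fun p => BY (keyN k p)) (hμfin i).toFinset
      (k * k + k) (hμcard i) ?_ ?_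
    · intro p hp
      have hp' := hkey i p ((Set.Finite.mem_toFinset _).1 hp)
      obtain ⟨h1, h2, h3⟩ := hB1 _ hp'
      refine ⟨h1.trans hX₂G, ?_, h3⟩
      intro e he
      have h4 := hY₁F' (h2 he)
      exact ⟨hTE (hF'T h4), Set.disjoint_left.1 hF'G h4⟩
    · intro p hp p' hp' hpp
      have h1 := (Set.Finite.mem_toFinset _).1 hp
      have h2 := (Set.Finite.mem_toFinset _).1 hp'
      refine hdisj _ _ (hkey i p h1) (hkey i p' h2) ?_
      intro h3
      exact hpp (key_inj (hμP i h1) (hμP i h2) h3)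
  choose xs ys hxy hbase using hgr
  simp only [Set.Finite.mem_toFinset, Set.Finite.coe_toFinset] at hxy hbase
  have hBXS : ∀ a < 3 * k * k, BX a ⊆ range ψ := fun a ha => (hB1 a ha).1.trans (hX₂X.trans hXF)
  have hBYT : ∀ a < 3 * k * k, BY a ⊆ range ψ' := fun a ha => (hB1 a ha).2.1.trans hY₁F'
  have hxF : ∀ i, xs i '' μ i ⊆ range ψ := by
    rintro i _ ⟨p, hp, rfl⟩
    exact hBXS _ (hkey i p hp) (hxy i p hp).1
  have hyF : ∀ i, ys i '' μ i ⊆ range ψ' := by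
    rintro i _ ⟨p, hp, rfl⟩
    exact hBYT _ (hkey i p hp) (hxy i p hp).2
  have hBne : ∀ a < 3 * k * k, (BX a).Nonempty := by
    intro a ha
    by_contra hcon
    rw [Set.not_nonempty_iff_eq_empty] at hcon
    have := (hB1 a ha).2.2
    rw [hcon, rho_X_empty hG] at this
    omega
  have hBne' : ∀ a < 3 * k * k, (BY a).Nonempty := by
    intro a ha
    by_contra hcon
    rw [Set.not_nonempty_iff_eq_empty] at hcon
    have := (hB1 a ha).2.2
    rw [hcon, rho_Y_empty hG] at this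
    omega
  -- merging on the side of S
  obtain ⟨C₁, ℓ₁, hC₁, hℓ₁, hℓ₁i, hm₁⟩ := hPS.rows hX₂fin hkN hBne μ hμP hμr xs
    (fun i p hp => (hxy i p hp).1) (fun i => (T \ range ψ') ∪ ys i '' μ i)
    (by
      intro i
      refine Disjoint.union_left (hST.symm.mono_left sdiff_subset) ?_
      exact hST.symm.mono_left ((hyF i).trans hF'T))
    (by
      intro i
      have e : (T \ range ψ') ∪ ys i '' μ i ∪ (range ψ \ (xs i '' μ i)) =
          (G \ xs i '' μ i) ∪ ys i '' μ i := by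
        ext z
        simp only [hGdef, mem_union, mem_sdiff]
        constructor
        · rintro ((⟨h1, h2⟩ | h1) | ⟨h1, h2⟩)
          · left
            refine ⟨Or.inr ⟨h1, h2⟩, fun h3 => ?_⟩
            exact Set.disjoint_left.1 hST (hFS (hxF i h3)) h1
          · exact Or.inr h1
          · exact Or.inl ⟨Or.inl h1, h2⟩
        · rintro (⟨h1 | h1, h2⟩ | h1)
          · exact Or.inr ⟨h1, h2⟩
          · exact Or.inl (Or.inl h1)
          · exact Or.inl (Or.inr h1)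
      rw [e]
      exact hbase i)
  set L₁ : Cond k → Set α := fun i => C₁ ∪ ℓ₁ '' {u | u ∈ rowF k ∧ u ∉ rowN '' μ i} with hL₁
  have hL₁S : ∀ i, L₁ i ⊆ S := by
    intro i
    refine union_subset hC₁ ?_
    rintro _ ⟨u, hu, rfl⟩
    exact (hℓ₁ u hu.1).1
  -- merging on the side of T
  obtain ⟨C₂, ℓ₂, hC₂, hℓ₂, hℓ₂i, hm₂⟩ := hPT.cols hY₁fin hkN' hBne' μ hμP hμc ys
    (fun i p hp => (hxy i p hp).2) (fun i => S \ L₁ i)
    (by
      intro i
      exact hST.mono_left sdiff_subset)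
    (by
      intro i
      have h1 := (hm₁ i).compl_isBase_dual
      have e : M.E \ (((T \ range ψ') ∪ ys i '' μ i) ∪ L₁ i) =
          (S \ L₁ i) ∪ (range ψ' \ ys i '' μ i) := by
        ext z
        simp only [hE, mem_union, mem_sdiff]
        constructor
        · rintro ⟨h2 | h2, h3⟩
          · exact Or.inl ⟨h2, fun h4 => h3 (Or.inr h4)⟩
          · right
            refine ⟨?_, fun h4 => h3 (Or.inl (Or.inr h4))⟩
            by_contra h4
            exact h3 (Or.inl (Or.inl ⟨h2, h4⟩))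
        · rintro (⟨h2, h3⟩ | ⟨h2, h3⟩)
          · refine ⟨Or.inl h2, ?_⟩
            rintro ((h4 | h4) | h4)
            · exact Set.disjoint_left.1 hST h2 h4.1
            · exact Set.disjoint_left.1 hST h2 (hF'T (hyF i h4))
            · exact h3 h4
          · refine ⟨Or.inr (hF'T h2), ?_⟩
            rintro ((h4 | h4) | h4)
            · exact h4.2 h2
            · exact h3 h4
            · exact Set.disjoint_left.1 hST (hL₁S i h4) (hF'T h2)
      rw [← e]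
      exact h1)
  -- final bases
  have hfinal : ∀ i, M.IsBase (L₁ i ∪ (T \ (C₂ ∪ ℓ₂ '' {u | u ∈ colF k ∧ u ∉ colN '' μ i}))) := by
    intro i
    have h1 := (hm₂ i).compl_isBase_dual
    rw [Matroid.dual_dual, Matroid.dual_ground] at h1
    have hsubT : C₂ ∪ ℓ₂ '' {u | u ∈ colF k ∧ u ∉ colN '' μ i} ⊆ T := by
      refine union_subset hC₂ ?_
      rintro _ ⟨u, hu, rfl⟩
      exact (hℓ₂ u hu.1).1
    have e : M.E \ ((S \ L₁ i) ∪ (C₂ ∪ ℓ₂ '' {u | u ∈ colF k ∧ u ∉ colN '' μ i})) =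
        L₁ i ∪ (T \ (C₂ ∪ ℓ₂ '' {u | u ∈ colF k ∧ u ∉ colN '' μ i})) := by
      ext z
      simp only [hE, mem_union, mem_sdiff] at hsubT ⊢
      constructor
      · rintro ⟨h2 | h2, h3⟩
        · left
          by_contra h4
          exact h3 (Or.inl ⟨h2, h4⟩)
        · exact Or.inr ⟨h2, fun h4 => h3 (Or.inr h4)⟩
      · rintro (h2 | ⟨h2, h3⟩)
        · refine ⟨Or.inl (hL₁S i h2), ?_⟩
          rintro (h4 | h4)
          · exact h4.2 h2
          · exact Set.disjoint_left.1 hST (hL₁S i h2) (hsubT h4)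
        · refine ⟨Or.inr h2, ?_⟩
          rintro (h4 | h4)
          · exact Set.disjoint_left.1 hST h4.1 h2
          · exact h3 h4
    rw [e] at h1
    exact h1
  -- the two families
  refine uniform_minor k (C₁ ∪ (T \ (C₂ ∪ ℓ₂ '' {u | u ∈ colF k ∧ u.2 = k})))
    (fun y => ℓ₁ (0, y)) (fun x => ℓ₂ (x, k)) ?_ ?_ ?_ ?_ ?_ ?_
  · intro y hy y' hy' hyy
    have h1 := hℓ₁i (Finset.mem_coe.2 (mem_rowF.2 ⟨Nat.zero_le _, hy⟩))
      (Finset.mem_coe.2 (mem_rowF.2 ⟨Nat.zero_le _, hy'⟩)) hyy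
    exact (Prod.mk.injEq _ _ _ _ ▸ h1).2
  · intro x hx x' hx' hxx
    have h1 := hℓ₂i (Finset.mem_coe.2 (mem_colF.2 ⟨hx, le_refl k⟩))
      (Finset.mem_coe.2 (mem_colF.2 ⟨hx', le_refl k⟩)) hxx
    exact (Prod.mk.injEq _ _ _ _ ▸ h1).1
  · intro y hy x hx h1
    have h2 := (hℓ₁ (0, y) (mem_rowF.2 ⟨Nat.zero_le _, hy⟩)).1
    have h3 := (hℓ₂ (x, k) (mem_colF.2 ⟨hx, le_refl k⟩)).1
    rw [h1] at h2
    exact Set.disjoint_left.1 hST h2 h3
  · intro y hy h1
    have h2 := hℓ₁ (0, y) (mem_rowF.2 ⟨Nat.zero_le _, hy⟩)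
    rcases h1 with h1 | h1
    · exact h2.2 h1
    · exact Set.disjoint_left.1 hST h2.1 h1.1
  · intro x hx h1
    have h2 := hℓ₂ (x, k) (mem_colF.2 ⟨hx, le_refl k⟩)
    rcases h1 with h1 | h1
    · exact Set.disjoint_left.1 hST (hC₁ h1) h2.1
    · exact h1.2 (Or.inr ⟨(x, k), ⟨mem_colF.2 ⟨hx, le_refl k⟩, rfl⟩, rfl⟩)
  · intro I B hI hB hIB
    -- condition: A = complement of I
    have hAc : ((Finset.range k) \ I).card = B.card := by
      have h1 : I ⊆ Finset.range k := fun i hi => Finset.mem_range.2 (hI i hi)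
      rw [Finset.card_sdiff_of_subset h1, Finset.card_range]
      omega
    have hmem : (((Finset.range k) \ I, B) : Finset ℕ × Finset ℕ) ∈ condF k := by
      refine Finset.mem_filter.2 ⟨Finset.mem_product.2 ⟨?_, ?_⟩, hAc⟩
      · exact Finset.mem_powerset.2 Finset.sdiff_subset
      · exact Finset.mem_powerset.2 (fun i hi => Finset.mem_range.2 (hB i hi))
    have h1 := hfinal ⟨_, hmem⟩
    have hr := hμrow ⟨_, hmem⟩
    have hc := hμcol ⟨_, hmem⟩
    simp only at hr hc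
    have e : L₁ ⟨_, hmem⟩ ∪ (T \ (C₂ ∪ ℓ₂ '' {u | u ∈ colF k ∧ u ∉ colN '' μ ⟨_, hmem⟩})) =
        C₁ ∪ (T \ (C₂ ∪ ℓ₂ '' {u | u ∈ colF k ∧ u.2 = k})) ∪
        ((fun y => ℓ₁ (0, y)) '' (I : Set ℕ) ∪ (fun x => ℓ₂ (x, k)) '' (B : Set ℕ)) := by
      have e1 : ℓ₁ '' {u | u ∈ rowF k ∧ u ∉ rowN '' μ ⟨_, hmem⟩} =
          (fun y => ℓ₁ (0, y)) '' (I : Set ℕ) := by
        ext z
        constructor
        · rintro ⟨⟨x, y⟩, ⟨hu, hu'⟩, rfl⟩
          rw [hr _ hu] at hu'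
          simp only at hu'
          push Not at hu'
          obtain ⟨rfl, h3⟩ := hu'
          refine ⟨y, ?_, rfl⟩
          by_contra h4
          exact h3 (Finset.mem_sdiff.2 ⟨Finset.mem_range.2 (mem_rowF.1 hu).2, h4⟩)
        · rintro ⟨y, hy, rfl⟩
          have hu : ((0, y) : ℕ × ℕ) ∈ rowF k := mem_rowF.2 ⟨Nat.zero_le _, hI y hy⟩
          refine ⟨(0, y), ⟨hu, ?_⟩, rfl⟩
          rw [hr _ hu]
          intro h3
          exact (Finset.mem_sdiff.1 (h3 rfl)).2 hy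
      have e2 : T \ (C₂ ∪ ℓ₂ '' {u | u ∈ colF k ∧ u ∉ colN '' μ ⟨_, hmem⟩}) =
          (T \ (C₂ ∪ ℓ₂ '' {u | u ∈ colF k ∧ u.2 = k})) ∪
          (fun x => ℓ₂ (x, k)) '' (B : Set ℕ) := by
        ext z
        constructor
        · rintro ⟨hz, hz'⟩
          by_cases h3 : z ∈ ℓ₂ '' {u | u ∈ colF k ∧ u.2 = k}
          · right
            obtain ⟨⟨x, y⟩, ⟨hu, hu2⟩, rfl⟩ := h3
            simp only at hu2
            subst hu2
            refine ⟨x, ?_, rfl⟩
            by_contra h4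
            apply hz'
            right
            refine ⟨(x, y), ⟨hu, ?_⟩, rfl⟩
            rw [hc _ hu]
            intro h5
            exact h4 (h5 rfl)
          · left
            refine ⟨hz, ?_⟩
            rintro (h4 | h4)
            · exact hz' (Or.inl h4)
            · exact h3 h4
        · rintro (⟨hz, hz'⟩ | ⟨x, hx, rfl⟩)
          · refine ⟨hz, ?_⟩
            rintro (h4 | ⟨⟨x, y⟩, ⟨hu, hu'⟩, rfl⟩)
            · exact hz' (Or.inl h4)
            · rw [hc _ hu] at hu'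
              simp only at hu'
              push Not at hu'
              exact hz' (Or.inr ⟨(x, y), ⟨hu, hu'.1⟩, rfl⟩)
          · have hu : ((x, k) : ℕ × ℕ) ∈ colF k := mem_colF.2 ⟨hB x hx, le_refl k⟩
            have h5 := hℓ₂ (x, k) hu
            refine ⟨h5.1, ?_⟩
            rintro (h4 | ⟨u, ⟨hu1, hu1'⟩, huu⟩)
            · exact h5.2 h4
            · have h6 := hℓ₂i (Finset.mem_coe.2 hu1) (Finset.mem_coe.2 hu) huu
              rw [h6] at hu1'
              rw [hc _ hu] at hu1'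
              exact hu1' (fun _ => hx)
      rw [hL₁]
      simp only
      rw [e1, e2]
      ext z
      simp only [mem_union]
      tauto
    rw [e] at h1
    exact h1

end BIC
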