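import Mathlib

open Set

namespace BIC

structure Blk where
  a : ℕ
  b : ℕ
  c : ℕ
  e : ℕ

/-- block contained in the rectangle `[a,b) × [c,e)` -/
def Blk.In (B : Blk) (a b c e : ℕ) : Prop :=
  a ≤ B.a ∧ B.a ≤ B.b ∧ B.b ≤ b ∧ c ≤ B.c ∧ B.c ≤ B.e ∧ B.e ≤ e

lemma Blk.In.mono {B : Blk} {a b c e a' b' c' e' : ℕ} (h : B.In a b c e) (h1 : a' ≤ a) (h2 : b ≤ b')
    (h3 : c' ≤ c) (h4 : e ≤ e') : B.In a' b' c' e' := by
  unfold Blk.In at *
  omega

/-- discrete intermediate values -/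
lemma exists_exact (f : ℕ → ℕ) {a b v : ℕ} (hab : a ≤ b) (h0 : f a = 0)
    (hs : ∀ t, a ≤ t → f (t + 1) ≤ f t + 1) (hv : v ≤ f b) : ∃ t, a ≤ t ∧ t ≤ b ∧ f t = v := by
  induction b, hab using Nat.le_induction with
  | base => exact ⟨a, le_refl _, le_refl _, by omega⟩
  | succ b hb ih =>
    by_cases h : v ≤ f b
    · obtain ⟨t, h1, h2, h3⟩ := ih h
      exact ⟨t, h1, by omega, h3⟩
    · refine ⟨b + 1, by omega, le_refl _, ?_⟩
      have := hs b hb
      omega

lemma blocks_aux (g : ℕ → ℕ → ℕ → ℕ → ℕ) (g0 : ∀ a c e, g a a c e = 0) (g0' : ∀ a b c, g a b c c = 0)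
    (g1 : ∀ a t c e, a ≤ t → g a (t + 1) c e ≤ g a t c e + 1)
    (g1' : ∀ a b c t, c ≤ t → g a b c (t + 1) ≤ g a b c t + 1)
    (g2 : ∀ a t b c e, a ≤ t → t ≤ b → g a b c e ≤ g a t c e + g t b c e)
    (g2' : ∀ a b c t e, c ≤ t → t ≤ e → g a b c e ≤ g a b c t + g a b t e) (θ : ℕ) :
    ∀ (d a b c e : ℕ), a ≤ b → c ≤ e → 4 ^ d * θ ≤ g a b c e →
    ∃ Li Ld : List Blk, 2 ^ d ≤ Li.length * Ld.length ∧
      (∀ B ∈ Li, B.In a b c e ∧ θ ≤ g B.a B.b B.c B.e) ∧
      (∀ B ∈ Ld, B.In a b c e ∧ θ ≤ g B.a B.b B.c B.e) ∧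
      Li.Pairwise (fun B B' => B.b ≤ B'.a ∧ B.e ≤ B'.c) ∧
      Ld.Pairwise (fun B B' => B.b ≤ B'.a ∧ B'.e ≤ B.c) := by
  intro d
  induction d with
  | zero =>
    intro a b c e hab hce h
    have hin : (⟨a, b, c, e⟩ : Blk).In a b c e := by
      unfold Blk.In
      simp only
      omega
    refine ⟨[⟨a, b, c, e⟩], [⟨a, b, c, e⟩], by simp, ?_, ?_, by simp, by simp⟩
    · intro B hB
      rw [List.mem_singleton.1 hB]
      exact ⟨hin, by simpa using h⟩
    · intro B hB
      rw [List.mem_singleton.1 hB]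
      exact ⟨hin, by simpa using h⟩
  | succ d ih =>
    intro a b c e hab hce h
    have h4 : 4 ^ (d + 1) * θ = 4 * (4 ^ d * θ) := by ring
    rw [h4] at h
    generalize hv : 4 ^ d * θ = v at h
    obtain ⟨t, ht1, ht2, ht3⟩ := exists_exact (fun t => g a t c e) (v := 2 * v) hab (g0 a c e)
      (fun t ht => g1 a t c e ht) (by omega)
    have hr := g2 a t b c e ht1 ht2
    obtain ⟨s, hs1, hs2, hs3⟩ := exists_exact (fun s => g a t c s) (v := v) hce (g0' a t c)
      (fun s hs => g1' a t c s hs) (by omega)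
    have hq := g2' a t c s e hs1 hs2
    have hq' := g2' t b c s e hs1 hs2
    rcases Nat.lt_or_ge (g t b s e) v with hlt | hge
    · -- decreasing
      obtain ⟨Li₁, Ld₁, p1, p2, p3, p4, p5⟩ := ih a t s e ht1 hs2 (by omega)
      obtain ⟨Li₂, Ld₂, q1, q2, q3, q4, q5⟩ := ih t b c s ht2 hs1 (by omega)
      have hmain : ∃ Li : List Blk, Li₁.length ≤ Li.length ∧ Li₂.length ≤ Li.length ∧
          (∀ B ∈ Li, B.In a b c e ∧ θ ≤ g B.a B.b B.c B.e) ∧
          Li.Pairwise (fun B B' => B.b ≤ B'.a ∧ B.e ≤ B'.c) := by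
        rcases Nat.le_total Li₁.length Li₂.length with h5 | h5
        · exact ⟨Li₂, h5, le_refl _, fun B hB => ⟨(q2 B hB).1.mono ht1 (le_refl _) (le_refl _) hs2,
            (q2 B hB).2⟩, q4⟩
        · exact ⟨Li₁, le_refl _, h5, fun B hB => ⟨(p2 B hB).1.mono (le_refl _) ht2 hs1 (le_refl _),
            (p2 B hB).2⟩, p4⟩
      obtain ⟨Li, m1, m2, m3, m4⟩ := hmain
      refine ⟨Li, Ld₁ ++ Ld₂, ?_, m3, ?_, m4, ?_⟩
      · rw [List.length_append, Nat.mul_add, pow_succ, Nat.mul_two]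
        have := Nat.mul_le_mul_right Ld₁.length m1
        have := Nat.mul_le_mul_right Ld₂.length m2
        omega
      · intro B hB
        rcases List.mem_append.1 hB with hB | hB
        · exact ⟨(p3 B hB).1.mono (le_refl _) ht2 hs1 (le_refl _), (p3 B hB).2⟩
        · exact ⟨(q3 B hB).1.mono ht1 (le_refl _) (le_refl _) hs2, (q3 B hB).2⟩
      · rw [List.pairwise_append]
        refine ⟨p5, q5, ?_⟩
        intro B hB B' hB'
        have h6 := (p3 B hB).1
        have h7 := (q3 B' hB').1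
        unfold Blk.In at h6 h7
        omega
    · -- increasing
      obtain ⟨Li₁, Ld₁, p1, p2, p3, p4, p5⟩ := ih a t c s ht1 hs1 (by omega)
      obtain ⟨Li₂, Ld₂, q1, q2, q3, q4, q5⟩ := ih t b s e ht2 hs2 (by omega)
      have hmain : ∃ Ld : List Blk, Ld₁.length ≤ Ld.length ∧ Ld₂.length ≤ Ld.length ∧
          (∀ B ∈ Ld, B.In a b c e ∧ θ ≤ g B.a B.b B.c B.e) ∧
          Ld.Pairwise (fun B B' => B.b ≤ B'.a ∧ B'.e ≤ B.c) := by
        rcases Nat.le_total Ld₁.length Ld₂.length with h5 | h5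
        · exact ⟨Ld₂, h5, le_refl _, fun B hB => ⟨(q3 B hB).1.mono ht1 (le_refl _) hs1 (le_refl _),
            (q3 B hB).2⟩, q5⟩
        · exact ⟨Ld₁, le_refl _, h5, fun B hB => ⟨(p3 B hB).1.mono (le_refl _) ht2 (le_refl _) hs2,
            (p3 B hB).2⟩, p5⟩
      obtain ⟨Ld, m1, m2, m3, m4⟩ := hmain
      refine ⟨Li₁ ++ Li₂, Ld, ?_, ?_, m3, ?_, m4⟩
      · rw [List.length_append, Nat.add_mul, pow_succ, Nat.mul_two]
        have := Nat.mul_le_mul_left Li₁.length m1
        have := Nat.mul_le_mul_left Li₂.length m2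
        omega
      · intro B hB
        rcases List.mem_append.1 hB with hB | hB
        · exact ⟨(p2 B hB).1.mono (le_refl _) ht2 (le_refl _) hs2, (p2 B hB).2⟩
        · exact ⟨(q2 B hB).1.mono ht1 (le_refl _) hs1 (le_refl _), (q2 B hB).2⟩
      · rw [List.pairwise_append]
        refine ⟨p4, q4, ?_⟩
        intro B hB B' hB'
        have h6 := (p2 B hB).1
        have h7 := (q2 B' hB').1
        unfold Blk.In at h6 h7
        omega

lemma blocks (g : ℕ → ℕ → ℕ → ℕ → ℕ) (g0 : ∀ a c e, g a a c e = 0) (g0' : ∀ a b c, g a b c c = 0)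
    (g1 : ∀ a t c e, a ≤ t → g a (t + 1) c e ≤ g a t c e + 1)
    (g1' : ∀ a b c t, c ≤ t → g a b c (t + 1) ≤ g a b c t + 1)
    (g2 : ∀ a t b c e, a ≤ t → t ≤ b → g a b c e ≤ g a t c e + g t b c e)
    (g2' : ∀ a b c t e, c ≤ t → t ≤ e → g a b c e ≤ g a b c t + g a b t e) (θ m N : ℕ)
    (h : 4 ^ (2 * m) * θ ≤ g 0 N 0 N) :
    ∃ B : ℕ → Blk, (∀ i < m, θ ≤ g (B i).a (B i).b (B i).c (B i).e) ∧
      (∀ i j, i < j → j < m → (B i).b ≤ (B j).a) ∧
      ((∀ i j, i < j → j < m → (B i).e ≤ (B j).c) ∨ ∀ i j, i < j → j < m → (B j).e ≤ (B i).c) := by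
  obtain ⟨Li, Ld, h1, h2, h3, h4, h5⟩ := blocks_aux g g0 g0' g1 g1' g2 g2' θ (2 * m) 0 N 0 N
    (Nat.zero_le _) (Nat.zero_le _) h
  have hm : m * m ≤ 2 ^ (2 * m) := by
    rw [two_mul, pow_add]
    exact Nat.mul_le_mul Nat.lt_two_pow_self.le Nat.lt_two_pow_self.le
  have hor : m ≤ Li.length ∨ m ≤ Ld.length := by
    by_contra hcon
    push Not at hcon
    have h6 : Li.length * Ld.length < m * m := by
      rcases Nat.eq_zero_or_pos m with h0 | h0
      · omega
      · exact Nat.mul_lt_mul'' hcon.1 hcon.2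
    omega
  rcases hor with hl | hl
  · refine ⟨fun i => if hi : i < Li.length then Li[i] else ⟨0, 0, 0, 0⟩, ?_, ?_, Or.inl ?_⟩
    · intro i hi
      have hi' : i < Li.length := by omega
      simp only [dif_pos hi']
      exact (h2 _ (List.getElem_mem hi')).2
    · intro i j hij hj
      have hi' : i < Li.length := by omega
      have hj' : j < Li.length := by omega
      simp only [dif_pos hi', dif_pos hj']
      exact (List.pairwise_iff_getElem.1 h4 i j hi' hj' hij).1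
    · intro i j hij hj
      have hi' : i < Li.length := by omega
      have hj' : j < Li.length := by omega
      simp only [dif_pos hi', dif_pos hj']
      exact (List.pairwise_iff_getElem.1 h4 i j hi' hj' hij).2
  · refine ⟨fun i => if hi : i < Ld.length then Ld[i] else ⟨0, 0, 0, 0⟩, ?_, ?_, Or.inr ?_⟩
    · intro i hi
      have hi' : i < Ld.length := by omega
      simp only [dif_pos hi']
      exact (h3 _ (List.getElem_mem hi')).2
    · intro i j hij hj
      have hi' : i < Ld.length := by omega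
      have hj' : j < Ld.length := by omega
      simp only [dif_pos hi', dif_pos hj']
      exact (List.pairwise_iff_getElem.1 h5 i j hi' hj' hij).1
    · intro i j hij hj
      have hi' : i < Ld.length := by omega
      have hj' : j < Ld.length := by omega
      simp only [dif_pos hi', dif_pos hj']
      exact (List.pairwise_iff_getElem.1 h5 i j hi' hj' hij).2

end BIC
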