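import Pool.Agent.Helper34.BIC.Merge

open Set

namespace BIC

variable {α V ι : Type*}

lemma Arb.single {S : Set α} {ends : α → Sym2 V} (v : V) : Arb S ends {v} (∅ : Set α) := by
  refine ⟨empty_subset _, singleton_nonempty v, ?_⟩
  intro w hw
  obtain rfl : w = v := hw
  refine ⟨fun _ => w, ⟨by simp [MapsTo], by simp [InjOn], by simp [SurjOn]⟩, by simp⟩

lemma Arb.path {S : Set α} {ends : α → Sym2 V} {L : ℕ} (p : ℕ → V) (el : ℕ → α)
    (hp : ∀ s < L, ∀ t < L, p s = p t → s = t)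
    (hel : ∀ t, t + 1 < L → el t ∈ S ∧ ends (el t) = s(p t, p (t + 1))) :
    ∀ T < L, Arb S ends (p '' {t | t ≤ T}) (el '' {t | t < T}) := by
  intro T
  induction T with
  | zero =>
    intro _
    have h1 : p '' {t | t ≤ 0} = {p 0} := by
      have : {t : ℕ | t ≤ 0} = {0} := by ext; simp
      rw [this, image_singleton]
    have h2 : el '' {t | t < 0} = ∅ := by simp
    rw [h1, h2]
    exact Arb.single _
  | succ T ih =>
    intro hT
    have ih' := ih (by omega)
    have hd : Disjoint (p '' {t | t ≤ T}) {p (T + 1)} := by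
      rw [Set.disjoint_singleton_right]
      rintro ⟨t, ht, hpt⟩
      have ht' : t ≤ T := ht
      have := hp t (by omega) (T + 1) hT hpt
      omega
    obtain ⟨h1, h2⟩ := hel T hT
    have := Arb.join hd ih' (Arb.single (p (T + 1))) h1 h2
      ⟨T, (le_refl T : T ≤ T), rfl⟩ rfl
    have e1 : p '' {t | t ≤ T + 1} = p '' {t | t ≤ T} ∪ {p (T + 1)} := by
      ext x
      simp only [mem_image, mem_ofPred_eq, mem_union, mem_singleton_iff]
      constructor
      · rintro ⟨t, ht, rfl⟩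
        rcases Nat.lt_or_ge T t with h | h
        · right; rw [show t = T + 1 by omega]
        · left; exact ⟨t, h, rfl⟩
      · rintro (⟨t, ht, rfl⟩ | rfl)
        · exact ⟨t, by omega, rfl⟩
        · exact ⟨T + 1, le_refl _, rfl⟩
    have e2 : el '' {t | t < T + 1} = insert (el T) (el '' {t | t < T} ∪ ∅) := by
      ext x
      simp only [mem_image, mem_ofPred_eq, union_empty, mem_insert_iff]
      constructor
      · rintro ⟨t, ht, rfl⟩
        rcases Nat.lt_or_ge t T with h | h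
        · right; exact ⟨t, h, rfl⟩
        · left; rw [show t = T by omega]
      · rintro (rfl | ⟨t, ht, rfl⟩)
        · exact ⟨T, by omega, rfl⟩
        · exact ⟨t, by omega, rfl⟩
    rw [e1, e2]
    exact this

lemma Arb.cycle {S : Set α} {ends : α → Sym2 V} {ψ : V → α} {L : ℕ} (hL : 0 < L) (c : ℕ → V)
    (hper : ∀ i, c (i + L) = c i)
    (hc : ∀ s < L, ∀ t < L, c s = c t → s = t) {W : Set V} (hW : W = c '' {t | t < L})
    (hψ : InjOn ψ W)
    (hel : ∀ t, ψ (c t) ∈ S ∧ ends (ψ (c t)) = s(c t, c (t + 1))) {v : V} (hv : v ∈ W) :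
    Arb S ends W (ψ '' W \ {ψ v}) := by
  have hmod : ∀ i, c (i % L) = c i := by
    intro i
    have : ∀ q r, c (r + L * q) = c r := by
      intro q
      induction q with
      | zero => intro r; simp
      | succ q ih => intro r; rw [Nat.mul_succ, ← add_assoc, hper, ih]
    conv_rhs => rw [← Nat.mod_add_div i L]
    rw [this]
  have hmem : ∀ i, c i ∈ W := by
    intro i
    rw [← hmod i, hW]
    exact ⟨i % L, Nat.mod_lt _ hL, rfl⟩
  obtain ⟨i0, hi0, rfl⟩ : v ∈ c '' {t | t < L} := hW ▸ hv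
  have hi0' : i0 < L := hi0
  have hinj : ∀ s < L, ∀ t < L, c (i0 + 1 + s) = c (i0 + 1 + t) → s = t := by
    intro s hs t ht h
    rw [← hmod (i0 + 1 + s), ← hmod (i0 + 1 + t)] at h
    have h2 := hc _ (Nat.mod_lt _ hL) _ (Nat.mod_lt _ hL) h
    have h3 : (i0 + 1 + s) ≡ (i0 + 1 + t) [MOD L] := h2
    have h4 := Nat.ModEq.add_left_cancel' (i0 + 1) h3
    unfold Nat.ModEq at h4
    rwa [Nat.mod_eq_of_lt hs, Nat.mod_eq_of_lt ht] at h4
  have hpath := Arb.path (S := S) (ends := ends) (L := L) (fun t => c (i0 + 1 + t))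
    (fun t => ψ (c (i0 + 1 + t))) hinj (fun t _ => hel _) (L - 1) (by omega)
  have e1 : (fun t => c (i0 + 1 + t)) '' {t | t ≤ L - 1} = W := by
    apply Subset.antisymm
    · rintro _ ⟨t, _, rfl⟩; exact hmem _
    · intro w hw
      rw [hW] at hw
      obtain ⟨j, hj, rfl⟩ := hw
      have hj' : j < L := hj
      rcases Nat.lt_or_ge i0 j with h | h
      · exact ⟨j - (i0 + 1), by simp only [mem_ofPred_eq]; omega, by
          simp only; rw [show i0 + 1 + (j - (i0 + 1)) = j by omega]⟩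
      · exact ⟨j + L - (i0 + 1), by simp only [mem_ofPred_eq]; omega, by
          simp only; rw [show i0 + 1 + (j + L - (i0 + 1)) = j + L by omega, hper]⟩
  have e2 : (fun t => ψ (c (i0 + 1 + t))) '' {t | t < L - 1} = ψ '' W \ {ψ (c i0)} := by
    apply Subset.antisymm
    · rintro _ ⟨t, ht, rfl⟩
      have ht' : t < L - 1 := ht
      refine ⟨⟨_, hmem _, rfl⟩, ?_⟩
      intro h
      have h1 := hψ (hmem _) (hmem _) h
      rw [← hper i0, show i0 + L = i0 + 1 + (L - 1) by omega] at h1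
      have := hinj t (by omega) (L - 1) (by omega) h1
      omega
    · rintro _ ⟨⟨w, hw, rfl⟩, hne⟩
      rw [← e1] at hw
      obtain ⟨t, ht, rfl⟩ := hw
      have ht' : t ≤ L - 1 := ht
      refine ⟨t, ?_, rfl⟩
      simp only [mem_ofPred_eq]
      by_contra hcon
      have : t = L - 1 := by omega
      subst this
      apply hne
      simp only
      rw [show i0 + 1 + (L - 1) = i0 + L by omega, hper]
      rfl
  rw [e1, e2] at hpath
  exact hpath

lemma Mg.cycle {M : Matroid α} {S : Set α} {ends : α → Sym2 V} {ψ : V → α} {L : ℕ}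
    (hL : 0 < L) (c : ℕ → V)
    (hper : ∀ i, c (i + L) = c i)
    (hc : ∀ s < L, ∀ t < L, c s = c t → s = t) {W : Set V} (hW : W = c '' {t | t < L})
    (hψ : InjOn ψ W)
    (hel : ∀ t, ψ (c t) ∈ S ∧ ends (ψ (c t)) = s(c t, c (t + 1))) {X : Set α}
    (hX : (X ∩ ψ '' W).Subsingleton) :
    Mg ι M S ends W (ψ '' W) (X ∩ ψ '' W) := by
  have hmemc : ∀ w ∈ W, w ∈ c '' {t | t < L} := fun w hw => hW ▸ hw
  have hsub : ψ '' W ⊆ ins S ends W := by
    rintro _ ⟨w, hw, rfl⟩
    obtain ⟨t, ht, rfl⟩ := hmemc w hw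
    have ht' : t < L := ht
    refine ⟨(hel t).1, ?_⟩
    intro v hv
    rw [(hel t).2] at hv
    rcases Sym2.mem_iff.1 hv with rfl | rfl
    · exact hw
    · rw [hW]
      rcases Nat.lt_or_ge (t + 1) L with h | h
      · exact ⟨t + 1, h, rfl⟩
      · refine ⟨0, hL, ?_⟩
        rw [show t + 1 = 0 + L by omega, hper]
  rcases (X ∩ ψ '' W).eq_empty_or_nonempty with h | ⟨x, hx⟩
  · have hc0 : c 0 ∈ W := by rw [hW]; exact ⟨0, hL, rfl⟩
    have := Mg.base (ι := ι) (M := M) hsub (mem_image_of_mem ψ hc0)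
      (Arb.cycle hL c hper hc hW hψ hel hc0)
    exact this.mono (by rw [h]; exact empty_subset _)
  · obtain ⟨hxX, w, hw, rfl⟩ := hx
    have := Mg.base (ι := ι) (M := M) hsub (mem_image_of_mem ψ hw)
      (Arb.cycle hL c hper hc hW hψ hel hw)
    refine this.mono ?_
    intro y hy
    exact hX hy ⟨hxX, w, hw, rfl⟩

/-- Enough rungs between two vertex sets. -/
def Rung (ι : Type*) [Fintype ι] (S : Set α) (ends : α → Sym2 V) (W₁ W₂ : Set V) : Prop :=
  ∃ Rg : Finset α, Fintype.card ι < Rg.card ∧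
    ∀ f ∈ Rg, f ∈ S ∧ ∃ a ∈ W₁, ∃ b ∈ W₂, ends f = s(a, b)

lemma Rung.symm [Fintype ι] {S : Set α} {ends : α → Sym2 V} {W₁ W₂ : Set V}
    (h : Rung ι S ends W₁ W₂) : Rung ι S ends W₂ W₁ := by
  obtain ⟨Rg, h1, h2⟩ := h
  refine ⟨Rg, h1, fun f hf => ?_⟩
  obtain ⟨h3, a, ha, b, hb, h4⟩ := h2 f hf
  exact ⟨h3, b, hb, a, ha, by rw [h4, Sym2.eq_swap]⟩

lemma Rung.mono [Fintype ι] {S : Set α} {ends : α → Sym2 V} {W₁ W₂ W₁' W₂' : Set V}
    (h : Rung ι S ends W₁ W₂) (h1 : W₁ ⊆ W₁') (h2 : W₂ ⊆ W₂') : Rung ι S ends W₁' W₂' := by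
  obtain ⟨Rg, h3, h4⟩ := h
  refine ⟨Rg, h3, fun f hf => ?_⟩
  obtain ⟨h5, a, ha, b, hb, h6⟩ := h4 f hf
  exact ⟨h5, a, h1 ha, b, h2 hb, h6⟩

/-- Predicate: the union of the clusters of `Q` is mergeable. -/
def PQ (ι : Type*) {K : Type*} (M : Matroid α) (S : Set α) (ends : α → Sym2 V) (ψ : V → α)
    (X : Set α) (W : K → Set V) (Q : Finset K) : Prop :=
  Mg ι M S ends (⋃ c ∈ Q, W c) (ψ '' ⋃ c ∈ Q, W c) (X ∩ ψ '' ⋃ c ∈ Q, W c)

lemma PQ.add [Fintype ι] {K : Type*} [DecidableEq K] {M : Matroid α} {S : Set α}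
    {ends : α → Sym2 V} (hB : Bic M S ends) {ψ : V → α} {X : Set α} {W : K → Set V}
    {Q : Finset K} (hfin : ∀ c ∈ Q, (W c).Finite) (hQ : PQ ι M S ends ψ X W Q) {c c' : K}
    (hc : (W c).Finite) (hcm : Mg ι M S ends (W c) (ψ '' W c) (X ∩ ψ '' W c)) (hc' : c' ∈ Q)
    (hdis : ∀ b ∈ Q, b ≠ c → Disjoint (W b) (W c)) (hr : Rung ι S ends (W c') (W c)) :
    PQ ι M S ends ψ X W (insert c Q) := by
  by_cases hcQ : c ∈ Q
  · rwa [Finset.insert_eq_of_mem hcQ]
  · obtain ⟨Rg, h1, h2⟩ := hr.mono (W₁' := ⋃ b ∈ Q, W b)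
      (subset_biUnion_of_mem (u := W) (show c' ∈ (Q : Set K) from hc')) (subset_refl _)
    have hd : Disjoint (⋃ b ∈ Q, W b) (W c) := by
      rw [Set.disjoint_iUnion₂_left]
      intro b hb
      exact hdis b hb (fun h => hcQ (h ▸ hb))
    have hf : (⋃ b ∈ Q, W b).Finite := Set.Finite.biUnion (Finset.finite_toSet Q) hfin
    have := Mg.join hB hf hc hd hQ hcm Rg h1 h2
    unfold PQ
    rw [Finset.set_biUnion_insert, union_comm (W c), image_union, inter_union_distrib_left]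
    exact this

/-- An `N × N` array of clusters (first index: line, second index: depth). -/
structure Board (ι : Type*) [Fintype ι] (M : Matroid α) (S : Set α) (ends : α → Sym2 V)
    (ψ : V → α) (N : ℕ) (X : Set α) (W : ℕ × ℕ → Set V) : Prop where
  bic : Bic M S ends
  psi : ∀ v, ψ v ∈ S ∧ v ∈ ends (ψ v)
  fin : ∀ c, (W c).Finite
  disj : ∀ c c', c.1 < N → c.2 < N → c'.1 < N → c'.2 < N → c ≠ c' → Disjoint (W c) (W c')
  mg : ∀ c, c.1 < N → c.2 < N → Mg ι M S ends (W c) (ψ '' W c) (X ∩ ψ '' W c)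
  rl : ∀ l d, l + 1 < N → d < N → Rung ι S ends (W (l, d)) (W (l + 1, d))
  rd : ∀ l d, l < N → d + 1 < N → Rung ι S ends (W (l, d)) (W (l, d + 1))

namespace Board

variable [Fintype ι] {M : Matroid α} {S : Set α} {ends : α → Sym2 V} {ψ : V → α} {N : ℕ}
  {X : Set α} {W : ℕ × ℕ → Set V}

lemma transpose (h : Board ι M S ends ψ N X W) : Board ι M S ends ψ N X (fun c => W (c.2, c.1)) where
  bic := h.bic
  psi := h.psi
  fin := fun c => h.fin _
  disj := fun c c' h1 h2 h3 h4 hne => h.disj _ _ h2 h1 h4 h3 (by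
    intro heq
    apply hne
    rw [Prod.ext_iff] at heq ⊢
    exact ⟨heq.2, heq.1⟩)
  mg := fun c h1 h2 => h.mg _ h2 h1
  rl := fun l d h1 h2 => h.rd d l h2 h1
  rd := fun l d h1 h2 => h.rl d l h2 h1

lemma reflectDepth (h : Board ι M S ends ψ N X W) :
    Board ι M S ends ψ N X (fun c => W (c.1, N - 1 - c.2)) where
  bic := h.bic
  psi := h.psi
  fin := fun c => h.fin _
  disj := fun c c' h1 h2 h3 h4 hne => h.disj _ _ h1 (by simp only; omega) h3
    (by simp only; omega) (by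
    intro heq
    apply hne
    rw [Prod.ext_iff] at heq ⊢
    have h5 := heq.2
    simp only at h5
    exact ⟨heq.1, by omega⟩)
  mg := fun c h1 h2 => h.mg _ h1 (by simp only; omega)
  rl := fun l d h1 h2 => h.rl l (N - 1 - d) h1 (by omega)
  rd := fun l d h1 h2 => by
    have := (h.rd l (N - 1 - (d + 1)) h1 (by omega)).symm
    rwa [show N - 1 - (d + 1) + 1 = N - 1 - d by omega] at this

lemma reflectLine (h : Board ι M S ends ψ N X W) :
    Board ι M S ends ψ N X (fun c => W (N - 1 - c.1, c.2)) :=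
  h.transpose.reflectDepth.transpose

lemma mono (h : Board ι M S ends ψ N X W) {X' : Set α} (hX : X' ⊆ X) :
    Board ι M S ends ψ N X' W where
  bic := h.bic
  psi := h.psi
  fin := h.fin
  disj := h.disj
  mg := fun c h1 h2 => (h.mg c h1 h2).mono (inter_subset_inter_left _ hX)
  rl := h.rl
  rd := h.rd

lemma one (h : Board ι M S ends ψ N X W) (c : ℕ × ℕ) (h1 : c.1 < N) (h2 : c.2 < N) :
    PQ ι M S ends ψ X W {c} := by
  unfold PQ
  simp only [Finset.mem_singleton, iUnion_iUnion_eq_left]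
  exact h.mg c h1 h2

/-- Cells all within the board. -/
def Inb (N : ℕ) (Q : Finset (ℕ × ℕ)) : Prop := ∀ c ∈ Q, c.1 < N ∧ c.2 < N

lemma add (h : Board ι M S ends ψ N X W) {Q : Finset (ℕ × ℕ)} (hQN : Inb N Q)
    (hQ : PQ ι M S ends ψ X W Q) {c c' : ℕ × ℕ} (hc : c.1 < N ∧ c.2 < N) (hc' : c' ∈ Q)
    (hr : Rung ι S ends (W c') (W c)) :
    PQ ι M S ends ψ X W (insert c Q) ∧ Inb N (insert c Q) := by
  refine ⟨PQ.add h.bic (fun c _ => h.fin c) hQ (h.fin c) (h.mg c hc.1 hc.2) hc' ?_ hr, ?_⟩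
  · intro b hb hne
    exact h.disj _ _ (hQN b hb).1 (hQN b hb).2 hc.1 hc.2 hne
  · intro b hb
    rcases Finset.mem_insert.1 hb with rfl | hb
    · exact hc
    · exact hQN b hb

lemma horiz (h : Board ι M S ends ψ N X W) {l D : ℕ} (hD : D < N) :
    ∀ t, l + t < N → PQ ι M S ends ψ X W (Finset.Icc l (l + t) ×ˢ {D}) ∧
      Inb N (Finset.Icc l (l + t) ×ˢ {D}) := by
  intro t
  induction t with
  | zero =>
    intro hl
    have : (Finset.Icc l (l + 0) ×ˢ {D} : Finset (ℕ × ℕ)) = {(l, D)} := by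
      ext ⟨a, b⟩
      simp
    rw [this]
    refine ⟨h.one _ hl hD, ?_⟩
    intro c hc
    rw [Finset.mem_singleton.1 hc]
    exact ⟨hl, hD⟩
  | succ t ih =>
    intro hl
    obtain ⟨h1, h2⟩ := ih (by omega)
    have e : (Finset.Icc l (l + (t + 1)) ×ˢ {D} : Finset (ℕ × ℕ)) =
        insert (l + t + 1, D) (Finset.Icc l (l + t) ×ˢ {D}) := by
      ext ⟨a, b⟩
      simp only [Finset.mem_product, Finset.mem_Icc, Finset.mem_singleton, Finset.mem_insert,
        Prod.mk.injEq]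
      constructor
      · rintro ⟨⟨h3, h4⟩, rfl⟩
        by_cases h5 : a = l + t + 1
        · left; exact ⟨h5, rfl⟩
        · right; exact ⟨⟨h3, by omega⟩, rfl⟩
      · rintro (⟨rfl, rfl⟩ | ⟨⟨h3, h4⟩, rfl⟩)
        · exact ⟨⟨by omega, by omega⟩, rfl⟩
        · exact ⟨⟨h3, by omega⟩, rfl⟩
    rw [e]
    exact h.add h2 h1 ⟨by simp only; omega, hD⟩ (c' := (l + t, D)) (by simp)
      (h.rl (l + t) D (by omega) hD)

lemma vert (h : Board ι M S ends ψ N X W) {l D : ℕ} (hl : l < N) (hD : D < N)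
    {Q : Finset (ℕ × ℕ)} (hQN : Inb N Q)
    (hQ : PQ ι M S ends ψ X W Q) (hlD : (l, D) ∈ Q) :
    ∀ t, t ≤ D → PQ ι M S ends ψ X W (Q ∪ {l} ×ˢ Finset.Icc (D - t) D) ∧
      Inb N (Q ∪ {l} ×ˢ Finset.Icc (D - t) D) := by
  intro t
  induction t with
  | zero =>
    intro _
    have : (Q ∪ {l} ×ˢ Finset.Icc (D - 0) D : Finset (ℕ × ℕ)) = Q := by
      simp only [Nat.sub_zero, Finset.Icc_self, Finset.singleton_product_singleton]
      rw [Finset.union_eq_left]
      simpa using hlD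
    rw [this]
    exact ⟨hQ, hQN⟩
  | succ t ih =>
    intro ht
    obtain ⟨h1, h2⟩ := ih (by omega)
    have e : (Q ∪ {l} ×ˢ Finset.Icc (D - (t + 1)) D : Finset (ℕ × ℕ)) =
        insert (l, D - (t + 1)) (Q ∪ {l} ×ˢ Finset.Icc (D - t) D) := by
      ext ⟨a, b⟩
      simp only [Finset.mem_union, Finset.mem_product, Finset.mem_Icc, Finset.mem_singleton,
        Finset.mem_insert, Prod.mk.injEq]
      constructor
      · rintro (h3 | ⟨rfl, h3, h4⟩)
        · right; left; exact h3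
        · by_cases h5 : b = D - (t + 1)
          · left; exact ⟨rfl, h5⟩
          · right; right; exact ⟨rfl, by omega, h4⟩
      · rintro (⟨rfl, rfl⟩ | h3 | ⟨rfl, h3, h4⟩)
        · right; exact ⟨rfl, le_refl _, by omega⟩
        · left; exact h3
        · right; exact ⟨rfl, by omega, h4⟩
    rw [e]
    refine h.add h2 h1 ⟨hl, by simp only; omega⟩ (c' := (l, D - t)) (by simp) ?_
    have := (h.rd l (D - (t + 1)) hl (by omega)).symm
    rwa [show D - (t + 1) + 1 = D - t by omega] at this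

lemma comb (h : Board ι M S ends ψ N X W) {l₁ l₂ D : ℕ} (h12 : l₁ ≤ l₂) (hl : l₂ < N) (hD : D < N)
    (pd : ℕ → ℕ) (A : Finset ℕ) : (∀ l ∈ A, l₁ ≤ l ∧ l ≤ l₂ ∧ pd l ≤ D) →
    PQ ι M S ends ψ X W ((Finset.Icc l₁ l₂ ×ˢ {D}) ∪ A.biUnion fun l => {l} ×ˢ Finset.Icc (pd l) D) ∧
    Inb N ((Finset.Icc l₁ l₂ ×ˢ {D}) ∪ A.biUnion fun l => {l} ×ˢ Finset.Icc (pd l) D) := by
  induction A using Finset.induction_on with
  | empty =>
    intro _
    rw [Finset.biUnion_empty, Finset.union_empty]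
    have := h.horiz (l := l₁) (D := D) hD (l₂ - l₁) (by omega)
    rwa [show l₁ + (l₂ - l₁) = l₂ by omega] at this
  | insert a A ha ih =>
    intro hA
    obtain ⟨h1, h2⟩ := ih (fun l hl => hA l (Finset.mem_insert_of_mem hl))
    obtain ⟨h3, h4, h5⟩ := hA a (Finset.mem_insert_self _ _)
    have := h.vert (l := a) (D := D) (by omega) hD h2 h1 (by
      simp only [Finset.mem_union, Finset.mem_product, Finset.mem_Icc, Finset.mem_singleton]
      left; exact ⟨⟨h3, h4⟩, trivial⟩) (D - pd a) (by omega)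
    rw [show D - (D - pd a) = pd a by omega] at this
    rw [Finset.biUnion_insert]
    have e : ∀ P Q R : Finset (ℕ × ℕ), P ∪ (Q ∪ R) = P ∪ R ∪ Q := by
      intro P Q R
      ext c
      simp only [Finset.mem_union]
      tauto
    rw [e]
    exact this

end Board

end BIC
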