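import Pool.Agent.Helper34.BIC.Geo
import Pool.Agent.Helper34.BIC.Unif
import Pool.Agent.Helper34.BIC.Net

open Set
open scoped Matroid

namespace BIC

variable {α : Type*}

lemma base_union {M : Matroid α} [M.Finite] {S T F F' : Set α} (hST : Disjoint S T)
    (hE : M.E = S ∪ T) (hF : M.IsBasis F S) (hF' : M✶.IsBasis F' T) :
    M.IsBase (F ∪ (T \ F')) := by
  have hfin := M.ground_finite
  have hFE : F ⊆ S := hF.subset
  have hF'T : F' ⊆ T := hF'.subset
  have hSfin : S.Finite := hfin.subset (by rw [hE]; exact subset_union_left)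
  have hTfin : T.Finite := hfin.subset (by rw [hE]; exact subset_union_right)
  have hcoind : M.Coindep F' := hF'.indep
  have hsp1 : M.Spanning (M.E \ F') := hcoind.compl_spanning
  have hEF : M.E \ F' = S ∪ (T \ F') := by
    rw [hE]
    ext e
    simp only [mem_sdiff, mem_union]
    constructor
    · rintro ⟨h1 | h1, h2⟩
      · exact Or.inl h1
      · exact Or.inr ⟨h1, h2⟩
    · rintro (h1 | ⟨h1, h2⟩)
      · exact ⟨Or.inl h1, fun h => Set.disjoint_left.1 hST h1 (hF'T h)⟩
      · exact ⟨Or.inr h1, h2⟩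
  have hsub : F ∪ (T \ F') ⊆ M.E := by
    rw [hE]
    exact union_subset_union hFE sdiff_subset
  have hsp : M.Spanning (F ∪ (T \ F')) := by
    rw [Matroid.spanning_iff_closure_eq hsub]
    have h1 : M.closure (F ∪ (T \ F')) = M.closure (S ∪ (T \ F')) :=
      M.closure_union_congr_left hF.closure_eq_closure
    rw [h1, ← hEF]
    exact hsp1.closure_eq
  obtain ⟨B, hB, hBs⟩ := hsp.exists_isBase_subset
  -- count
  have hdual := M.eRk_dual_add_eRank T (by rw [hE]; exact subset_union_right)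
  have hET : M.E \ T = S := by
    rw [hE]
    ext e
    simp only [mem_sdiff, mem_union]
    constructor
    · rintro ⟨h1 | h1, h2⟩
      · exact h1
      · exact absurd h1 h2
    · intro h1
      exact ⟨Or.inl h1, Set.disjoint_left.1 hST h1⟩
  rw [hET, ← hF'.encard_eq_eRk, ← hF.encard_eq_eRk, ← hB.encard_eq_eRank,
    ← (hTfin.subset hF'T).cast_ncard_eq, ← (base_fin hB).cast_ncard_eq,
    ← (hSfin.subset hFE).cast_ncard_eq, ← hTfin.cast_ncard_eq] at hdual
  have hdual' : F'.ncard + B.ncard = F.ncard + T.ncard := by exact_mod_cast hdual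
  have h2 : (F ∪ (T \ F')).ncard = F.ncard + (T \ F').ncard :=
    Set.ncard_union_eq (hST.mono hFE sdiff_subset) (hSfin.subset hFE) (hTfin.subset sdiff_subset)
  have h3 := Set.ncard_sdiff_add_ncard_of_subset hF'T hTfin
  have h4 : B = F ∪ (T \ F') :=
    Set.eq_of_subset_of_ncard_le hBs (by omega) ((hSfin.subset hFE).union
      (hTfin.subset sdiff_subset))
  rw [← h4]
  exact hB

lemma exists_F0 {M : Matroid α} [M.Finite] {S T F : Set α} (hST : Disjoint S T)
    (hE : M.E = S ∪ T) (hF : M.IsBasis F S) {n : ℕ} (hκ : n + rk M M.E ≤ rk M S + rk M T) :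
    ∃ F₀ ⊆ F, n ≤ F₀.ncard ∧ M.Spanning ((F \ F₀) ∪ T) := by
  have hfin := M.ground_finite
  have hFE : F ⊆ S := hF.subset
  have hSfin : S.Finite := hfin.subset (by rw [hE]; exact subset_union_left)
  have hTE : T ⊆ M.E := by rw [hE]; exact subset_union_right
  obtain ⟨J, hJ⟩ := M.exists_isBasis T hTE
  have hsp : M.Spanning (T ∪ F) := by
    have hTFE : T ∪ F ⊆ M.E := by
      rw [hE]
      exact union_subset subset_union_right (hFE.trans subset_union_left)
    rw [Matroid.spanning_iff_closure_eq hTFE]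
    rw [M.closure_union_congr_right hF.closure_eq_closure, union_comm, ← hE, M.closure_ground]
  obtain ⟨B, hB, hJB, hBs⟩ := hJ.indep.exists_isBase_subset_spanning hsp
    (hJ.subset.trans subset_union_left)
  have hBT : J = B ∩ T := hJ.eq_of_subset_indep (hB.indep.subset inter_subset_left)
    (subset_inter hJB hJ.subset) inter_subset_right
  have hBeq : B = (B ∩ F) ∪ J := by
    apply Subset.antisymm
    · intro e he
      rcases hBs he with h | h
      · right; rw [hBT]; exact ⟨he, h⟩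
      · left; exact ⟨he, h⟩
    · exact union_subset inter_subset_left hJB
  have hd : Disjoint (B ∩ F) J := (hST.mono (inter_subset_right.trans hFE) hJ.subset)
  have hBf := base_fin hB
  have hc : B.ncard = (B ∩ F).ncard + J.ncard := by
    have h1 : B.ncard = ((B ∩ F) ∪ J).ncard := congrArg Set.ncard hBeq
    rw [Set.ncard_union_eq hd (hBf.subset inter_subset_left) (hBf.subset hJB)] at h1
    exact h1
  have r1 : rk M M.E = B.ncard := rk_superset_base hB hB.subset_ground
  have r2 : rk M T = J.ncard := by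
    rw [← rk_closure, ← hJ.closure_eq_closure, rk_closure, rk_indep hJ.indep]
  have r3 : rk M S = F.ncard := by
    rw [← rk_closure, ← hF.closure_eq_closure, rk_closure, rk_indep hF.indep]
  refine ⟨F \ B, sdiff_subset, ?_, ?_⟩
  · have h1 : (F ∩ B).ncard + (F \ B).ncard = F.ncard :=
      Set.ncard_inter_add_ncard_sdiff_eq_ncard F B (hSfin.subset hFE)
    rw [inter_comm] at h1
    omega
  · refine hB.spanning_of_superset ?_ ?_
    · intro e he
      rcases hBs he with h | h
      · exact Or.inr h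
      · exact Or.inl ⟨h, fun h' => h'.2 he⟩
    · refine union_subset (sdiff_subset.trans (hFE.trans ?_)) hTE
      rw [hE]; exact subset_union_left

/-- All the data of one side. -/
def SideData (ι : Type) [Fintype ι] (M : Matroid α) (S : Set α) (N w : ℕ) : Prop :=
  ∃ (V : Type) (ends : α → Sym2 V) (ψ : V → α) (W : ℕ × ℕ → Set V) (v₀ : V),
    (∀ X : Set α, (∀ c : ℕ × ℕ, c.1 < N → c.2 < N → (X ∩ ψ '' W c).Subsingleton) →
      Board ι M S ends ψ N X W) ∧
    M.IsBasis (range ψ) S ∧ (∀ v, v = v₀ ∨ ∃ c : ℕ × ℕ, c.1 < N ∧ c.2 < N ∧ v ∈ W c) ∧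
    (∀ c, (ψ '' W c).ncard ≤ w)

lemma one_per_cell {V ι : Type*} [Fintype ι] {M : Matroid α} {S : Set α} {ends : α → Sym2 V}
    {ψ : V → α} {N w : ℕ} {W : ℕ × ℕ → Set V} (h : Board ι M S ends ψ N ∅ W) {v₀ : V}
    (hv : ∀ v, v = v₀ ∨ ∃ c : ℕ × ℕ, c.1 < N ∧ c.2 < N ∧ v ∈ W c)
    (hw : ∀ c, (ψ '' W c).ncard ≤ w) {F₀ : Set α} (hF₀ : F₀ ⊆ range ψ) (hfin : F₀.Finite) :
    ∃ (X : Set α) (f : α → ℕ × ℕ), X ⊆ F₀ ∧ F₀.ncard ≤ w * X.ncard + 1 ∧
      (∀ c : ℕ × ℕ, c.1 < N → c.2 < N → (X ∩ ψ '' W c).Subsingleton) ∧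
      (∀ x ∈ X, (f x).1 < N ∧ (f x).2 < N ∧ x ∈ ψ '' W (f x)) ∧ InjOn f X := by
  classical
  have hcell : ∀ x ∈ F₀ \ {ψ v₀}, ∃ c : ℕ × ℕ, c.1 < N ∧ c.2 < N ∧ x ∈ ψ '' W c := by
    rintro x ⟨hx, hx0⟩
    obtain ⟨v, rfl⟩ := hF₀ hx
    rcases hv v with rfl | ⟨c, h1, h2, h3⟩
    · exact absurd rfl hx0
    · exact ⟨c, h1, h2, v, h3, rfl⟩
  choose! f hf using hcell
  have huniq : ∀ x c c', c.1 < N → c.2 < N → c'.1 < N → c'.2 < N → x ∈ ψ '' W c →
      x ∈ ψ '' W c' → c = c' := by
    intro x c c' h1 h2 h3 h4 h5 h6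
    by_contra hne
    exact Set.disjoint_left.1 (ins_disj (S := S) (ends := ends) (h.disj c c' h1 h2 h3 h4 hne))
      ((h.mg c h1 h2).1 h5) ((h.mg c' h3 h4).1 h6)
  obtain ⟨X, hX, hbij⟩ := Set.exists_subset_bijOn (F₀ \ {ψ v₀}) f
  have hXf : X.Finite := hfin.subset (hX.trans sdiff_subset)
  refine ⟨X, f, hX.trans sdiff_subset, ?_, ?_, fun x hx => hf x (hX hx), hbij.injOn⟩
  · have hF1f : (F₀ \ {ψ v₀}).Finite := hfin.subset sdiff_subset
    have h1 : (F₀ \ {ψ v₀}).ncard ≤ w * X.ncard := by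
      have h2 : hF1f.toFinset.card ≤ w * (hF1f.toFinset.image f).card := by
        refine Finset.card_le_mul_card_image _ _ ?_
        intro c hc
        obtain ⟨x, hx, rfl⟩ := Finset.mem_image.1 hc
        have hx' := (Set.Finite.mem_toFinset hF1f).1 hx
        have hsub : ((hF1f.toFinset.filter (fun y => f y = f x) : Finset α) : Set α) ⊆
            ψ '' W (f x) := by
          intro y hy
          have hy' := Finset.mem_filter.1 (Finset.mem_coe.1 hy)
          have := (hf y ((Set.Finite.mem_toFinset hF1f).1 hy'.1)).2.2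
          rw [hy'.2] at this
          exact this
        have h3 := Set.ncard_le_ncard hsub ((h.fin _).image _)
        rw [Set.ncard_coe_finset] at h3
        exact h3.trans (hw _)
      have h3 : (hF1f.toFinset.image f).card = X.ncard := by
        have e1 : ((hF1f.toFinset.image f : Finset (ℕ × ℕ)) : Set (ℕ × ℕ)) = f '' X := by
          rw [hbij.image_eq, Finset.coe_image, Set.Finite.coe_toFinset]
        rw [← Set.ncard_coe_finset, e1, hbij.injOn.ncard_image]
      rw [h3, ← Set.ncard_eq_toFinset_card _ hF1f] at h2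
      exact h2
    have h4 : F₀.ncard ≤ (F₀ \ {ψ v₀}).ncard + 1 := by
      have := Set.ncard_le_ncard_sdiff_add_ncard F₀ {ψ v₀} (Set.finite_singleton _)
      rw [Set.ncard_singleton] at this
      exact this
    omega
  · intro c h1 h2 x hx y hy
    obtain ⟨a1, a2, a3⟩ := hf x (hX hx.1)
    obtain ⟨b1, b2, b3⟩ := hf y (hX hy.1)
    refine hbij.injOn hx.1 hy.1 ?_
    rw [huniq x _ _ a1 a2 h1 h2 a3 hx.2, huniq y _ _ b1 b2 h1 h2 b3 hy.2]

end BIC
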