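import Pool.Agent.Helper34.BIC.Defs

open Set

namespace BIC

variable {V : Type*}

/-- Counting form of independence. -/
def CntIndep (F : Set (Sym2 V)) : Prop :=
  ∀ c : (SimpleGraph.fromEdgeSet F).ConnectedComponent,
    {e | e ∈ F ∧ ∀ v ∈ e, v ∈ c.supp}.ncard ≤ c.supp.ncard

lemma reach_del {G : SimpleGraph V} {u : V} {p : G.Walk u u} (hp : p.IsCycle) {e : Sym2 V}
    (he : e ∈ p.edges) {x y : V} (h : G.Reachable x y) : (G.deleteEdges {e}).Reachable x y := by
  induction e with
  | _ a b =>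
    have h1 := (SimpleGraph.adj_and_reachable_delete_edges_iff_exists_cycle (v := a) (w := b)).2
      ⟨u, p, hp, he⟩
    obtain ⟨w⟩ := h
    induction w with
    | nil => exact SimpleGraph.Reachable.refl _
    | @cons c d _ hadj _ ih =>
      refine SimpleGraph.Reachable.trans ?_ ih
      by_cases hcd : s(c, d) = s(a, b)
      · rcases Sym2.eq_iff.1 hcd with ⟨rfl, rfl⟩ | ⟨rfl, rfl⟩
        · exact h1.2
        · exact h1.2.symm
      · refine SimpleGraph.Adj.reachable ?_
        rw [SimpleGraph.deleteEdges_adj]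
        exact ⟨hadj, by simpa using hcd⟩

lemma edge_count {H : SimpleGraph V} (c : H.ConnectedComponent) :
    {e | e ∈ H.edgeSet ∧ ∀ v ∈ e, v ∈ c.supp}.ncard = Nat.card c.toSimpleGraph.edgeSet := by
  have h1 : {e | e ∈ H.edgeSet ∧ ∀ v ∈ e, v ∈ c.supp} =
      Sym2.map Subtype.val '' c.toSimpleGraph.edgeSet := by
    ext e
    induction e with
    | _ a b =>
      constructor
      · rintro ⟨h1, h2⟩
        have ha := h2 a (by simp)
        have hb := h2 b (by simp)
        refine ⟨s(⟨a, ha⟩, ⟨b, hb⟩), ?_, by simp⟩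
        rw [SimpleGraph.mem_edgeSet] at h1 ⊢
        exact (SimpleGraph.ConnectedComponent.toSimpleGraph_adj c ha hb).2 h1
      · rintro ⟨x, hx, hxe⟩
        induction x with
        | _ x y =>
          rw [Sym2.map_mk] at hxe
          rw [SimpleGraph.mem_edgeSet] at hx
          have h3 := (SimpleGraph.ConnectedComponent.toSimpleGraph_adj c x.2 y.2).1 hx
          rw [← hxe]
          refine ⟨h3, ?_⟩
          intro v hv
          rcases Sym2.mem_iff.1 hv with rfl | rfl
          · exact x.2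
          · exact y.2
  rw [h1, Set.ncard_image_of_injective _ (Sym2.map.injective Subtype.val_injective)]
  rfl

lemma supp_card_le [Finite V] {H : SimpleGraph V} (c : H.ConnectedComponent) :
    c.supp.ncard ≤ {e | e ∈ H.edgeSet ∧ ∀ v ∈ e, v ∈ c.supp}.ncard + 1 := by
  rw [edge_count]
  exact c.connected_toSimpleGraph.card_vert_le_card_edgeSet_add_one

lemma supp_card_eq [Finite V] {H : SimpleGraph V} (hH : H.IsAcyclic) (c : H.ConnectedComponent) :
    {e | e ∈ H.edgeSet ∧ ∀ v ∈ e, v ∈ c.supp}.ncard + 1 = c.supp.ncard := by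
  rw [edge_count]
  exact (SimpleGraph.isTree_iff_connected_and_card.1 (hH.isTree_connectedComponent c)).2

lemma supp_eq {H H' : SimpleGraph V} (hr : ∀ x y, H.Reachable x y ↔ H'.Reachable x y) (u : V) :
    (H.connectedComponentMk u).supp = (H'.connectedComponentMk u).supp := by
  ext x
  rw [SimpleGraph.ConnectedComponent.mem_supp_iff, SimpleGraph.ConnectedComponent.mem_supp_iff,
    SimpleGraph.ConnectedComponent.eq, SimpleGraph.ConnectedComponent.eq]
  exact hr x u

/-- A set of edges with an injective choice of an end is independent. -/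
lemma BicIndep.of_inj [Finite V] {F : Set (Sym2 V)} (φ : Sym2 V → V) (h1 : InjOn φ F)
    (h2 : ∀ e ∈ F, φ e ∈ e) : BicIndep F := by
  classical
  have key : ∀ (H : SimpleGraph V), H = SimpleGraph.fromEdgeSet F →
      ∀ ⦃u v : V⦄ (p : H.Walk u u) (q : H.Walk v v), p.IsCycle → q.IsCycle →
      H.Reachable u v → ∀ e, e ∈ p.edges → e ∈ q.edges := by
    intro H hH u v p q hp hq huv e he
    by_contra heq
    have hHF : ∀ x ∈ H.edgeSet, x ∈ F := by
      intro x hx
      rw [hH, SimpleGraph.edgeSet_fromEdgeSet] at hx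
      exact hx.1
    have hq1 : ∀ x ∈ q.edges, x ∈ (H.deleteEdges {e}).edgeSet := by
      intro x hx
      rw [SimpleGraph.edgeSet_deleteEdges]
      exact ⟨q.edges_subset_edgeSet hx, fun h => heq (by rw [mem_singleton_iff] at h; exact h ▸ hx)⟩
    have hq' : (q.transfer (H.deleteEdges {e}) hq1).IsCycle := hq.transfer hq1
    obtain ⟨e', he'⟩ : ∃ e', e' ∈ q.edges := by
      have : 0 < q.edges.length := by
        rw [SimpleGraph.Walk.length_edges]
        have := hq.three_le_length
        omega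
      exact ⟨q.edges[0], List.getElem_mem this⟩
    have he'' : e' ∈ (q.transfer (H.deleteEdges {e}) hq1).edges := by
      rw [SimpleGraph.Walk.edges_transfer]; exact he'
    set H2 := (H.deleteEdges {e}).deleteEdges {e'} with hH2
    have hle : H2 ≤ H := (SimpleGraph.deleteEdges_le _).trans (SimpleGraph.deleteEdges_le _)
    have hr : ∀ x y, H2.Reachable x y ↔ H.Reachable x y := by
      intro x y
      constructor
      · intro h; exact h.mono hle
      · intro h; exact reach_del hq' he'' (reach_del hp he h)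
    have hs := supp_eq hr u
    have hc := supp_card_le (H2.connectedComponentMk u)
    rw [hs] at hc
    set A := (H.connectedComponentMk u).supp with hA
    have hmemA : ∀ x, x ∈ A ↔ H.Reachable x u := by
      intro x
      rw [hA, SimpleGraph.ConnectedComponent.mem_supp_iff, SimpleGraph.ConnectedComponent.eq]
    have hend : ∀ {w : V} (r : H.Walk w w), H.Reachable u w → ∀ x ∈ r.edges, ∀ z ∈ x, z ∈ A := by
      intro w r hw x hx z hz
      rw [hmemA]
      have hz' : z ∈ r.support := by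
        induction x with
        | _ a b =>
          rcases Sym2.mem_iff.1 hz with rfl | rfl
          · exact r.fst_mem_support_of_mem_edges hx
          · exact r.snd_mem_support_of_mem_edges hx
      exact (SimpleGraph.Walk.reachable (r.takeUntil z hz')).symm.trans hw.symm
    have hFc : {x | x ∈ F ∧ ∀ z ∈ x, z ∈ A}.ncard ≤ A.ncard := by
      refine Set.ncard_le_ncard_of_injOn φ ?_ (h1.mono fun e he => he.1) (Set.toFinite _)
      intro x hx
      exact hx.2 _ (h2 x hx.1)
    have hne : e ≠ e' := fun h => heq (h ▸ he')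
    have hsub : insert e (insert e' {x | x ∈ H2.edgeSet ∧ ∀ z ∈ x, z ∈ A}) ⊆
        {x | x ∈ F ∧ ∀ z ∈ x, z ∈ A} := by
      refine insert_subset ⟨hHF _ (p.edges_subset_edgeSet he), hend p (SimpleGraph.Reachable.refl _) e he⟩
        (insert_subset ⟨hHF _ (q.edges_subset_edgeSet he'), hend q huv e' he'⟩ ?_)
      intro x hx
      exact ⟨hHF _ (SimpleGraph.edgeSet_mono hle hx.1), hx.2⟩
    have hn1 : e' ∉ {x | x ∈ H2.edgeSet ∧ ∀ z ∈ x, z ∈ A} := by
      rintro ⟨h, _⟩
      rw [hH2, SimpleGraph.edgeSet_deleteEdges] at h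
      exact h.2 rfl
    have hn2 : e ∉ insert e' {x | x ∈ H2.edgeSet ∧ ∀ z ∈ x, z ∈ A} := by
      rintro (h | ⟨h, _⟩)
      · exact hne h
      · rw [hH2, SimpleGraph.edgeSet_deleteEdges, SimpleGraph.edgeSet_deleteEdges] at h
        exact h.1.2 rfl
    have h5 := Set.ncard_le_ncard hsub (Set.toFinite _)
    rw [Set.ncard_insert_of_notMem hn2 (Set.toFinite _),
      Set.ncard_insert_of_notMem hn1 (Set.toFinite _)] at h5
    omega
  intro u v p q hp hq huv
  ext e
  exact ⟨key _ rfl p q hp hq huv e, key _ rfl q p hq hp huv.symm e⟩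

lemma BicIndep.cnt [Finite V] {F : Set (Sym2 V)} (hF : BicIndep F) (hnd : ∀ e ∈ F, ¬ e.IsDiag) :
    CntIndep F := by
  classical
  suffices key : ∀ (H : SimpleGraph V), H = SimpleGraph.fromEdgeSet F →
      (∀ ⦃u v : V⦄ (p : H.Walk u u) (q : H.Walk v v), p.IsCycle → q.IsCycle →
        H.Reachable u v → {e | e ∈ p.edges} = {e | e ∈ q.edges}) →
      ∀ c : H.ConnectedComponent, {e | e ∈ F ∧ ∀ v ∈ e, v ∈ c.supp}.ncard ≤ c.supp.ncard from
    key _ rfl hF
  intro H hH hF c
  have hFH : ∀ x ∈ F, x ∈ H.edgeSet := by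
    intro x hx
    rw [hH, SimpleGraph.edgeSet_fromEdgeSet]
    exact ⟨hx, hnd x hx⟩
  obtain ⟨T, hTH, hTa, hTr⟩ := H.exists_isAcyclic_reachable_eq_le
  obtain ⟨u, hu⟩ : ∃ u, H.connectedComponentMk u = c := by
    induction c using SimpleGraph.ConnectedComponent.ind with
    | _ v => exact ⟨v, rfl⟩
  have hs : (T.connectedComponentMk u).supp = (H.connectedComponentMk u).supp :=
    supp_eq (fun x y => by rw [hTr]) u
  have hc := supp_card_eq hTa (T.connectedComponentMk u)
  rw [hs] at hc
  set A := (H.connectedComponentMk u).supp with hA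
  have hmemA : ∀ x, x ∈ A ↔ H.Reachable x u := by
    intro x
    rw [hA, SimpleGraph.ConnectedComponent.mem_supp_iff, SimpleGraph.ConnectedComponent.eq]
  have hcyc : ∀ e, e ∈ F → (∀ z ∈ e, z ∈ A) → e ∉ T.edgeSet →
      ∃ (w : V) (p : H.Walk w w), H.Reachable w u ∧ p.IsCycle ∧ e ∈ p.edges ∧
        ∀ x ∈ p.edges, x = e ∨ x ∈ T.edgeSet := by
    intro e he heA heT
    induction e with
    | _ a b =>
      have ha := (hmemA a).1 (heA a (by simp))
      have hb := (hmemA b).1 (heA b (by simp))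
      have hab : T.Reachable b a := by
        rw [hTr]; exact hb.trans ha.symm
      obtain ⟨P, hP⟩ := hab.exists_isPath
      have hadj : H.Adj a b := hFH _ he
      have hedges : (P.mapLe hTH).edges = P.edges := by simp
      have hcy : (SimpleGraph.Walk.cons hadj (P.mapLe hTH)).IsCycle := by
        rw [SimpleGraph.Walk.cons_isCycle_iff]
        refine ⟨hP.mapLe hTH, ?_⟩
        rw [hedges]
        intro h
        exact heT (P.edges_subset_edgeSet h)
      refine ⟨a, _, ha, hcy, by simp, ?_⟩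
      intro x hx
      rw [SimpleGraph.Walk.edges_cons, List.mem_cons, hedges] at hx
      rcases hx with hx | hx
      · exact Or.inl hx
      · exact Or.inr (P.edges_subset_edgeSet hx)
  have hD : ({x | x ∈ F ∧ ∀ z ∈ x, z ∈ A} \ T.edgeSet).Subsingleton := by
    rintro e₁ ⟨⟨h1, h2⟩, h3⟩ e₂ ⟨⟨h1', h2'⟩, h3'⟩
    obtain ⟨w, p, hw, hp, hep, hpe⟩ := hcyc e₁ h1 h2 h3
    obtain ⟨w', p', hw', hp', hep', hpe'⟩ := hcyc e₂ h1' h2' h3'
    have h6 := hF p p' hp hp' (hw.trans hw'.symm)
    have h7 : e₁ ∈ {e | e ∈ p'.edges} := by rw [← h6]; exact hep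
    rcases hpe' e₁ h7 with h | h
    · exact h
    · exact absurd h h3
  have hsub : {x | x ∈ F ∧ ∀ z ∈ x, z ∈ A} ⊆ {x | x ∈ T.edgeSet ∧ ∀ z ∈ x, z ∈ A} ∪
      ({x | x ∈ F ∧ ∀ z ∈ x, z ∈ A} \ T.edgeSet) := by
    intro x hx
    by_cases hxT : x ∈ T.edgeSet
    · exact Or.inl ⟨hxT, hx.2⟩
    · exact Or.inr ⟨hx, hxT⟩
  have h8 := (Set.ncard_le_ncard hsub (Set.toFinite _)).trans (Set.ncard_union_le _ _)
  have h9 : ({x | x ∈ F ∧ ∀ z ∈ x, z ∈ A} \ T.edgeSet).ncard ≤ 1 := by
    rcases hD.eq_empty_or_singleton with h | ⟨a, h⟩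
    · simp [h]
    · simp [h]
  have hgoal : {x | x ∈ F ∧ ∀ z ∈ x, z ∈ A}.ncard ≤ A.ncard := by omega
  rw [← hu]
  exact hgoal

end BIC
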