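import Mathlib

open Set

namespace BIC

/-- Adjacency in the `n × n` grid: the pairs differ by one in exactly one coordinate. -/
def gridAdj {n : ℕ} (p q : Fin n × Fin n) : Prop :=
  (p.1 = q.1 ∧ (p.2.val + 1 = q.2.val ∨ q.2.val + 1 = p.2.val)) ∨
  (p.2 = q.2 ∧ (p.1.val + 1 = q.1.val ∨ q.1.val + 1 = p.1.val))

/-- The graph `G_n^+`: the `n × n` grid (vertices `some (i, j)`) together with one new vertex
`none` adjacent to every grid vertex. -/
def GPlus (n : ℕ) : SimpleGraph (Option (Fin n × Fin n)) where
  Adj u v := match u, v with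
    | none, none => False
    | none, some _ => True
    | some _, none => True
    | some p, some q => gridAdj p q
  symm := ⟨by
    rintro (_ | p) (_ | q) h
    · exact h
    · trivial
    · trivial
    · rcases h with ⟨h1, h2 | h2⟩ | ⟨h1, h2 | h2⟩
      · exact Or.inl ⟨h1.symm, Or.inr h2⟩
      · exact Or.inl ⟨h1.symm, Or.inl h2⟩
      · exact Or.inr ⟨h1.symm, Or.inr h2⟩
      · exact Or.inr ⟨h1.symm, Or.inl h2⟩⟩
  loopless := ⟨by
    rintro (_ | p) h
    · exact h
    · rcases h with ⟨_, h2 | h2⟩ | ⟨_, h2 | h2⟩ <;> omega⟩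

/-- Independence in the bicircular matroid: every connected component of the graph with edge set
`F` contains at most one cycle, that is, any two cycles whose vertices lie in one connected
component have the same edge set. -/
def BicIndep {V : Type*} (F : Set (Sym2 V)) : Prop :=
  ∀ ⦃u v : V⦄ (p : (SimpleGraph.fromEdgeSet F).Walk u u) (q : (SimpleGraph.fromEdgeSet F).Walk v v),
    p.IsCycle → q.IsCycle → (SimpleGraph.fromEdgeSet F).Reachable u v →
    {e | e ∈ p.edges} = {e | e ∈ q.edges}

/-- `N` is isomorphic to the bicircular matroid `B(G)`. -/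
def IsBicircular {α V : Type*} (N : Matroid α) (G : SimpleGraph V) : Prop :=
  ∃ φ : Sym2 V → α, InjOn φ G.edgeSet ∧ N.E = φ '' G.edgeSet ∧
    ∀ F ⊆ G.edgeSet, (N.Indep (φ '' F) ↔ BicIndep F)

end BIC
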