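import Pool.Agent.Helper34.BIC.Side
import Pool.Agent.Helper34.BIC.Link

open Set

namespace BIC

variable {α V ι κ π : Type*}

namespace Board

variable [Fintype ι] {M : Matroid α} {S : Set α} {ends : α → Sym2 V} {ψ : V → α} {N : ℕ}
  {X : Set α} {W : ℕ × ℕ → Set V}

lemma good_row (h : Board ι M S ends ψ N X W) (hfin : X.Finite) (f : α → ℕ × ℕ)
    (hf : ∀ x ∈ X, (f x).1 < N ∧ (f x).2 < N ∧ x ∈ ψ '' W (f x)) {q : ℕ}
    (hq : 2 * q ≤ ((fun x => (f x).1) '' X).ncard) :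
    ∃ (W' : ℕ × ℕ → Set V) (X' : Set α) (f' : α → ℕ × ℕ), X' ⊆ X ∧ q ≤ X'.ncard ∧
      Board ι M S ends ψ N X' W' ∧
      (∀ x ∈ X', (f' x).1 < N ∧ (f' x).2 ≤ N / 2 ∧ x ∈ ψ '' W' (f' x)) ∧
      InjOn (fun x => (f' x).1) X' := by
  obtain ⟨X₁, hX₁, hbij⟩ := Set.exists_subset_bijOn X (fun x => (f x).1)
  have hX₁f : X₁.Finite := hfin.subset hX₁
  have hc : 2 * q ≤ X₁.ncard := by
    rw [← hbij.image_eq, hbij.injOn.ncard_image] at hq
    exact hq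
  set A : Set α := {x | x ∈ X₁ ∧ (f x).2 ≤ N / 2} with hA
  set B : Set α := {x | x ∈ X₁ ∧ N / 2 < (f x).2} with hB
  have hAB : X₁ ⊆ A ∪ B := by
    intro x hx
    rcases Nat.lt_or_ge (N / 2) (f x).2 with h1 | h1
    · exact Or.inr ⟨hx, h1⟩
    · exact Or.inl ⟨hx, h1⟩
  have hAs : A ⊆ X₁ := fun x hx => hx.1
  have hBs : B ⊆ X₁ := fun x hx => hx.1
  have hcard : X₁.ncard ≤ A.ncard + B.ncard :=
    (Set.ncard_le_ncard hAB ((hX₁f.subset hAs).union (hX₁f.subset hBs))).trans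
      (Set.ncard_union_le _ _)
  rcases Nat.lt_or_ge A.ncard q with h1 | h1
  · refine ⟨fun c => W (c.1, N - 1 - c.2), B, fun x => ((f x).1, N - 1 - (f x).2),
      hBs.trans hX₁, by omega, h.reflectDepth.mono (hBs.trans hX₁), ?_, ?_⟩
    · intro x hx
      obtain ⟨h2, h3, h4⟩ := hf x (hX₁ hx.1)
      have h5 := hx.2
      refine ⟨h2, ?_, ?_⟩
      · simp only; omega
      · simp only
        rw [show N - 1 - (N - 1 - (f x).2) = (f x).2 by omega]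
        exact h4
    · exact hbij.injOn.mono hBs
  · refine ⟨W, A, f, hAs.trans hX₁, h1, h.mono (hAs.trans hX₁), ?_, hbij.injOn.mono hAs⟩
    intro x hx
    obtain ⟨h2, h3, h4⟩ := hf x (hX₁ hx.1)
    exact ⟨h2, hx.2, h4⟩

lemma good_view (h : Board ι M S ends ψ N X W) (hfin : X.Finite) (f : α → ℕ × ℕ)
    (hf : ∀ x ∈ X, (f x).1 < N ∧ (f x).2 < N ∧ x ∈ ψ '' W (f x)) (hinj : InjOn f X) {q : ℕ}
    (hq : (2 * q) ^ 2 ≤ X.ncard) :
    ∃ (W' : ℕ × ℕ → Set V) (X' : Set α) (f' : α → ℕ × ℕ), X' ⊆ X ∧ q ≤ X'.ncard ∧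
      Board ι M S ends ψ N X' W' ∧
      (∀ x ∈ X', (f' x).1 < N ∧ (f' x).2 ≤ N / 2 ∧ x ∈ ψ '' W' (f' x)) ∧
      InjOn (fun x => (f' x).1) X' := by
  by_cases h1 : 2 * q ≤ ((fun x => (f x).1) '' X).ncard
  · exact h.good_row hfin f hf h1
  · refine h.transpose.good_row hfin (fun x => ((f x).2, (f x).1)) ?_ ?_
    · intro x hx
      obtain ⟨h2, h3, h4⟩ := hf x hx
      exact ⟨h3, h2, h4⟩
    · by_contra h2
      push Not at h1 h2
      simp only at h2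
      have h3 : X.ncard ≤ (((fun x => (f x).1) '' X) ×ˢ ((fun x => (f x).2) '' X)).ncard := by
        refine Set.ncard_le_ncard_of_injOn f ?_ hinj ((hfin.image _).prod (hfin.image _))
        intro x hx
        exact ⟨⟨x, hx, rfl⟩, ⟨x, hx, rfl⟩⟩
      rw [Set.ncard_prod] at h3
      have h4 : ((fun x => (f x).1) '' X).ncard * ((fun x => (f x).2) '' X).ncard <
          (2 * q) * (2 * q) := Nat.mul_lt_mul'' h1 h2
      rw [pow_two] at hq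
      omega

/-- Trees and merging together. -/
lemma sideFull [Nonempty α] [Fintype κ] [Fintype π] [DecidableEq κ]
    (h : Board ι M S ends ψ N X W) (hfin : X.Finite)
    (f : α → ℕ × ℕ) (hf : ∀ x ∈ X, (f x).1 < N ∧ (f x).2 ≤ N / 2 ∧ x ∈ ψ '' W (f x))
    (hinj : InjOn (fun x => (f x).1) X)
    (row : π → κ) (key : π → ℕ) (dep : κ → ℕ) (hsurj : ∀ u, ∃ p, row p = u)
    (hkey : Function.Injective key)
    (hnest : ∀ p₁ p p₂, key p₁ ≤ key p → key p ≤ key p₂ → row p₁ = row p₂ → row p ≠ row p₁ →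
      dep (row p) < dep (row p₁))
    (hdep : ∀ u, N / 2 + dep u < N)
    (BX : π → Set α) (hBX : ∀ p, BX p ⊆ X) (hne : ∀ p, (BX p).Nonempty)
    (hinc : ∀ p p', key p < key p' → ∀ x ∈ BX p, ∀ x' ∈ BX p', (f x).1 < (f x').1)
    (μ : ι → Set π) (xs : ι → π → α) (hxs : ∀ i, ∀ p ∈ μ i, xs i p ∈ BX p)
    (hμ : ∀ i, InjOn row (μ i)) (R : ι → Set α) (hR : ∀ i, Disjoint (R i) S)
    (hbase : ∀ i, M.IsBase (R i ∪ (range ψ \ (xs i '' μ i)))) :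
    ∃ (C : Set α) (ℓ : κ → α), C ⊆ S ∧ (∀ u, ℓ u ∈ S ∧ ℓ u ∉ C) ∧ Function.Injective ℓ ∧
      ∀ i, M.IsBase (R i ∪ (C ∪ ℓ '' {u | u ∉ row '' μ i})) := by
  classical
  have hBXf : ∀ p, (BX p).Finite := fun p => hfin.subset (hBX p)
  obtain ⟨Bl, hBl⟩ : ∃ Bl : π → Finset ℕ, ∀ p l, l ∈ Bl p ↔ ∃ x ∈ BX p, (f x).1 = l := by
    refine ⟨fun p => ((hBXf p).image (fun x => (f x).1)).toFinset, ?_⟩
    intro p l
    rw [Set.Finite.mem_toFinset]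
    rfl
  obtain ⟨pd, hpd⟩ : ∃ pd : ℕ → ℕ, ∀ x ∈ X, pd (f x).1 = (f x).2 := by
    refine ⟨fun l => if hl : ∃ x ∈ X, (f x).1 = l then (f hl.choose).2 else 0, ?_⟩
    intro x hx
    have hl : ∃ x' ∈ X, (f x').1 = (f x).1 := ⟨x, hx, rfl⟩
    simp only [dif_pos hl]
    rw [hinj hl.choose_spec.1 hx hl.choose_spec.2]
  obtain ⟨Q, hQ1, hQ2, hQ3, hQ4⟩ := h.trees row key dep hsurj hkey hnest Bl
    (by
      intro p
      obtain ⟨x, hx⟩ := hne p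
      exact ⟨(f x).1, (hBl _ _).2 ⟨x, hx, rfl⟩⟩)
    (by
      intro p l hl
      obtain ⟨x, hx, rfl⟩ := (hBl _ _).1 hl
      exact (hf x (hBX p hx)).1)
    (by
      intro p p' hpp a ha b hb
      obtain ⟨x, hx, rfl⟩ := (hBl _ _).1 ha
      obtain ⟨x', hx', rfl⟩ := (hBl _ _).1 hb
      exact hinc p p' hpp x hx x' hx')
    pd (N / 2)
    (by
      intro p l hl
      obtain ⟨x, hx, rfl⟩ := (hBl _ _).1 hl
      rw [hpd x (hBX p hx)]
      exact (hf x (hBX p hx)).2.1)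
    hdep
  refine h.side row Q hQ1 hQ2 hQ3 μ xs ?_ hμ R hR hbase
  intro i p hp
  have hx := hxs i p hp
  refine ⟨hBX p hx, ((f (xs i p)).1, pd (f (xs i p)).1), hQ4 p _ ((hBl _ _).2 ⟨_, hx, rfl⟩), ?_⟩
  rw [hpd _ (hBX p hx)]
  exact (hf _ (hBX p hx)).2.2

end Board

end BIC
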