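import Pool.Agent.Helper34.BIC.ToBic
import Pool.Agent.Helper34.BIC.CoreThm

open Set
open scoped Matroid

namespace BIC

variable {α : Type*}

/-- `vt` displays an `n × n` grid in `G`; the only possible further vertex is `ap`. -/
structure GridLike (n : ℕ) {V : Type} (G : SimpleGraph V) (vt : ℕ → ℕ → V) (ap : V) : Prop where
  inj : ∀ {r c r' c' : ℕ}, r < n → c < n → r' < n → c' < n → vt r c = vt r' c' → r = r' ∧ c = c'
  adjh : ∀ {r c : ℕ}, r < n → c + 1 < n → G.Adj (vt r c) (vt r (c + 1))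
  adjv : ∀ {r c : ℕ}, r + 1 < n → c < n → G.Adj (vt r c) (vt (r + 1) c)
  cov : ∀ v, v = ap ∨ ∃ r c, r < n ∧ c < n ∧ v = vt r c
  apex : (∃ r c, r < n ∧ c < n ∧ ap = vt r c) ∨ G.Adj ap (vt 0 0)

section grid

variable {V : Type}

/-- the perimeter of a ladder -/
def cyc (vt : ℕ → ℕ → V) (h y j i : ℕ) : V :=
  if i % (4 * h) < 2 * h then vt (2 * y) (2 * h * j + i % (4 * h))
  else vt (2 * y + 1) (2 * h * j + (4 * h - 1 - i % (4 * h)))

variable {vt : ℕ → ℕ → V}

lemma cyc_per (h y j i : ℕ) : cyc vt h y j (i + 4 * h) = cyc vt h y j i := by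
  unfold cyc; rw [Nat.add_mod_right]

variable {n h N : ℕ} {G : SimpleGraph V} {ap : V}


lemma col_lt (hn : n = 2 * h * N) {j s : ℕ} (hj : j < N) (hs : s < 2 * h) :
    2 * h * j + s < n := by
  rw [hn]
  calc 2 * h * j + s < 2 * h * j + 2 * h := by omega
    _ = 2 * h * (j + 1) := by ring
    _ ≤ 2 * h * N := Nat.mul_le_mul_left _ hj

lemma row_lt (hn : n = 2 * h * N) {y : ℕ} (hy : y < h * N) : 2 * y + 1 < n := by
  rw [hn, mul_assoc]; omega

/-- coordinates of the points of the cycle -/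
lemma cyc_cases (hh : 1 ≤ h) {y j i : ℕ} :
    (i % (4 * h) < 2 * h ∧ cyc vt h y j i = vt (2 * y) (2 * h * j + i % (4 * h))) ∨
    (2 * h ≤ i % (4 * h) ∧ i % (4 * h) < 4 * h ∧
      cyc vt h y j i = vt (2 * y + 1) (2 * h * j + (4 * h - 1 - i % (4 * h)))) := by
  have h1 : i % (4 * h) < 4 * h := Nat.mod_lt _ (by omega)
  unfold cyc
  split_ifs with h2
  · exact Or.inl ⟨h2, rfl⟩
  · exact Or.inr ⟨by omega, h1, rfl⟩

lemma cyc_adj (hG : GridLike n G vt ap) (hh : 1 ≤ h) (hn : n = 2 * h * N) {y j : ℕ} (hy : y < h * N) (hj : j < N) (i : ℕ) :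
    G.Adj (cyc vt h y j i) (cyc vt h y j (i + 1)) := by
  have hr := row_lt hn hy
  have hmod : (i + 1) % (4 * h) = if i % (4 * h) + 1 = 4 * h then 0 else i % (4 * h) + 1 := by
    have h1 : i % (4 * h) < 4 * h := Nat.mod_lt _ (by omega)
    split_ifs with h2
    · rw [Nat.add_mod, ← h2]
      rcases Nat.lt_or_ge 1 (4 * h) with h3 | h3
      · rw [h2, Nat.mod_eq_of_lt h3, h2, Nat.mod_self]
      · omega
    · rw [Nat.add_mod, Nat.mod_eq_of_lt (show 1 < 4 * h by omega), Nat.mod_eq_of_lt]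
      omega
  rcases cyc_cases (vt := vt) hh (y := y) (j := j) (i := i) with ⟨h1, h2⟩ | ⟨h1, h1', h2⟩ <;>
  rcases cyc_cases (vt := vt) hh (y := y) (j := j) (i := i + 1) with ⟨h3, h4⟩ | ⟨h3, h3', h4⟩ <;>
  rw [h2, h4] <;> rw [hmod] at h3 ⊢ <;> split_ifs at h3 ⊢ with h5
  · omega
  · exact hG.adjh (by omega) (col_lt hn hj (s := i % (4 * h) + 1) (by omega))
  · omega
  · have e : 4 * h - 1 - (i % (4 * h) + 1) = i % (4 * h) := by omega
    rw [e]
    exact hG.adjv hr (col_lt hn hj (by omega))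
  · have e : 4 * h - 1 - i % (4 * h) = 0 := by omega
    rw [e]
    exact (hG.adjv hr (col_lt hn hj (by omega))).symm
  · omega
  · omega
  · have e : 4 * h - 1 - i % (4 * h) = (4 * h - 1 - (i % (4 * h) + 1)) + 1 := by omega
    rw [e, ← add_assoc]
    refine (hG.adjh hr ?_).symm
    rw [add_assoc]
    exact col_lt hn hj (by omega)

lemma cyc_inj (hG : GridLike n G vt ap) (hh : 1 ≤ h) (hn : n = 2 * h * N) {y j y' j' i i' : ℕ} (hy : y < h * N) (hj : j < N)
    (hy' : y' < h * N) (hj' : j' < N) (he : cyc vt h y j i = cyc vt h y' j' i') :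
    y = y' ∧ j = j' ∧ i % (4 * h) = i' % (4 * h) := by
  have hr := row_lt hn hy
  have hr' := row_lt hn hy'
  have hjj : ∀ {s s' : ℕ}, s < 2 * h → s' < 2 * h → 2 * h * j + s = 2 * h * j' + s' →
      j = j' ∧ s = s' := by
    intro s s' hs hs' hss
    have e1 : (2 * h * j + s) / (2 * h) = j := by
      rw [Nat.mul_add_div (by omega), Nat.div_eq_of_lt hs, add_zero]
    have e2 : (2 * h * j' + s') / (2 * h) = j' := by
      rw [Nat.mul_add_div (by omega), Nat.div_eq_of_lt hs', add_zero]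
    have : j = j' := by rw [← e1, ← e2, hss]
    subst this
    exact ⟨rfl, by omega⟩
  rcases cyc_cases (vt := vt) hh (y := y) (j := j) (i := i) with ⟨h1, h2⟩ | ⟨h1, h1', h2⟩ <;>
  rcases cyc_cases (vt := vt) hh (y := y') (j := j') (i := i') with ⟨h3, h4⟩ | ⟨h3, h3', h4⟩ <;>
  rw [h2, h4] at he
  · obtain ⟨a, b⟩ := hG.inj (by omega) (col_lt hn hj h1) (by omega) (col_lt hn hj' h3) he
    obtain ⟨c, d⟩ := hjj h1 h3 b
    exact ⟨by omega, c, d⟩
  · obtain ⟨a, b⟩ := hG.inj (by omega) (col_lt hn hj h1) (by omega)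
      (col_lt hn hj' (by omega)) he
    omega
  · obtain ⟨a, b⟩ := hG.inj (by omega) (col_lt hn hj (by omega)) (by omega)
      (col_lt hn hj' h3) he
    omega
  · obtain ⟨a, b⟩ := hG.inj (by omega) (col_lt hn hj (by omega)) (by omega)
      (col_lt hn hj' (by omega)) he
    obtain ⟨c, d⟩ := hjj (by omega) (by omega) b
    exact ⟨by omega, c, by omega⟩

lemma vt_mem_cyc (hh : 1 ≤ h) {r c : ℕ} :
    ∃ i < 4 * h, cyc vt h (r / 2) (c / (2 * h)) i = vt r c := by
  have hc := Nat.div_add_mod c (2 * h)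
  have hc' : c % (2 * h) < 2 * h := Nat.mod_lt _ (by omega)
  rcases Nat.even_or_odd' r with ⟨y, rfl | rfl⟩
  · refine ⟨c % (2 * h), by omega, ?_⟩
    unfold cyc
    rw [Nat.mod_eq_of_lt (show c % (2 * h) < 4 * h by omega), if_pos hc',
      show 2 * y / 2 = y by omega, hc]
  · refine ⟨4 * h - 1 - c % (2 * h), by omega, ?_⟩
    unfold cyc
    rw [Nat.mod_eq_of_lt (show 4 * h - 1 - c % (2 * h) < 4 * h by omega), if_neg (by omega),
      show (2 * y + 1) / 2 = y by omega,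
      show 4 * h - 1 - (4 * h - 1 - c % (2 * h)) = c % (2 * h) by omega, hc]

/-- `v` lies on one of the cycles -/
def OnCyc (vt : ℕ → ℕ → V) (h N : ℕ) (v : V) : Prop :=
  ∃ y j i, y < h * N ∧ j < N ∧ i < 4 * h ∧ v = cyc vt h y j i

lemma onCyc_vt (hh : 1 ≤ h) (hn : n = 2 * h * N) {r c : ℕ} (hr : r < n) (hc : c < n) :
    OnCyc vt h N (vt r c) := by
  obtain ⟨i, hi, he⟩ := vt_mem_cyc (vt := vt) hh (r := r) (c := c)
  refine ⟨r / 2, c / (2 * h), i, ?_, ?_, hi, he.symm⟩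
  · rw [hn, mul_assoc] at hr; omega
  · rw [Nat.div_lt_iff_lt_mul (by omega), mul_comm N]; omega

lemma exists_cyc (hG : GridLike n G vt ap) (hh : 1 ≤ h) (hn : n = 2 * h * N) (v : V) :
    (v = ap ∧ ¬ OnCyc vt h N v) ∨ OnCyc vt h N v := by
  by_cases hv : OnCyc vt h N v
  · exact Or.inr hv
  · left
    refine ⟨?_, hv⟩
    rcases hG.cov v with h1 | ⟨r, c, hr, hc, rfl⟩
    · exact h1
    · exact absurd (onCyc_vt hh hn hr hc) hv

/-- the vertex set of a ladder -/
def Lad (vt : ℕ → ℕ → V) (h y j : ℕ) : Set (V) := cyc vt h y j '' {i | i < 4 * h}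

/-- the vertex set of a cell -/
def Cell (vt : ℕ → ℕ → V) (h : ℕ) (c : ℕ × ℕ) : Set (V) :=
  ⋃ t ∈ Finset.range h, Lad vt h (h * c.1 + t) c.2

lemma mem_Lad_of_cyc (hh : 1 ≤ h) {y j i : ℕ} : cyc vt h y j i ∈ Lad vt h y j := by
  refine ⟨i % (4 * h), Nat.mod_lt _ (by omega), ?_⟩
  unfold cyc
  rw [Nat.mod_mod]

lemma vt_mem_Lad (hh : 1 ≤ h) {r y j s : ℕ} (hr : r = 2 * y ∨ r = 2 * y + 1) (hs : s < 2 * h) :
    vt r (2 * h * j + s) ∈ Lad vt h y j := by
  obtain ⟨i, hi, he⟩ := vt_mem_cyc (vt := vt) hh (r := r) (c := 2 * h * j + s)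
  have e1 : r / 2 = y := by omega
  have e2 : (2 * h * j + s) / (2 * h) = j := by
    rw [Nat.mul_add_div (by omega), Nat.div_eq_of_lt hs, add_zero]
  rw [e1, e2] at he
  exact ⟨i, hi, he⟩

lemma vt_mem_Cell (hh : 1 ≤ h) {Y j a s : ℕ} (ha : a < 2 * h) (hs : s < 2 * h) :
    vt (2 * h * Y + a) (2 * h * j + s) ∈ Cell vt h (Y, j) := by
  unfold Cell
  refine mem_iUnion₂.2 ⟨a / 2, Finset.mem_range.2 (by omega), ?_⟩
  refine vt_mem_Lad hh ?_ hs
  have e : 2 * h * Y = 2 * (h * Y) := by ring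
  simp only
  omega

lemma Lad_disj (hG : GridLike n G vt ap) (hh : 1 ≤ h) (hn : n = 2 * h * N) {y j y' j' : ℕ} (hy : y < h * N) (hj : j < N)
    (hy' : y' < h * N) (hj' : j' < N) (hne : ¬ (y = y' ∧ j = j')) :
    Disjoint (Lad vt h y j) (Lad vt h y' j') := by
  rw [Set.disjoint_left]
  rintro _ ⟨i, hi, rfl⟩ ⟨i', hi', he⟩
  obtain ⟨a, b, _⟩ := cyc_inj hG hh hn hy' hj' hy hj he
  exact hne ⟨a.symm, b.symm⟩

lemma hY_lt {Y t : ℕ} (hY : Y < N) (ht : t < h) : h * Y + t < h * N := by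
  calc h * Y + t < h * Y + h := by omega
    _ = h * (Y + 1) := by ring
    _ ≤ h * N := Nat.mul_le_mul_left _ hY

lemma Cell_disj (hG : GridLike n G vt ap) (hh : 1 ≤ h) (hn : n = 2 * h * N) (c c' : ℕ × ℕ) (h1 : c.1 < N) (h2 : c.2 < N)
    (h1' : c'.1 < N) (h2' : c'.2 < N) (hne : c ≠ c') : Disjoint (Cell vt h c) (Cell vt h c') := by
  unfold Cell
  simp only [Set.disjoint_iUnion₂_left, Set.disjoint_iUnion₂_right]
  intro t ht t' ht'
  have ht1 := Finset.mem_range.1 ht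
  have ht1' := Finset.mem_range.1 ht'
  refine Lad_disj hG hh hn (hY_lt h1 ht1') h2 (hY_lt h1' ht1) h2' ?_
  rintro ⟨a, b⟩
  apply hne
  have e1 : (h * c.1 + t') / h = c.1 := by
    rw [Nat.mul_add_div (by omega), Nat.div_eq_of_lt ht1', add_zero]
  have e2 : (h * c'.1 + t) / h = c'.1 := by
    rw [Nat.mul_add_div (by omega), Nat.div_eq_of_lt ht1, add_zero]
  exact Prod.ext (by rw [← e1, ← e2, a]) b

/-- successor of a vertex on its cycle -/
noncomputable def nxt (vt : ℕ → ℕ → V) (h N : ℕ) (v : V) : V :=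
  open Classical in
  if hv : ∃ q : ℕ × ℕ × ℕ, q.1 < h * N ∧ q.2.1 < N ∧ v = cyc vt h q.1 q.2.1 q.2.2 then
    cyc vt h hv.choose.1 hv.choose.2.1 (hv.choose.2.2 + 1)
  else vt 0 0

lemma cyc_mod (h y j i : ℕ) : cyc vt h y j (i % (4 * h)) = cyc vt h y j i := by
  unfold cyc; rw [Nat.mod_mod]

lemma cyc_congr {y j i i' : ℕ} (h1 : i % (4 * h) = i' % (4 * h)) :
    cyc vt h y j i = cyc vt h y j i' := by
  rw [← cyc_mod, h1, cyc_mod]

lemma nxt_cyc (hG : GridLike n G vt ap) (hh : 1 ≤ h) (hn : n = 2 * h * N) {y j i : ℕ} (hy : y < h * N) (hj : j < N) :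
    nxt vt h N (cyc vt h y j i) = cyc vt h y j (i + 1) := by
  have hv : ∃ q : ℕ × ℕ × ℕ, q.1 < h * N ∧ q.2.1 < N ∧
      cyc vt h y j i = cyc vt h q.1 q.2.1 q.2.2 := ⟨(y, j, i), hy, hj, rfl⟩
  unfold nxt
  rw [dif_pos hv]
  obtain ⟨a1, a2, a3⟩ := hv.choose_spec
  generalize hv.choose = q at a1 a2 a3 ⊢
  obtain ⟨b1, b2, b3⟩ := cyc_inj hG hh hn hy hj a1 a2 a3
  rw [← b1, ← b2]
  apply cyc_congr
  rw [Nat.add_mod, ← b3, ← Nat.add_mod]

lemma nxt_none (hh : 1 ≤ h) {v : V} (hv : ¬ OnCyc vt h N v) : nxt vt h N v = vt 0 0 := by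
  unfold nxt
  rw [dif_neg]
  rintro ⟨⟨y, j, i⟩, hy, hj, he⟩
  refine hv ⟨y, j, i % (4 * h), hy, hj, Nat.mod_lt _ (by omega), ?_⟩
  rw [cyc_mod]
  exact he

lemma adj_nxt (hG : GridLike n G vt ap) (hh : 1 ≤ h) (hn : n = 2 * h * N) (v : V) :
    G.Adj v (nxt vt h N v) := by
  rcases exists_cyc hG hh hn v with ⟨rfl, hv⟩ | ⟨y, j, i, hy, hj, _, rfl⟩
  · rw [nxt_none hh hv]
    rcases hG.apex with ⟨r, c, hr, hc, he⟩ | h1
    · exact absurd (by rw [he]; exact onCyc_vt hh hn hr hc) hv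
    · exact h1
  · rw [nxt_cyc hG hh hn hy hj]; exact cyc_adj hG hh hn hy hj i

lemma nxt_nxt (hG : GridLike n G vt ap) (hh : 1 ≤ h) (hn : n = 2 * h * N) (hN : 1 ≤ N) (v : V) :
    nxt vt h N (nxt vt h N v) ≠ v := by
  have hn0 : 0 < n := by rw [hn]; positivity
  have hcase : ∀ w : V, OnCyc vt h N w → OnCyc vt h N (nxt vt h N w) := by
    rintro w ⟨y, j, i, hy, hj, _, rfl⟩
    rw [nxt_cyc hG hh hn hy hj]
    exact ⟨y, j, (i + 1) % (4 * h), hy, hj, Nat.mod_lt _ (by omega), by rw [cyc_mod]⟩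
  rcases exists_cyc hG hh hn v with ⟨_, hv⟩ | ⟨y, j, i, hy, hj, _, rfl⟩
  · intro he
    apply hv
    rw [← he]
    refine hcase _ ?_
    rw [nxt_none hh hv]
    exact onCyc_vt hh hn hn0 hn0
  · rw [nxt_cyc hG hh hn hy hj, nxt_cyc hG hh hn hy hj]
    intro he
    have h1 := (cyc_inj hG hh hn hy hj hy hj he).2.2
    have h2 : (i + 1 + 1) ≡ i [MOD 4 * h] := h1
    have h3 : (i + 2) ≡ i + 0 [MOD 4 * h] := h2
    have h4 := Nat.ModEq.add_left_cancel' i h3
    unfold Nat.ModEq at h4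
    rw [Nat.mod_eq_of_lt (show 2 < 4 * h by omega), Nat.zero_mod] at h4
    omega

end grid

lemma rung_of {ι : Type*} [Fintype ι] {V : Type*} {S : Set α} {G : SimpleGraph V} {φ : Sym2 V → α}
    {ends : α → Sym2 V} (hφ : ∀ x ∈ G.edgeSet, φ x ∈ S ∧ ends (φ x) = x) {W₁ W₂ : Set V} {h : ℕ}
    (hι : Fintype.card ι < 2 * h) (a b : ℕ → V) (ha : ∀ s < 2 * h, a s ∈ W₁)
    (hb : ∀ s < 2 * h, b s ∈ W₂) (hab : ∀ s < 2 * h, G.Adj (a s) (b s))
    (hinj : ∀ s < 2 * h, ∀ s' < 2 * h, a s = a s' → s = s')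
    (hne : ∀ s < 2 * h, ∀ s' < 2 * h, a s ≠ b s') : Rung ι S ends W₁ W₂ := by
  classical
  refine ⟨(Finset.range (2 * h)).image (fun s => φ s(a s, b s)), ?_, ?_⟩
  · rw [Finset.card_image_of_injOn, Finset.card_range]
    · exact hι
    · intro s hs s' hs' hss
      have hs1 := Finset.mem_range.1 hs
      have hs1' := Finset.mem_range.1 hs'
      have h1 := congrArg ends hss
      simp only at h1
      rw [(hφ _ (hab s hs1)).2, (hφ _ (hab s' hs1')).2] at h1
      rcases Sym2.eq_iff.1 h1 with ⟨h2, _⟩ | ⟨h2, _⟩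
      · exact hinj s hs1 s' hs1' h2
      · exact absurd h2 (hne s hs1 s' hs1')
  · intro f hf
    obtain ⟨s, hs, rfl⟩ := Finset.mem_image.1 hf
    have hs1 := Finset.mem_range.1 hs
    exact ⟨(hφ _ (hab s hs1)).1, a s, ha s hs1, b s, hb s hs1, (hφ _ (hab s hs1)).2⟩

theorem side_data {ι : Type} [Fintype ι] {M : Matroid α} {S : Set α} (hS : S ⊆ M.E)
    {V : Type} [Finite V] {G : SimpleGraph V} {vt : ℕ → ℕ → V} {ap : V}
    {n h N : ℕ} (hG : GridLike n G vt ap) (hh : 1 ≤ h) (hn : n = 2 * h * N) (hN : 1 ≤ N)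
    (hι : Fintype.card ι < 2 * h)
    (hbic : IsBicircular (M ↾ S) G) : SideData ι M S N (2 * h * (2 * h)) := by
  classical
  have hVne : Nonempty V := ⟨ap⟩
  obtain ⟨φ, ends, hφ, hB⟩ := exists_bic hS hbic
  set ψ : V → α := fun v => φ s(v, nxt vt h N v) with hψ
  have hedge : ∀ v, s(v, nxt vt h N v) ∈ G.edgeSet := fun v => adj_nxt hG hh hn v
  have hends : ∀ v, ψ v ∈ S ∧ ends (ψ v) = s(v, nxt vt h N v) := fun v => hφ _ (hedge v)
  have hpsi : ∀ v, ψ v ∈ S ∧ v ∈ ends (ψ v) := fun v =>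
    ⟨(hends v).1, by rw [(hends v).2]; simp⟩
  have hψi : Function.Injective ψ := by
    intro v v' hvv
    have h1 := congrArg ends hvv
    rw [(hends v).2, (hends v').2] at h1
    rcases Sym2.eq_iff.1 h1 with ⟨h2, _⟩ | ⟨h2, h3⟩
    · exact h2
    · exfalso
      apply nxt_nxt hG hh hn hN v'
      rw [← h2, h3]
  have hlad : ∀ y j, y < h * N → j < N → ∀ X : Set α, (X ∩ ψ '' Lad vt h y j).Subsingleton →
      Mg ι M S ends (Lad vt h y j) (ψ '' Lad vt h y j) (X ∩ ψ '' Lad vt h y j) := by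
    intro y j hy hj X hX
    refine Mg.cycle (L := 4 * h) (by omega) (cyc vt h y j) (cyc_per h y j) ?_ rfl hψi.injOn ?_ hX
    · intro s hs t ht hst
      have := (cyc_inj hG hh hn hy hj hy hj hst).2.2
      rwa [Nat.mod_eq_of_lt hs, Nat.mod_eq_of_lt ht] at this
    · intro t
      refine ⟨(hends _).1, ?_⟩
      rw [(hends _).2, nxt_cyc hG hh hn hy hj]
  have hcell : ∀ X : Set α, (∀ c : ℕ × ℕ, c.1 < N → c.2 < N → (X ∩ ψ '' Cell vt h c).Subsingleton) →
      ∀ c : ℕ × ℕ, c.1 < N → c.2 < N →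
      Mg ι M S ends (Cell vt h c) (ψ '' Cell vt h c) (X ∩ ψ '' Cell vt h c) := by
    intro X hX c hc1 hc2
    have hsub : ∀ t < h, Lad vt h (h * c.1 + t) c.2 ⊆ Cell vt h c := by
      intro t ht
      unfold Cell
      exact subset_biUnion_of_mem (u := fun t => Lad vt h (h * c.1 + t) c.2)
        (show t ∈ (Finset.range h : Set ℕ) from Finset.mem_coe.2 (Finset.mem_range.2 ht))
    have hl : ∀ t < h, Mg ι M S ends (Lad vt h (h * c.1 + t) c.2)
        (ψ '' Lad vt h (h * c.1 + t) c.2) (X ∩ ψ '' Lad vt h (h * c.1 + t) c.2) := by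
      intro t ht
      refine hlad _ _ (hY_lt hc1 ht) hc2 X ((hX c hc1 hc2).anti ?_)
      exact inter_subset_inter_right _ (image_mono (hsub t ht))
    have hPQ : ∀ T, 1 ≤ T → T ≤ h →
        PQ ι M S ends ψ X (fun t => Lad vt h (h * c.1 + t) c.2) (Finset.range T) := by
      intro T hT
      induction T, hT using Nat.le_induction with
      | base =>
        intro h1
        unfold PQ
        have : ⋃ t ∈ Finset.range 1, Lad vt h (h * c.1 + t) c.2 = Lad vt h (h * c.1 + 0) c.2 := by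
          simp
        rw [this]
        exact hl 0 (by omega)
      | succ T hT ih =>
        intro h1
        rw [Finset.range_add_one]
        refine PQ.add hB (fun c _ => Set.toFinite _) (ih (by omega)) (c := T) (c' := T - 1)
          (Set.toFinite _) (hl T (by omega)) (Finset.mem_range.2 (by omega)) ?_ ?_
        · intro b hb hbT
          have hb' := Finset.mem_range.1 hb
          refine Lad_disj hG hh hn (hY_lt hc1 (by omega)) hc2 (hY_lt hc1 (by omega)) hc2 ?_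
          rintro ⟨e, _⟩
          omega
        · have e : h * c.1 + T = (h * c.1 + (T - 1)) + 1 := by omega
          rw [e]
          set y := h * c.1 + (T - 1) with hy
          have hyN : y + 1 < h * N := by
            have := hY_lt (h := h) hc1 (show T < h by omega)
            omega
          have hr2 : 2 * (y + 1) + 1 < n := row_lt hn hyN
          refine rung_of hφ hι (fun s => vt (2 * y + 1) (2 * h * c.2 + s))
            (fun s => vt (2 * y + 1 + 1) (2 * h * c.2 + s)) ?_ ?_ ?_ ?_ ?_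
          · intro s hs; exact vt_mem_Lad hh (Or.inr rfl) hs
          · intro s hs; exact vt_mem_Lad hh (Or.inl (by ring)) hs
          · intro s hs; exact hG.adjv (by omega) (col_lt hn hc2 hs)
          · intro s hs s' hs' hss
            have := (hG.inj (by omega) (col_lt hn hc2 hs) (by omega) (col_lt hn hc2 hs') hss).2
            omega
          · intro s hs s' hs' hss
            have := (hG.inj (by omega) (col_lt hn hc2 hs) (by omega) (col_lt hn hc2 hs') hss).1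
            omega
    exact hPQ h hh (le_refl _)
  have hrange : ∀ {Y a : ℕ}, Y < N → a < 2 * h → 2 * h * Y + a < n := fun hY ha =>
    col_lt hn hY ha
  refine ⟨V, ends, ψ, Cell vt h, ap, ?_, ?_, ?_, ?_⟩
  · intro X hX
    refine ⟨hB, hpsi, fun c => Set.toFinite _, Cell_disj hG hh hn, hcell X hX, ?_, ?_⟩
    · intro l d hl hd
      have e1 : 2 * h * l + (2 * h - 1) + 1 = 2 * h * (l + 1) + 0 := by
        rw [Nat.mul_succ]; omega
      have hlt : 2 * h * (l + 1) + 0 < n := hrange hl (by omega)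
      refine rung_of hφ hι (fun s => vt (2 * h * l + (2 * h - 1)) (2 * h * d + s))
        (fun s => vt (2 * h * l + (2 * h - 1) + 1) (2 * h * d + s)) ?_ ?_ ?_ ?_ ?_
      · intro s hs; exact vt_mem_Cell hh (by omega) hs
      · intro s hs
        rw [e1]
        exact vt_mem_Cell hh (by omega) hs
      · intro s hs
        exact hG.adjv (by omega) (hrange hd hs)
      · intro s hs s' hs' hss
        have := (hG.inj (by omega) (hrange hd hs) (by omega) (hrange hd hs') hss).2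
        omega
      · intro s hs s' hs' hss
        have := (hG.inj (by omega) (hrange hd hs) (by omega) (hrange hd hs') hss).1
        omega
    · intro l d hl hd
      have e1 : 2 * h * d + (2 * h - 1) + 1 = 2 * h * (d + 1) + 0 := by
        rw [Nat.mul_succ]; omega
      have hlt : 2 * h * (d + 1) + 0 < n := hrange hd (by omega)
      refine rung_of hφ hι (fun s => vt (2 * h * l + s) (2 * h * d + (2 * h - 1)))
        (fun s => vt (2 * h * l + s) (2 * h * d + (2 * h - 1) + 1)) ?_ ?_ ?_ ?_ ?_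
      · intro s hs; exact vt_mem_Cell hh hs (by omega)
      · intro s hs
        rw [e1]
        exact vt_mem_Cell hh hs (by omega)
      · intro s hs
        exact hG.adjh (hrange hl hs) (by omega)
      · intro s hs s' hs' hss
        have := (hG.inj (hrange hl hs) (by omega) (hrange hl hs') (by omega) hss).1
        omega
      · intro s hs s' hs' hss
        have := (hG.inj (hrange hl hs) (by omega) (hrange hl hs') (by omega) hss).2
        omega
  · have hsubS : range ψ ⊆ S := by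
      rintro _ ⟨v, rfl⟩
      exact (hpsi v).1
    have hfin : (range ψ).Finite := Set.finite_range ψ
    have hind : M.Indep (range ψ) := by
      refine hB.ind (range ψ) (Function.invFun ψ) hsubS ?_ ?_
      · rintro _ ⟨v, rfl⟩ _ ⟨v', rfl⟩ hvv
        rw [Function.leftInverse_invFun hψi v, Function.leftInverse_invFun hψi v'] at hvv
        rw [hvv]
      · rintro _ ⟨v, rfl⟩
        rw [Function.leftInverse_invFun hψi v]
        exact (hpsi v).2
    refine hind.isBasis_of_eRk_ge hfin hsubS ?_ hS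
    rw [hind.eRk_eq_encard]
    have h1 := hB.rk (univ : Set (V))
    have h2 : S ⊆ ins S ends univ := fun e he => ⟨he, fun v _ => mem_univ v⟩
    have h3 : (range ψ).encard = (univ : Set (V)).encard := by
      rw [← image_univ, hψi.injOn.encard_image]
    rw [h3]
    exact (M.eRk_mono h2).trans h1
  · intro v
    rcases exists_cyc hG hh hn v with ⟨h0, _⟩ | ⟨y, j, i, hy, hj, hi, rfl⟩
    · exact Or.inl h0
    · right
      refine ⟨(y / h, j), ?_, hj, ?_⟩
      · simp only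
        rw [Nat.div_lt_iff_lt_mul (by omega), mul_comm]
        exact hy
      · unfold Cell
        refine mem_iUnion₂.2 ⟨y % h, Finset.mem_range.2 (Nat.mod_lt _ (by omega)), ?_⟩
        simp only
        rw [Nat.div_add_mod]
        exact mem_Lad_of_cyc hh
  · intro c
    have hsub : Cell vt h c ⊆ (fun p : ℕ × ℕ => vt (2 * h * c.1 + p.1) (2 * h * c.2 + p.2)) ''
        ((Finset.range (2 * h) ×ˢ Finset.range (2 * h) : Finset (ℕ × ℕ)) : Set (ℕ × ℕ)) := by
      intro v hv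
      unfold Cell at hv
      obtain ⟨t, ht, hv⟩ := mem_iUnion₂.1 hv
      have ht' := Finset.mem_range.1 ht
      obtain ⟨i, hi, rfl⟩ := hv
      have e : 2 * (h * c.1 + t) = 2 * h * c.1 + 2 * t := by ring
      rcases cyc_cases (vt := vt) hh (y := h * c.1 + t) (j := c.2) (i := i) with
        ⟨h1, h2⟩ | ⟨h1, h1', h2⟩
      · refine ⟨(2 * t, i % (4 * h)), ?_, ?_⟩
        · simp only [Finset.coe_product, mem_prod, Finset.mem_coe, Finset.mem_range]
          omega
        · rw [h2, e]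
      · refine ⟨(2 * t + 1, 4 * h - 1 - i % (4 * h)), ?_, ?_⟩
        · simp only [Finset.coe_product, mem_prod, Finset.mem_coe, Finset.mem_range]
          omega
        · rw [h2, e]
          simp only
          rw [add_assoc]
    calc (ψ '' Cell vt h c).ncard ≤ (Cell vt h c).ncard := Set.ncard_image_le (Set.toFinite _)
      _ ≤ _ := Set.ncard_le_ncard hsub ((Finset.finite_toSet _).image _)
      _ ≤ _ := Set.ncard_image_le (Finset.finite_toSet _)
      _ = 2 * h * (2 * h) := by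
        rw [Set.ncard_coe_finset, Finset.card_product, Finset.card_range]

/-! ### The two grid graphs -/

/-- grid vertex of `G_n^+` -/
def vtP (n r c : ℕ) : Option (Fin n × Fin n) :=
  if h : r < n ∧ c < n then some (⟨r, h.1⟩, ⟨c, h.2⟩) else none

lemma vtP_eq {n r c : ℕ} (hr : r < n) (hc : c < n) : vtP n r c = some (⟨r, hr⟩, ⟨c, hc⟩) := by
  unfold vtP; rw [dif_pos ⟨hr, hc⟩]

lemma gridLike_GPlus {n : ℕ} (hn : 0 < n) : GridLike n (GPlus n) (vtP n) none where
  inj := by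
    intro r c r' c' hr hc hr' hc' h
    rw [vtP_eq hr hc, vtP_eq hr' hc'] at h
    simpa using h
  adjh := by
    intro r c hr hc
    rw [vtP_eq hr (show c < n by omega), vtP_eq hr hc]
    exact Or.inl ⟨rfl, Or.inl rfl⟩
  adjv := by
    intro r c hr hc
    rw [vtP_eq (show r < n by omega) hc, vtP_eq hr hc]
    exact Or.inr ⟨rfl, Or.inl rfl⟩
  cov := by
    rintro (_ | ⟨⟨r, hr⟩, ⟨c, hc⟩⟩)
    · exact Or.inl rfl
    · exact Or.inr ⟨r, c, hr, hc, (vtP_eq hr hc).symm⟩
  apex := by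
    right
    rw [vtP_eq hn hn]
    trivial

/-- The plain `n × n` grid. -/
def Grid (n : ℕ) : SimpleGraph (Fin n × Fin n) where
  Adj := gridAdj
  symm := ⟨by
    rintro p q h
    rcases h with ⟨h1, h2 | h2⟩ | ⟨h1, h2 | h2⟩
    · exact Or.inl ⟨h1.symm, Or.inr h2⟩
    · exact Or.inl ⟨h1.symm, Or.inl h2⟩
    · exact Or.inr ⟨h1.symm, Or.inr h2⟩
    · exact Or.inr ⟨h1.symm, Or.inl h2⟩⟩
  loopless := ⟨by
    rintro p h
    rcases h with ⟨_, h2 | h2⟩ | ⟨_, h2 | h2⟩ <;> omega⟩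

/-- grid vertex of the plain grid -/
def vtG {n : ℕ} (hn : 0 < n) (r c : ℕ) : Fin n × Fin n :=
  (⟨r % n, Nat.mod_lt _ hn⟩, ⟨c % n, Nat.mod_lt _ hn⟩)

lemma vtG_eq {n r c : ℕ} (hn : 0 < n) (hr : r < n) (hc : c < n) :
    vtG hn r c = (⟨r, hr⟩, ⟨c, hc⟩) := by
  unfold vtG
  simp only [Nat.mod_eq_of_lt hr, Nat.mod_eq_of_lt hc]

lemma gridLike_Grid {n : ℕ} (hn : 0 < n) : GridLike n (Grid n) (vtG hn) (⟨0, hn⟩, ⟨0, hn⟩) where
  inj := by
    intro r c r' c' hr hc hr' hc' h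
    rw [vtG_eq hn hr hc, vtG_eq hn hr' hc'] at h
    simpa using h
  adjh := by
    intro r c hr hc
    rw [vtG_eq hn hr (show c < n by omega), vtG_eq hn hr hc]
    exact Or.inl ⟨rfl, Or.inl rfl⟩
  adjv := by
    intro r c hr hc
    rw [vtG_eq hn (show r < n by omega) hc, vtG_eq hn hr hc]
    exact Or.inr ⟨rfl, Or.inl rfl⟩
  cov := by
    rintro ⟨⟨r, hr⟩, ⟨c, hc⟩⟩
    exact Or.inr ⟨r, c, hr, hc, (vtG_eq hn hr hc).symm⟩
  apex := Or.inl ⟨0, 0, hn, hn, (vtG_eq hn hn hn).symm⟩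

end BIC
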