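import Pool.Agent.Helper34.BIC.Inst
import Pool.Agent.Helper34.BIC.Tutte

open Set
open scoped Matroid

namespace BIC

universe u

/-- Grid-like graphs of any sizes `2 · 4^k · N₁`, `2 · 4^k · N₂`. -/
theorem thmGrid (k : ℕ) (hk : 1 ≤ k) : ∃ κ₀ N₀ : ℕ, ∀ {α : Type u} (M : Matroid α) [M.Finite]
    (S T : Set α), S ⊆ M.E → T ⊆ M.E → Disjoint S T → ∀ N₁ N₂ : ℕ, N₀ ≤ N₁ → N₀ ≤ N₂ →
    ∀ {V₁ V₂ : Type} [Finite V₁] [Finite V₂] {G₁ : SimpleGraph V₁} {G₂ : SimpleGraph V₂}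
      {vt₁ : ℕ → ℕ → V₁} {vt₂ : ℕ → ℕ → V₂} {ap₁ : V₁} {ap₂ : V₂},
    GridLike (2 * 4 ^ k * N₁) G₁ vt₁ ap₁ → GridLike (2 * 4 ^ k * N₂) G₂ vt₂ ap₂ →
    IsBicircular (M ↾ S) G₁ → IsBicircular (M✶ ↾ T) G₂ → KGe M S T κ₀ →
    HasUniformMinor M k := by
  classical
  set h := 4 ^ k with hh
  set w := 2 * h * (2 * h) with hw
  set q₂ := 4 ^ (2 * (3 * k * k)) * (k * k + k) with hq₂
  set q₁ := (2 * q₂) ^ 2 with hq₁
  set q₀ := (2 * q₁) ^ 2 with hq₀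
  have hh1 : 1 ≤ h := Nat.one_le_pow _ _ (by norm_num)
  refine ⟨w * (w * q₀ + 1) + 2, 2 * k + 2, ?_⟩
  intro α M _ S T hS hT hST N₁ N₂ hN₁ hN₂ V₁ V₂ _ _ G₁ G₂ vt₁ vt₂ ap₁ ap₂ hg₁ hg₂ hbS hbT hκ
  obtain ⟨M', h1, h2, h3, h4, h5⟩ := tutte hST _ M hS hT rfl hκ
  have hfin' : M'.Finite := ⟨M.ground_finite.subset h1.subset⟩
  have hS' : S ⊆ M'.E := by rw [h2]; exact subset_union_left
  have hT' : T ⊆ M'.E := by rw [h2]; exact subset_union_right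
  have hcard : Fintype.card (Cond k) < 2 * h := by
    have := card_Cond k
    omega
  have dS : SideData (Cond k) M' S N₁ w := side_data hS' hg₁ hh1 rfl (by omega) hcard
    (by rw [h3]; exact hbS)
  have dT : SideData (Cond k) M'✶ T N₂ w := side_data (M := M'✶) (S := T)
    (by rw [Matroid.dual_ground]; exact hT') hg₂ hh1 rfl (by omega) hcard (by rw [h4]; exact hbT)
  have hE : M'.E \ S = T := by
    rw [h2]
    ext e
    simp only [mem_sdiff, mem_union]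
    constructor
    · rintro ⟨a | a, b⟩
      · exact absurd a b
      · exact a
    · intro a
      exact ⟨Or.inr a, fun b => Set.disjoint_left.1 hST b a⟩
  have hκ' := h5 S (subset_refl _) (fun s hs => ⟨hS' hs, Set.disjoint_left.1 hST hs⟩)
  rw [hE] at hκ'
  obtain ⟨N', a, b, c⟩ := core hk hST h2 dS dT hκ' (by omega) (by omega) (le_refl q₂) (le_refl q₁)
    (le_refl q₀) (by omega)
  exact ⟨N', a.trans h1, b, c⟩

theorem thmA (k : ℕ) (hk : 1 ≤ k) : ∃ n : ℕ, ∀ {α : Type u} (M : Matroid α) [M.Finite]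
    (S T : Set α), S ⊆ M.E → T ⊆ M.E → Disjoint S T →
    IsBicircular (M ↾ S) (GPlus n) → IsBicircular (M✶ ↾ T) (GPlus n) → KGe M S T n →
    HasUniformMinor M k := by
  obtain ⟨κ₀, N₀, hmain⟩ := thmGrid.{u} k hk
  have h1 : 1 ≤ 4 ^ k := Nat.one_le_pow _ _ (by norm_num)
  have h2 : κ₀ + N₀ + 1 ≤ 2 * 4 ^ k * (κ₀ + N₀ + 1) := Nat.le_mul_of_pos_left _ (by omega)
  refine ⟨2 * 4 ^ k * (κ₀ + N₀ + 1), ?_⟩
  intro α M _ S T hS hT hST hbS hbT hκ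
  have hg := gridLike_GPlus (n := 2 * 4 ^ k * (κ₀ + N₀ + 1)) (by omega)
  refine hmain M S T hS hT hST (κ₀ + N₀ + 1) (κ₀ + N₀ + 1) (by omega) (by omega) hg hg hbS hbT ?_
  intro X hX1 hX2
  have := hκ X hX1 hX2
  omega

end BIC
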